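import Mathlib

/-! A sweep-line count: at most `3 n` pairs are ever adjacent. -/

set_option autoImplicit false

open Finset

namespace Pool.Agent.Lib.MP_fb520c_co

variable {ι : Type*}

/-- `a` lies directly below `b` at time `t` -/
def Adj (act : ι → ℝ → Prop) (r : ι → ι → Prop) (t : ℝ) (a b : ι) : Prop :=
  act a t ∧ act b t ∧ r a b ∧ ∀ m, act m t → r a m → ¬ r m b

lemma exists_rel_max (r : ι → ι → Prop) (M : Finset ι) (hM : M.Nonempty)
    (irr : ∀ a, ¬ r a a) (tr : ∀ a ∈ M, ∀ b ∈ M, ∀ c ∈ M, r a b → r b c → r a c) :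
    ∃ m ∈ M, ∀ m' ∈ M, ¬ r m m' := by
  classical
  obtain ⟨m, hm, hmax⟩ := M.exists_max_image (fun m => (M.filter fun x => r x m).card) hM
  refine ⟨m, hm, fun m' hm' h => ?_⟩
  have : (M.filter fun x => r x m) ⊂ M.filter fun x => r x m' := by
    refine ⟨fun x hx => ?_, fun hs => ?_⟩
    · rw [mem_filter] at hx ⊢
      exact ⟨hx.1, tr x hx.1 m hm m' hm' hx.2 h⟩
    · have := hs (mem_filter.2 ⟨hm, h⟩)
      exact irr m (mem_filter.1 this).2
  exact absurd (hmax m' hm') (not_le.2 (card_lt_card this))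

section

variable {act : ι → ℝ → Prop} {r : ι → ι → Prop}
  (total : ∀ t a b, act a t → act b t → a ≠ b → r a b ∨ r b a)

include total

lemma Adj.right_unique {t : ℝ} {a b b' : ι} (h : Adj act r t a b) (h' : Adj act r t a b') :
    b = b' := by
  by_contra hne
  rcases total t b b' h.2.1 h'.2.1 hne with h1 | h1
  · exact h'.2.2.2 b h.2.1 h.2.2.1 h1
  · exact h.2.2.2 b' h'.2.1 h'.2.2.1 h1

lemma Adj.left_unique {t : ℝ} {a a' b : ι} (h : Adj act r t a b) (h' : Adj act r t a' b) :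
    a = a' := by
  by_contra hne
  rcases total t a a' h.1 h'.1 hne with h1 | h1
  · exact h.2.2.2 a' h'.1 h1 h'.2.2.1
  · exact h'.2.2.2 a h.1 h1 h.2.2.1

end

/-- below a given active element that has something below it there is an adjacent one -/
lemma exists_adj_below [Fintype ι] {act : ι → ℝ → Prop} {r : ι → ι → Prop}
    (irr : ∀ a, ¬ r a a)
    (trans : ∀ t a b c, act a t → act b t → act c t → r a b → r b c → r a c)
    {t : ℝ} {a b : ι} (ha : act a t) (hb : act b t) (hab : r a b) :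
    ∃ m, Adj act r t m b := by
  classical
  obtain ⟨m, hm, hmax⟩ := exists_rel_max r (univ.filter fun m => act m t ∧ r m b)
    ⟨a, by simp [ha, hab]⟩ irr (fun x hx y hy z hz => trans t x y z
      (mem_filter.1 hx).2.1 (mem_filter.1 hy).2.1 (mem_filter.1 hz).2.1)
  have hm' := (mem_filter.1 hm).2
  exact ⟨m, hm'.1, hb, hm'.2, fun x hx h1 h2 => hmax x (by simp [hx, h2]) h1⟩

lemma exists_adj_above [Fintype ι] {act : ι → ℝ → Prop} {r : ι → ι → Prop}
    (irr : ∀ a, ¬ r a a)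
    (trans : ∀ t a b c, act a t → act b t → act c t → r a b → r b c → r a c)
    {t : ℝ} {a b : ι} (ha : act a t) (hb : act b t) (hab : r a b) :
    ∃ m, Adj act r t a m := by
  obtain ⟨m, h⟩ := exists_adj_below (act := act) (r := fun x y => r y x) irr
    (fun t a b c h1 h2 h3 h4 h5 => trans t c b a h3 h2 h1 h5 h4) hb ha hab
  exact ⟨m, h.2.1, h.1, h.2.2.1, fun x hx h1 h2 => h.2.2.2 x hx h2 h1⟩

open Classical in
theorem adj_count [Fintype ι] (act : ι → ℝ → Prop) (r : ι → ι → Prop)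
    (hact : ∀ m a b t, act m a → act m b → a ≤ t → t ≤ b → act m t)
    (asymm : ∀ a b, r a b → ¬ r b a)
    (total : ∀ t a b, act a t → act b t → a ≠ b → r a b ∨ r b a)
    (trans : ∀ t a b c, act a t → act b t → act c t → r a b → r b c → r a c) :
    (univ.filter fun p : ι × ι => ∃ t, Adj act r t p.1 p.2).card ≤ 3 * Fintype.card ι := by
  have irr : ∀ a, ¬ r a a := fun a h => asymm a a h h
  set P := univ.filter fun p : ι × ι => ∃ t, Adj act r t p.1 p.2 with hP
  have hw : ∀ p : ι × ι, ∃ t, p ∈ P → Adj act r t p.1 p.2 := by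
    intro p
    by_cases h : p ∈ P
    · obtain ⟨t, ht⟩ := (mem_filter.1 h).2
      exact ⟨t, fun _ => ht⟩
    · exact ⟨0, fun h' => absurd h' h⟩
  choose τ hτ using hw
  set T := P.image τ with hT
  have hs : ∀ p : ι × ι, ∃ s, p ∈ P → s ∈ T ∧ Adj act r s p.1 p.2 ∧
      ∀ t ∈ T, t < s → ¬ Adj act r t p.1 p.2 := by
    intro p
    by_cases h : p ∈ P
    · have hne : (T.filter fun t => Adj act r t p.1 p.2).Nonempty :=
        ⟨τ p, mem_filter.2 ⟨mem_image_of_mem _ h, hτ p h⟩⟩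
      refine ⟨_, fun _ => ⟨(mem_filter.1 (min'_mem _ hne)).1, (mem_filter.1 (min'_mem _ hne)).2,
        fun t ht hlt hA => ?_⟩⟩
      exact absurd (min'_le _ t (mem_filter.2 ⟨ht, hA⟩)) (not_le.2 hlt)
    · exact ⟨0, fun h' => absurd h' h⟩
  choose s hs using hs
  set P1 := P.filter fun p => ∀ t ∈ T, t < s p → ¬ act p.1 t
  set P2 := P.filter fun p => ∀ t ∈ T, t < s p → ¬ act p.2 t
  set P3 := P.filter fun p => (∃ t ∈ T, t < s p ∧ act p.1 t) ∧ ∃ t ∈ T, t < s p ∧ act p.2 t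
  have hsub : P ⊆ P1 ∪ P2 ∪ P3 := by
    intro p hp
    simp only [P1, P2, P3, mem_union, mem_filter]
    by_cases h1 : ∀ t ∈ T, t < s p → ¬ act p.1 t
    · exact Or.inl (Or.inl ⟨hp, h1⟩)
    by_cases h2 : ∀ t ∈ T, t < s p → ¬ act p.2 t
    · exact Or.inl (Or.inr ⟨hp, h2⟩)
    push Not at h1 h2
    exact Or.inr ⟨hp, h1, h2⟩
  have c1 : P1.card ≤ Fintype.card ι := by
    refine card_le_card_of_injOn (fun p => p.1) (fun _ _ => mem_univ _) ?_
    intro p hp q hq hpq
    obtain ⟨hp, hp'⟩ := mem_filter.1 hp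
    obtain ⟨hq, hq'⟩ := mem_filter.1 hq
    have hpq : p.1 = q.1 := hpq
    obtain ⟨a1, a2, -⟩ := hs p hp
    obtain ⟨b1, b2, -⟩ := hs q hq
    have e : s p = s q := by
      rcases lt_trichotomy (s p) (s q) with h | h | h
      · exact absurd (hpq ▸ a2.1) (hq' _ a1 h)
      · exact h
      · exact absurd (hpq ▸ b2.1) (hp' _ b1 h)
    rw [e, hpq] at a2
    exact Prod.ext hpq (a2.right_unique total b2)
  have c2 : P2.card ≤ Fintype.card ι := by
    refine card_le_card_of_injOn (fun p => p.2) (fun _ _ => mem_univ _) ?_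
    intro p hp q hq hpq
    obtain ⟨hp, hp'⟩ := mem_filter.1 hp
    obtain ⟨hq, hq'⟩ := mem_filter.1 hq
    have hpq : p.2 = q.2 := hpq
    obtain ⟨a1, a2, -⟩ := hs p hp
    obtain ⟨b1, b2, -⟩ := hs q hq
    have e : s p = s q := by
      rcases lt_trichotomy (s p) (s q) with h | h | h
      · exact absurd (hpq ▸ a2.2.1) (hq' _ a1 h)
      · exact h
      · exact absurd (hpq ▸ b2.2.1) (hp' _ b1 h)
    rw [e, hpq] at a2
    exact Prod.ext (a2.left_unique total b2) hpq
  have h3 : ∀ p : ι × ι, ∃ (m : ι) (s' : ℝ), p ∈ P3 → s' ∈ T ∧ s' < s p ∧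
      (∀ t ∈ T, t < s p → t ≤ s') ∧ Adj act r s' m p.2 ∧ ¬ act m (s p) := by
    intro p
    by_cases h : p ∈ P3
    · obtain ⟨hp, ⟨t1, ht1, l1, k1⟩, t2, ht2, l2, k2⟩ := mem_filter.1 h
      obtain ⟨a1, a2, a3⟩ := hs p hp
      have hne : (T.filter fun t => t < s p).Nonempty := ⟨t1, mem_filter.2 ⟨ht1, l1⟩⟩
      obtain ⟨m1, m2⟩ := mem_filter.1 (max'_mem _ hne)
      have m3 : ∀ t ∈ T, t < s p → t ≤ (T.filter fun t => t < s p).max' hne :=
        fun t ht hl => le_max' _ t (mem_filter.2 ⟨ht, hl⟩)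
      set s' := (T.filter fun t => t < s p).max' hne
      have ha : act p.1 s' := hact _ _ _ _ k1 a2.1 (m3 _ ht1 l1) m2.le
      have hb : act p.2 s' := hact _ _ _ _ k2 a2.2.1 (m3 _ ht2 l2) m2.le
      obtain ⟨m, hm⟩ := exists_adj_below irr trans ha hb a2.2.2.1
      refine ⟨m, s', fun _ => ⟨m1, m2, m3, hm, fun hms => ?_⟩⟩
      have hne' : p.1 ≠ m := fun e => a3 s' m1 m2 (e ▸ hm)
      rcases total s' _ _ ha hm.1 hne' with h1 | h1
      · exact a2.2.2.2 m hms h1 hm.2.2.1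
      · exact hm.2.2.2 _ ha h1 a2.2.2.1
    · exact ⟨p.1, 0, fun h' => absurd h' h⟩
  choose m s' hm using h3
  have c3 : P3.card ≤ Fintype.card ι := by
    refine card_le_card_of_injOn m (fun _ _ => mem_univ _) ?_
    intro p hp q hq hpq
    obtain ⟨p1, p2, p3, p4, p5⟩ := hm p hp
    obtain ⟨q1, q2, q3, q4, q5⟩ := hm q hq
    obtain ⟨a1, a2, -⟩ := hs p (mem_filter.1 hp).1
    obtain ⟨b1, b2, -⟩ := hs q (mem_filter.1 hq).1
    have e : s' p = s' q := by
      rcases lt_trichotomy (s' p) (s' q) with h | h | h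
      · have : s p ≤ s' q := not_lt.1 fun h' => absurd (p3 _ q1 h') (not_le.2 h)
        exact absurd (hact _ _ _ _ p4.1 (hpq ▸ q4.1) p2.le this) p5
      · exact h
      · have : s q ≤ s' p := not_lt.1 fun h' => absurd (q3 _ p1 h') (not_le.2 h)
        exact absurd (hact _ _ _ _ q4.1 (hpq ▸ p4.1) q2.le this) q5
    have e2 : s p = s q := by
      rcases lt_trichotomy (s p) (s q) with h | h | h
      · exact absurd (q3 _ a1 h) (not_le.2 (e ▸ p2))
      · exact h
      · exact absurd (p3 _ b1 h) (not_le.2 (e ▸ q2))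
    rw [e, hpq] at p4
    have e3 : p.2 = q.2 := p4.right_unique total q4
    rw [e2, e3] at a2
    exact Prod.ext (a2.left_unique total b2) e3
  calc P.card ≤ (P1 ∪ P2 ∪ P3).card := card_le_card hsub
    _ ≤ P1.card + P2.card + P3.card :=
      (card_union_le _ _).trans (Nat.add_le_add_right (card_union_le _ _) _)
    _ ≤ 3 * Fintype.card ι := by omega

end Pool.Agent.Lib.MP_fb520c_co
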