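import Pool.Agent.Lib.MP_fb520c_co.Latt

-- part Pool.Agent.Lib.MP_fb520c_co.Bounds
section

/-! The four density bounds. -/

set_option autoImplicit false

open MeasureTheory Set Real Filter Topology Metric
open scoped ENNReal

noncomputable section

namespace Pool.Agent.Lib.MP_fb520c_co

lemma sq_symm {o z : Plane} {L : ℝ} (h : z ∈ sq o L) : o ∈ sq z L :=
  ⟨by rw [abs_sub_comm]; exact h.1, by rw [abs_sub_comm]; exact h.2⟩

theorem kershner {C : Set Plane} (hC : IsCompact C) (h0 : volume C ≠ 0) {R : ℝ} (hR : 0 < R)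
    (hM : ∀ z ∈ C, ‖z‖ ≤ R) {𝒜 : Set (Set Plane)} (h1 : IsCongruentFamily C 𝒜)
    (h2 : IsCovering 𝒜) :
    ENNReal.ofReal ((volume C).toReal / (3 * √3 / 2 * R ^ 2)) ≤ lowerDensity 𝒜 := by
  classical
  have hH : 0 < 3 * √3 / 2 * R ^ 2 := by positivity
  choose! g hg using h1
  refine le_of_tendsto (tendsto_quad _ _ (-R) (-(12 * (lam * R ^ 2))) hH) ?_
  filter_upwards [eventually_gt_atTop R] with L hL
  have hL0 : 0 < L := by linarith
  refine le_lower (2 * L) fun r hr => ?_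
  have e0 : ∀ A : {A : Set Plane // A ∈ 𝒜 ∧ A ⊆ closedBall 0 r}, volume A.1 = volume C := fun A => by
    rw [hg A.1 A.2.1, volume_isometry_image _ hC.measurableSet]
  simp only [tot, e0]
  rcases finite_or_infinite {A : Set Plane // A ∈ 𝒜 ∧ A ⊆ closedBall 0 r} with hf | hf
  swap
  · rw [ENNReal.tsum_const_eq_top_of_ne_zero h0]; exact le_top
  have := Fintype.ofFinite {A : Set Plane // A ∈ 𝒜 ∧ A ⊆ closedBall 0 r}
  have e2 : ENNReal.ofReal ((4 * (L + -R) ^ 2 + -(12 * (lam * R ^ 2))) / (3 * √3 / 2 * R ^ 2)) *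
      volume (closedBall (0 : Plane) (r - 2 * L)) ≤
      (Fintype.card {A : Set Plane // A ∈ 𝒜 ∧ A ⊆ closedBall 0 r} : ℝ≥0∞) *
        ENNReal.ofReal (4 * L ^ 2) := by
    rw [← lintegral_count (fun A : {A : Set Plane // A ∈ 𝒜 ∧ A ⊆ closedBall 0 r} => g A.1 0) hL0.le,
      ← setLIntegral_const, ← lintegral_indicator measurableSet_closedBall]
    refine lintegral_mono fun o => ?_
    by_cases ho : o ∈ closedBall (0 : Plane) (r - 2 * L)
    swap
    · rw [indicator_of_notMem ho]; exact zero_le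
    rw [indicator_of_mem ho]
    have := kershner_local ((Finset.univ.filter fun A : {A : Set Plane // A ∈ 𝒜 ∧ A ⊆ closedBall 0 r} =>
      o ∈ sq (g A.1 0) L).image fun A => g A.1 0) (o := o) (L := L + -R) (by linarith) hR
      (fun z hz => by
        obtain ⟨A, hA, hzA⟩ : z ∈ ⋃₀ 𝒜 := by rw [h2]; trivial
        have k1 : ‖z - g A 0‖ ≤ R := norm_sub_le_of_mem hM _ (by rwa [← hg A hA])
        have k2 : A ⊆ closedBall 0 r := fun y hy => by
          have k3 : ‖y - g A 0‖ ≤ R := norm_sub_le_of_mem hM _ (by rwa [← hg A hA])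
          have k4 := dist_of_mem_sq hz
          rw [mem_closedBall_zero_iff] at ho ⊢
          have k5 := norm_add₃_le (a := y - g A 0) (b := -(z - g A 0)) (c := z - o)
          have k6 := norm_add_le (y - o) o
          rw [norm_neg, show y - g A 0 + -(z - g A 0) + (z - o) = y - o by abel] at k5
          rw [sub_add_cancel] at k6
          linarith
        refine ⟨g A 0, Finset.mem_image.2 ⟨⟨A, hA, k2⟩, Finset.mem_filter.2
          ⟨Finset.mem_univ _, sq_symm ?_⟩, rfl⟩, k1⟩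
        have := mem_sq_of_near (sq_symm hz) (z := g A 0) (M := R) (by rwa [norm_sub_rev])
        rwa [neg_add_cancel_right] at this)
    rw [← ENNReal.ofReal_natCast]
    refine ENNReal.ofReal_le_ofReal ((div_le_iff₀ hH).2 ?_)
    refine le_trans (by linarith) (mul_le_mul_of_nonneg_right
      (Nat.cast_le.2 (Finset.card_image_le (f := fun A => g A.1 0))) hH.le)
  rw [tsum_fintype, Finset.sum_const, Finset.card_univ, nsmul_eq_mul,
    ENNReal.ofReal_mul ENNReal.toReal_nonneg, ENNReal.ofReal_toReal hC.measure_ne_top,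
    mul_comm _ (volume C), mul_assoc]
  refine mul_le_mul_right ?_ _
  rw [ENNReal.ofReal_div_of_pos (by positivity), div_eq_mul_inv, mul_right_comm, ← div_eq_mul_inv,
    ENNReal.div_le_iff (by simpa using hL0.ne') ENNReal.ofReal_ne_top]
  exact e2

/-- the packing density in the extended reals -/
def pd (C : Set Plane) : ℝ≥0∞ :=
  ⨆ (𝒜 : Set (Set Plane)) (_ : IsCongruentFamily C 𝒜 ∧ IsPacking 𝒜), upperDensity 𝒜

/-- the covering density in the extended reals -/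
def cd (C : Set Plane) : ℝ≥0∞ :=
  ⨅ (𝒜 : Set (Set Plane)) (_ : IsCongruentFamily C 𝒜 ∧ IsCovering 𝒜), lowerDensity 𝒜

/-- the lattice covering density in the extended reals -/
def ld (C : Set Plane) : ℝ≥0∞ :=
  ⨅ (𝒜 : Set (Set Plane)) (_ : IsLatticeFamily C 𝒜 ∧ IsCovering 𝒜), lowerDensity 𝒜

lemma cd_le_ld (C : Set Plane) : cd C ≤ ld C := by
  refine le_iInf₂ fun 𝒜 h => iInf₂_le 𝒜 ⟨?_, h.2⟩
  obtain ⟨⟨p, q, -, rfl⟩, -⟩ := h
  exact lat_congr p q C

lemma congr_image (g : Plane ≃ᵢ Plane) (C : Set Plane) (𝒜 : Set (Set Plane)) :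
    IsCongruentFamily (g '' C) 𝒜 ↔ IsCongruentFamily C 𝒜 := by
  refine forall₂_congr fun A _ => ⟨fun ⟨f, h⟩ => ⟨g.trans f, ?_⟩, fun ⟨f, h⟩ => ⟨g.symm.trans f, ?_⟩⟩
  · rw [h, image_image]; rfl
  · rw [h, image_image]; simp

lemma pd_image (g : Plane ≃ᵢ Plane) (C : Set Plane) : pd (g '' C) = pd C := by
  simp only [pd, congr_image]

lemma cd_image (g : Plane ≃ᵢ Plane) (C : Set Plane) : cd (g '' C) = cd C := by
  simp only [cd, congr_image]

lemma Sym0.pd_le {C : Set Plane} (hC : Sym0 C) {H : ℝ} (hH0 : 0 < H)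
    (hH : ∀ a b c, ENNReal.ofReal H ≤ volume (hexS (supp C) a b c)) :
    pd C ≤ ENNReal.ofReal ((volume C).toReal / H) :=
  iSup₂_le fun _ h => hC.upper_le hH0 hH h.1 h.2

lemma Sym0.volume_ne {C : Set Plane} (hC : Sym0 C) : volume C ≠ 0 := by
  obtain ⟨ε, h, h'⟩ := hC.int
  exact ((measure_closedBall_pos volume _ h).trans_le (measure_mono h')).ne'

lemma Sym0.area_pos {C : Set Plane} (hC : Sym0 C) : 0 < (volume C).toReal :=
  ENNReal.toReal_pos hC.volume_ne hC.cpt.measure_ne_top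

lemma Sym0.le_cd {C : Set Plane} (hC : Sym0 C) {R : ℝ} (hR : 0 < R) (hM : ∀ z ∈ C, ‖z‖ ≤ R) :
    ENNReal.ofReal ((volume C).toReal / (3 * √3 / 2 * R ^ 2)) ≤ cd C :=
  le_iInf₂ fun _ h => kershner hC.cpt hC.volume_ne hR hM h.1 h.2

lemma Sym0.ld_le {C : Set Plane} (hC : Sym0 C) (c : Plane) {u v t : Plane} (hu : u ∈ C)
    (hv : v ∈ C) (ht : t ∈ C) (ha : 0 ≤ dt u v) (hb : 0 ≤ dt v t) (hc : 0 ≤ dt u t)
    (hd : 0 < hform u v t) : ld (IsometryEquiv.addLeft c '' C) ≤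
      ENNReal.ofReal ((volume C).toReal / hform u v t) := by
  have hd' : 0 < dt (u + v) (v + t) := by rwa [dt_hform]
  refine (iInf₂_le (lat (u + v) (v + t) _) ⟨lat_lattice hd'.ne' _, ?_⟩).trans
    ((lower_le_upper _).trans ((lat_upper hd' (hC.cpt.image (IsometryEquiv.addLeft c).continuous)
      (hC.ne.image _)).trans_eq (by rw [volume_isometry_image _ hC.cpt.measurableSet, dt_hform])))
  refine eq_univ_of_forall fun z => ?_
  obtain ⟨k, hk⟩ := hC.cover hu hv ht ha hb hc hd (z - c)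
  refine ⟨_, mem_lat.2 ⟨k, rfl⟩, _, ⟨_, hk, rfl⟩, ?_⟩
  show lp (u + v) (v + t) k + (c + (z - c - lp (u + v) (v + t) k)) = z
  abel

lemma lt_of_mem_interior {A : Set Plane} {θ c : ℝ} (h : ∀ z ∈ A, ip z θ ≤ c) {z : Plane}
    (hz : z ∈ interior A) : ip z θ < c := by
  obtain ⟨ε, hε, h'⟩ := nhds_basis_closedBall.mem_iff.1 (mem_interior_iff_mem_nhds.1 hz)
  have := h (z + pol ε θ) (h' (by simp [norm_pol, abs_of_pos hε]))
  have e : ip (z + pol ε θ) θ = ip z θ + ip (pol ε θ) θ := by simp [ip]; ring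
  rw [e, ip_pol, sub_self, cos_zero] at this
  linarith

lemma Sym0.le_pd {C : Set Plane} (hC : Sym0 C) {r : ℝ} (hr : 0 < r)
    (h : ∀ z ∈ C, ip z 0 ≤ r ∧ ip z (π / 3) ≤ r ∧ ip z (-(π / 3)) ≤ r) :
    ENNReal.ofReal ((volume C).toReal / (2 * √3 * r ^ 2)) ≤ pd C := by
  have h3 : √3 * √3 = 3 := Real.mul_self_sqrt (by norm_num)
  have hd : dt (pol (2 * r) 0) (pol (2 * r) (π / 3)) = 2 * √3 * r ^ 2 := by
    simp [dt, pol]; ring
  have hd' : 0 < dt (pol (2 * r) 0) (pol (2 * r) (π / 3)) := by rw [hd]; positivity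
  have strip : ∀ θ, (∀ z ∈ C, ip z θ ≤ r) → ∀ k z, z ∈ interior (tr (pol (2 * r) 0)
      (pol (2 * r) (π / 3)) C k) → |ip z θ - ip (lp (pol (2 * r) 0) (pol (2 * r) (π / 3)) k) θ| < r := by
    intro θ hθ k z hz
    have e : ∀ a b : Plane, ip (a + b) θ = ip a θ + ip b θ := fun a b => by simp [ip]; ring
    have k1 := lt_of_mem_interior (θ := θ)
      (c := ip (lp (pol (2 * r) 0) (pol (2 * r) (π / 3)) k) θ + r)
      (by rintro _ ⟨y, hy, rfl⟩; rw [e]; linarith [hθ y hy]) hz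
    have k2 := lt_of_mem_interior (θ := θ + π)
      (c := -ip (lp (pol (2 * r) 0) (pol (2 * r) (π / 3)) k) θ + r) (by
        rintro _ ⟨y, hy, rfl⟩
        have := hθ _ (hC.sym y hy)
        rw [ip_neg] at this
        rw [ip_add_pi, e]; linarith) hz
    rw [ip_add_pi] at k2
    exact abs_lt.2 ⟨by linarith, by linarith⟩
  have hdis : ∀ k k', k ≠ k' → Disjoint (interior (tr (pol (2 * r) 0) (pol (2 * r) (π / 3)) C k))
      (interior (tr (pol (2 * r) 0) (pol (2 * r) (π / 3)) C k')) := by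
    rintro ⟨m, n⟩ ⟨m', n'⟩ hne
    refine Set.disjoint_left.2 fun z hz hz' => hne ?_
    have a1 := abs_lt.1 (strip _ (fun z hz => (h z hz).1) _ z hz)
    have a2 := abs_lt.1 (strip _ (fun z hz => (h z hz).1) _ z hz')
    have b1 := abs_lt.1 (strip _ (fun z hz => (h z hz).2.1) _ z hz)
    have b2 := abs_lt.1 (strip _ (fun z hz => (h z hz).2.1) _ z hz')
    have c1 := abs_lt.1 (strip _ (fun z hz => (h z hz).2.2) _ z hz)
    have c2 := abs_lt.1 (strip _ (fun z hz => (h z hz).2.2) _ z hz')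
    have e1 : ∀ m n : ℤ, ip (lp (pol (2 * r) 0) (pol (2 * r) (π / 3)) (m, n)) 0 =
        r * ((2 * m + n : ℤ) : ℝ) := fun m n => by simp [ip, lp, pol]; ring
    have e2 : ∀ m n : ℤ, ip (lp (pol (2 * r) 0) (pol (2 * r) (π / 3)) (m, n)) (π / 3) =
        r * ((m + 2 * n : ℤ) : ℝ) := fun m n => by
      simp [ip, lp, pol]; linear_combination (n * r / 2) * h3
    have e3 : ∀ m n : ℤ, ip (lp (pol (2 * r) 0) (pol (2 * r) (π / 3)) (m, n)) (-(π / 3)) =
        r * ((m - n : ℤ) : ℝ) := fun m n => by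
      simp [ip, lp, pol]; linear_combination (-(n * r / 2)) * h3
    have key : ∀ (a b : ℤ) (x : ℝ), -r < x - r * a → x - r * b < r → a < b + 2 := by
      intro a b x k1 k2
      have : r * (a : ℝ) < r * (b + 2) := by linarith
      exact_mod_cast lt_of_mul_lt_mul_left this hr.le
    rw [e1] at a1 a2
    rw [e2] at b1 b2
    rw [e3] at c1 c2
    have := key _ _ _ a1.1 a2.2
    have := key _ _ _ a2.1 a1.2
    have := key _ _ _ b1.1 b2.2
    have := key _ _ _ b2.1 b1.2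
    have := key _ _ _ c1.1 c2.2
    have := key _ _ _ c2.1 c1.2
    exact Prod.ext (by simp only; omega) (by simp only; omega)
  rw [← hd]
  refine (lat_lower hd' hC.cpt fun k k' e => ?_).trans ((lower_le_upper _).trans
    (le_iSup₂ (f := fun 𝒜 (_ : IsCongruentFamily C 𝒜 ∧ IsPacking 𝒜) => upperDensity 𝒜) _
      ⟨lat_congr _ _ C, fun A hA B hB hAB => ?_⟩))
  · by_contra hne
    have := hdis k k' hne
    rw [← e, disjoint_self, tr_eq] at this
    exact (Set.nonempty_of_mem (hC.mem_interior _)).ne_empty this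
  · obtain ⟨k, rfl⟩ := mem_lat.1 hA
    obtain ⟨k', rfl⟩ := mem_lat.1 hB
    exact hdis k k' fun e => hAB (by rw [e])

lemma exists_sym0 {C : Set Plane} (h1 : IsConvexBody C) (h2 : IsCentrallySymmetric C) :
    ∃ (c : Plane) (C0 : Set Plane), Sym0 C0 ∧ C = IsometryEquiv.addLeft c '' C0 := by
  obtain ⟨c, hc⟩ := h2
  obtain ⟨k1, k2, x, hx⟩ := h1
  have hm : ∀ z, z ∈ IsometryEquiv.addLeft (-c) '' C ↔ c + z ∈ C := fun z =>
    ⟨by rintro ⟨y, hy, rfl⟩; simpa using hy, fun h => ⟨_, h, by simp⟩⟩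
  refine ⟨c, IsometryEquiv.addLeft (-c) '' C, ⟨k1.image (IsometryEquiv.continuous _),
    convex_isometry_image _ k2, fun z hz => ?_, ?_⟩, ?_⟩
  · rw [hm] at hz ⊢
    convert hc _ hz using 1
    abel
  · have := k2.combo_interior_self_mem_interior hx (hc x (interior_subset hx))
      (a := 1 / 2) (b := 1 / 2) (by norm_num) (by norm_num) (by norm_num)
    rw [show (1 / 2 : ℝ) • x + (1 / 2 : ℝ) • (c + c - x) = c by module] at this
    obtain ⟨ε, hε, h'⟩ := nhds_basis_closedBall.mem_iff.1 (mem_interior_iff_mem_nhds.1 this)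
    exact ⟨ε, hε, fun z hz => (hm z).2 (h' (by simpa using hz))⟩
  · rw [image_image]; simp

theorem Sym0.main {C : Set Plane} (hC : Sym0 C) (c : Plane) {ψ : ℝ} (hψ0 : 0 ≤ ψ)
    (hψ : ψ ≤ π / 6) :
    0 < (pd C).toReal ∧ 0 < (cd C).toReal ∧
      (cd C).toReal ≤ (ld (IsometryEquiv.addLeft c '' C)).toReal ∧
      1 ≤ 4 * (π / 6 - ψ) / √3 / (ld (IsometryEquiv.addLeft c '' C)).toReal +
        √3 * tan ψ / (pd C).toReal := by
  have hpi := pi_pos
  obtain ⟨u, hu, v, hv, t, ht, ha, hb, hc, hd, hmax⟩ := hC.exists_max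
  obtain ⟨M, hM0, hM⟩ := hC.cpt.isBounded.exists_pos_norm_le
  have hA := hC.area_pos
  have l1 := hC.ld_le c hu hv ht ha hb hc hd
  have l2 := hC.le_cd hM0 hM
  have l3 := hC.le_pd hM0 fun z hz => by
    have k := fun θ => (le_abs_self _).trans ((abs_ip_le z θ).trans (hM z hz))
    exact ⟨k _, k _, k _⟩
  have l4 : cd C ≤ ld (IsometryEquiv.addLeft c '' C) := by rw [← cd_image]; exact cd_le_ld _
  have key : ∀ ψ, 0 ≤ ψ → ψ ≤ π / 6 → 4 * (π / 6 - ψ) / √3 * hform u v t < (volume C).toReal →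
      0 < √3 * tan ψ ∧ pd C ≤ ENNReal.ofReal ((volume C).toReal / (((volume C).toReal -
        4 * (π / 6 - ψ) / √3 * hform u v t) / (√3 * tan ψ))) := by
    intro ψ hψ0 hψ hlt
    have hβ : 0 ≤ √3 * tan ψ := mul_nonneg (sqrt_nonneg _)
      (tan_nonneg_of_nonneg_of_le_pi_div_two hψ0 (by linarith))
    have k : ∀ a b c, ∃ H : ℝ, ENNReal.ofReal H ≤ volume (hexS (supp C) a b c) ∧
        (volume C).toReal ≤ 4 * (π / 6 - ψ) / √3 * hform u v t + √3 * tan ψ * H := by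
      intro a b c
      obtain ⟨H, H0, H1, H2⟩ := hC.sas hψ0 hψ hmax a b c
      refine ⟨H, H1, ENNReal.toReal_le_of_le_ofReal (add_nonneg (mul_nonneg (div_nonneg
        (by linarith) (sqrt_nonneg _)) hd.le) (mul_nonneg hβ H0)) H2⟩
    have hβ' : 0 < √3 * tan ψ := by
      refine hβ.lt_of_ne fun e => ?_
      obtain ⟨H, -, k⟩ := k 0 0 0
      rw [← e] at k
      linarith
    refine ⟨hβ', hC.pd_le (div_pos (by linarith) hβ') fun a b c => ?_⟩
    obtain ⟨H, k1, k2⟩ := k a b c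
    exact le_trans (ENNReal.ofReal_le_ofReal ((div_le_iff₀ hβ').2 (by linarith))) k1
  have f1 : pd C ≠ ∞ := ne_top_of_le_ne_top ENNReal.ofReal_ne_top
    (key (π / 6) (by linarith) le_rfl (by simpa using hA)).2
  have f2 : ld (IsometryEquiv.addLeft c '' C) ≠ ∞ := ne_top_of_le_ne_top ENNReal.ofReal_ne_top l1
  have p1 : 0 < (pd C).toReal := ENNReal.toReal_pos
    ((ENNReal.ofReal_pos.2 (by positivity)).trans_le l3).ne' f1
  have p2 : 0 < (cd C).toReal := ENNReal.toReal_pos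
    ((ENNReal.ofReal_pos.2 (by positivity)).trans_le l2).ne' (ne_top_of_le_ne_top f2 l4)
  have p3 := ENNReal.toReal_mono f2 l4
  refine ⟨p1, p2, p3, ?_⟩
  have p4 := ENNReal.toReal_le_of_le_ofReal (by positivity) l1
  have hα : 0 ≤ 4 * (π / 6 - ψ) / √3 := div_nonneg (by linarith) (sqrt_nonneg _)
  have hβ : 0 ≤ √3 * tan ψ := mul_nonneg (sqrt_nonneg _)
    (tan_nonneg_of_nonneg_of_le_pi_div_two hψ0 (by linarith))
  have q1 := div_le_div_of_nonneg_left hα (p2.trans_le p3) p4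
  rw [div_div_eq_mul_div] at q1
  rcases lt_or_ge (4 * (π / 6 - ψ) / √3 * hform u v t) (volume C).toReal with k | k
  · obtain ⟨k1, k2⟩ := key ψ hψ0 hψ k
    have q2 := div_le_div_of_nonneg_left hβ p1 (ENNReal.toReal_le_of_le_ofReal
      (div_nonneg hA.le (div_nonneg (by linarith) hβ)) k2)
    rw [div_div_eq_mul_div, mul_div_cancel₀ _ k1.ne', sub_div, div_self hA.ne'] at q2
    linarith
  · have := (one_le_div hA).2 k
    linarith [div_nonneg hβ p1.le]

theorem main_bound {C : Set Plane} (h1 : IsConvexBody C) (h2 : IsCentrallySymmetric C) {ψ : ℝ}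
    (hψ0 : 0 ≤ ψ) (hψ : ψ ≤ π / 6) :
    0 < packingDensity C ∧ 0 < coveringDensity C ∧ coveringDensity C ≤ latticeCoveringDensity C ∧
      1 ≤ 4 * (π / 6 - ψ) / √3 / latticeCoveringDensity C + √3 * tan ψ / packingDensity C := by
  obtain ⟨c, C0, h, rfl⟩ := exists_sym0 h1 h2
  have := h.main c hψ0 hψ
  rwa [← pd_image (IsometryEquiv.addLeft c), ← cd_image (IsometryEquiv.addLeft c)] at this

end Pool.Agent.Lib.MP_fb520c_co
end
end

-- part Pool.Agent.Lib.MP_fb520c_co.Body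
section

/-! The extremal bodies and their densities. -/

set_option autoImplicit false

open MeasureTheory Set Real Filter Topology Metric
open scoped ENNReal

noncomputable section

namespace Pool.Agent.Lib.MP_fb520c_co

lemma hform_le {u v t : Plane} {r : ℝ} (hu : ‖u‖ ≤ r) (hv : ‖v‖ ≤ r) (ht : ‖t‖ ≤ r) :
    hform u v t ≤ 3 * √3 / 2 * r ^ 2 := by
  have h3 : √3 * √3 = 3 := Real.mul_self_sqrt (by norm_num)
  have k1 := pow_le_pow_left₀ (norm_nonneg _) hu 2
  have k2 := pow_le_pow_left₀ (norm_nonneg _) hv 2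
  have k3 := pow_le_pow_left₀ (norm_nonneg _) ht 2
  rw [norm_sq_eq] at k1 k2 k3
  have e : √3 / 2 * (u 0 ^ 2 + u 1 ^ 2 + (v 0 ^ 2 + v 1 ^ 2) + (t 0 ^ 2 + t 1 ^ 2)) - hform u v t =
      √3 / 6 * ((u 0 - v 0 + t 0) ^ 2 + (u 1 - v 1 + t 1) ^ 2) +
      √3 / 3 * ((u 0 + v 0 / 2 - t 0 / 2 - √3 * ((v 1 + t 1) / 2)) ^ 2 +
        (u 1 + v 1 / 2 - t 1 / 2 + √3 * ((v 0 + t 0) / 2)) ^ 2) := by
    simp only [hform, dt]
    linear_combination (-(√3 / 3 * (((v 0 + t 0) / 2) ^ 2 + ((v 1 + t 1) / 2) ^ 2) - 2 / 3 *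
      ((u 0 + v 0 / 2 - t 0 / 2) * ((v 1 + t 1) / 2) -
        (u 1 + v 1 / 2 - t 1 / 2) * ((v 0 + t 0) / 2)))) * h3
  have p : 0 ≤ √3 / 2 * (u 0 ^ 2 + u 1 ^ 2 + (v 0 ^ 2 + v 1 ^ 2) + (t 0 ^ 2 + t 1 ^ 2)) -
    hform u v t := by rw [e]; positivity
  have := mul_le_mul_of_nonneg_left (add_le_add (add_le_add k1 k2) k3)
    (show 0 ≤ √3 / 2 by positivity)
  linarith

lemma sym0_ball {r : ℝ} (hr : 0 < r) : Sym0 (closedBall (0 : Plane) r) :=
  ⟨isCompact_closedBall _ _, convex_closedBall _ _, fun z hz => by simpa using hz, r, hr,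
    Subset.rfl⟩

lemma thue {C : Set Plane} (hC : IsCompact C) {r : ℝ} (hr : 0 < r) (h : closedBall 0 r ⊆ C)
    (a b c : ℝ) : ENNReal.ofReal (2 * √3 * r ^ 2) ≤ volume (hexS (supp C) a b c) := by
  have hpi := pi_pos
  have h3 : √3 * √3 = 3 := Real.mul_self_sqrt (by norm_num)
  have h3p : 0 < √3 := by positivity
  have hD := sym0_ball hr
  have hs : ∀ θ, supp (closedBall 0 r) θ ≤ supp C θ := fun θ => by
    obtain ⟨z, hz, e⟩ := exists_supp hD.cpt hD.ne θ
    rw [← e]; exact le_supp hC (h hz) θ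
  refine le_trans ?_ (measure_mono (s := hexS (supp (closedBall 0 r)) a b c) fun z hz =>
    ⟨hz.1.trans_le (hs _), hz.2.1.trans_le (hs _), hz.2.2.trans_le (hs _)⟩)
  have hl : Tendsto (fun ψ : ℝ => ENNReal.ofReal (2 * √3 * r ^ 2 * cos ψ)) (𝓝[>] 0)
      (𝓝 (ENNReal.ofReal (2 * √3 * r ^ 2))) := by
    have : Continuous fun ψ : ℝ => 2 * √3 * r ^ 2 * cos ψ := by fun_prop
    simpa using ENNReal.tendsto_ofReal ((this.tendsto 0).mono_left nhdsWithin_le_nhds)
  refine le_of_tendsto hl ?_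
  filter_upwards [Ioo_mem_nhdsGT (show (0 : ℝ) < π / 6 by linarith)] with ψ hψ
  obtain ⟨H, H0, H1, H2⟩ := hD.sas (h := 3 * √3 / 2 * r ^ 2) hψ.1.le hψ.2.le
    (fun u hu v hv t ht => hform_le (mem_closedBall_zero_iff.1 hu) (mem_closedBall_zero_iff.1 hv)
      (mem_closedBall_zero_iff.1 ht)) a b c
  refine le_trans (ENNReal.ofReal_le_ofReal ?_) H1
  have cψ : 0 < cos ψ := cos_pos_of_mem_Ioo ⟨by linarith [hψ.1], by linarith [hψ.2]⟩
  have tψ : 0 ≤ tan ψ := tan_nonneg_of_nonneg_of_le_pi_div_two hψ.1.le (by linarith [hψ.2])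
  have e : 4 * (π / 6 - ψ) / √3 * (3 * √3 / 2 * r ^ 2) = (π - 6 * ψ) * r ^ 2 := by
    field_simp; ring
  rw [volume_closedBall_eq _ _ hr.le, e, ENNReal.ofReal_le_ofReal_iff (add_nonneg
    (mul_nonneg (by linarith [hψ.2]) (sq_nonneg _)) (by positivity))] at H2
  have k1 : tan ψ * cos ψ ≤ ψ := by rw [tan_mul_cos cψ.ne']; exact sin_le hψ.1.le
  have k2 : 6 * ψ * r ^ 2 ≤ √3 * tan ψ * H := by linarith
  have k3 := mul_le_mul_of_nonneg_right k2 cψ.le
  have k4 := mul_le_mul_of_nonneg_right k1 (mul_nonneg h3p.le H0)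
  refine le_of_mul_le_mul_left (a := √3 * ψ) ?_ (mul_pos h3p hψ.1)
  have : √3 * ψ * (2 * √3 * r ^ 2 * cos ψ) = 6 * ψ * r ^ 2 * cos ψ := by
    linear_combination (2 * ψ * r ^ 2 * cos ψ) * h3
  linarith

/-- the bodies interpolating between the two extremal shapes -/
def body (ψ s : ℝ) : Set Plane :=
  closedBall 0 1 ∩ {z | ∀ t, cos (6 * s) ≤ cos (6 * t) → ip z t ≤ cos ψ}

lemma mem_body {ψ s ρ θ : ℝ} : pol ρ θ ∈ body ψ s ↔
    |ρ| ≤ 1 ∧ ∀ t, cos (6 * s) ≤ cos (6 * t) → ρ * cos (t - θ) ≤ cos ψ := by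
  simp only [body, mem_inter_iff, mem_closedBall_zero_iff, norm_pol, mem_ofPred_eq, ip_pol]

lemma body_rot {ψ s ρ θ : ℝ} : pol ρ (θ + π / 3) ∈ body ψ s ↔ pol ρ θ ∈ body ψ s := by
  simp only [mem_body]
  refine and_congr_right fun _ => ⟨fun h t ht => ?_, fun h t ht => ?_⟩
  · have := h (t + π / 3) (by rwa [show 6 * (t + π / 3) = 6 * t + 2 * π by ring, cos_add_two_pi])
    rwa [add_sub_add_right_eq_sub] at this
  · have := h (t - π / 3) (by rwa [show 6 * (t - π / 3) = 6 * t - 2 * π by ring, cos_sub_two_pi])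
    rwa [sub_sub, add_comm] at this

lemma body_neg {ψ s ρ θ : ℝ} : pol ρ (-θ) ∈ body ψ s ↔ pol ρ θ ∈ body ψ s := by
  simp only [mem_body]
  refine and_congr_right fun _ => ⟨fun h t ht => ?_, fun h t ht => ?_⟩
  · have := h (-t) (by rwa [mul_neg, cos_neg])
    rwa [show -t - -θ = -(t - θ) by ring, cos_neg] at this
  · have := h (-t) (by rwa [mul_neg, cos_neg])
    rwa [show -t - θ = -(t - -θ) by ring, cos_neg] at this

lemma mem_body' {ψ s ρ θ : ℝ} (hs0 : 0 ≤ s) (hs : s ≤ π / 6) (hρ : 0 < ρ) (h0 : 0 ≤ θ)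
    (h1 : θ ≤ π / 6) : pol ρ θ ∈ body ψ s ↔ ρ ≤ 1 ∧ ρ * cos (max 0 (θ - s)) ≤ cos ψ := by
  have hpi := pi_pos
  rw [mem_body, abs_of_pos hρ]
  refine and_congr_right fun _ => ⟨fun h => ?_, fun h t ht => le_trans
    (mul_le_mul_of_nonneg_left ?_ hρ.le) h⟩
  · rcases le_total θ s with k | k
    · have := h θ (cos_le_cos_of_nonneg_of_le_pi (by linarith) (by linarith) (by linarith))
      rwa [max_eq_left (by linarith), ← sub_self θ]
    · have := h s le_rfl
      rwa [max_eq_right (by linarith), ← cos_neg, neg_sub]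
  · rcases le_total θ s with k | k
    · rw [max_eq_left (by linarith), cos_zero]; exact cos_le_one _
    rw [max_eq_right (by linarith)]
    by_contra hlt
    push Not at hlt
    obtain ⟨n, n1, n2⟩ : ∃ n : ℤ, -π < t - θ - n * (2 * π) ∧ t - θ - n * (2 * π) ≤ π := by
      have := toIocMod_mem_Ioc two_pi_pos (-π) (t - θ)
      refine ⟨toIocDiv two_pi_pos (-π) (t - θ), ?_, ?_⟩
      · have := this.1
        simp only [toIocMod, zsmul_eq_mul] at this
        linarith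
      · have := this.2
        simp only [toIocMod, zsmul_eq_mul] at this
        linarith
    rw [← cos_sub_int_mul_two_pi (t - θ) n, ← cos_abs (t - θ - _)] at hlt
    have h2 : |t - θ - n * (2 * π)| < θ - s := not_le.1 fun hle => absurd hlt (not_lt.2
      (cos_le_cos_of_nonneg_of_le_pi (by linarith) (abs_le.2 ⟨n1.le, n2⟩) hle))
    rw [abs_lt] at h2
    have e : cos (6 * t) = cos |6 * (t - n * (2 * π)) - π - 0| * (-1) := by
      rw [cos_abs, sub_zero, cos_sub_pi, show 6 * (t - n * (2 * π)) = 6 * t - (6 * n : ℤ) * (2 * π) by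
        push_cast; ring, cos_sub_int_mul_two_pi]
      ring
    have h4 : cos (π - 6 * s) < cos |6 * (t - n * (2 * π)) - π - 0| :=
      cos_lt_cos_of_nonneg_of_le_pi (abs_nonneg _) (by linarith)
        (abs_lt.2 ⟨by linarith [h2.1], by linarith [h2.2]⟩)
    rw [cos_pi_sub] at h4
    linarith

lemma sym0_body {ψ : ℝ} (hψ : 0 < cos ψ) (s : ℝ) :
    Sym0 (body ψ s) ∧ closedBall 0 (cos ψ) ⊆ body ψ s := by
  have e : body ψ s = closedBall 0 1 ∩ ⋂ t, ⋂ (_ : cos (6 * s) ≤ cos (6 * t)),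
      {z | ip z t ≤ cos ψ} := by ext z; simp [body]
  have hb : closedBall 0 (cos ψ) ⊆ body ψ s := fun z hz =>
    ⟨closedBall_subset_closedBall (cos_le_one _) hz, fun t _ =>
      (le_abs_self _).trans ((abs_ip_le z t).trans (mem_closedBall_zero_iff.1 hz))⟩
  refine ⟨⟨?_, ?_, fun z hz => ⟨by simpa using hz.1, fun t ht => ?_⟩, _, hψ, hb⟩, hb⟩
  · rw [e]
    exact (isCompact_closedBall _ _).inter_right (isClosed_iInter fun t => isClosed_iInter fun _ =>
      isClosed_le (continuous_ip t) continuous_const)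
  · rw [e]
    refine (convex_closedBall _ _).inter (convex_iInter fun t => convex_iInter fun _ =>
      convex_halfSpace_le ⟨fun x y => ?_, fun a x => ?_⟩ _) <;> simp [ip] <;> ring
  · rw [ip_neg, ← ip_add_pi]
    exact hz.2 _ (by rwa [show 6 * (t + π) = 6 * t + (3 : ℕ) * (2 * π) by push_cast; ring,
      cos_add_nat_mul_two_pi])

lemma ray_congr {S : Set Plane} {a b : ℝ} (h : ∀ ρ, pol ρ a ∈ S ↔ pol ρ b ∈ S) :
    ray S a = ray S b := by
  refine lintegral_congr fun ρ => ?_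
  by_cases k : pol ρ b ∈ S
  · rw [indicator_of_mem k, indicator_of_mem ((h ρ).2 k)]
  · rw [indicator_of_notMem k, indicator_of_notMem fun k' => k ((h ρ).1 k')]

lemma volume_body {ψ s : ℝ} (hψ0 : 0 ≤ ψ) (hs0 : 0 ≤ s) (hs : s + ψ ≤ π / 6) :
    volume (body ψ s) =
      ENNReal.ofReal (6 * (cos ψ ^ 2 * s + sin ψ * cos ψ + (π / 6 - ψ - s))) := by
  have hpi := pi_pos
  have cψ : 0 < cos ψ := cos_pos_of_mem_Ioo ⟨by linarith, by linarith⟩
  have sψ : 0 ≤ sin ψ := sin_nonneg_of_nonneg_of_le_pi hψ0 (by linarith)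
  have hc : ∀ t ∈ Icc s (s + ψ), cos ψ ≤ cos (t - s) := fun t ht =>
    cos_le_cos_of_nonneg_of_le_pi (by linarith [ht.1]) (by linarith) (by linarith [ht.2])
  have := volume_polar (sym0_body cψ s).1.cpt.measurableSet 0
  simp only [add_zero] at this
  rw [this, lint_twelve (fun t => ray_congr fun _ => body_rot) (fun t => ray_congr fun _ => body_neg),
    lint_add _ hs0 (by linarith), lint_add _ (a := s) (b := s + ψ) (by linarith) hs,
    setLIntegral_congr_fun (g := fun _ => ENNReal.ofReal (cos ψ ^ 2 / 2)) measurableSet_Ioc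
      (fun t ht => ray_eq cψ.le fun ρ hρ => by
        rw [mem_body' hs0 (by linarith) hρ ht.1.le (by linarith [ht.2]),
          max_eq_left (by linarith [ht.2]), cos_zero, mul_one]
        exact ⟨fun h => h.2, fun h => ⟨h.trans (cos_le_one _), h⟩⟩),
    setLIntegral_congr_fun (s := Ioc s (s + ψ))
      (g := fun t => ENNReal.ofReal ((cos ψ / cos (t - s)) ^ 2 / 2)) measurableSet_Ioc
      (fun t ht => by
        have k := hc t (Ioc_subset_Icc_self ht)
        have k' := cψ.trans_le k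
        refine ray_eq (by positivity) fun ρ hρ => ?_
        rw [mem_body' hs0 (by linarith) hρ (by linarith [ht.1]) (by linarith [ht.2]),
          max_eq_right (by linarith [ht.1]), le_div_iff₀ k']
        exact ⟨fun h => h.2, fun h => ⟨le_of_mul_le_mul_right (by linarith) k', h⟩⟩),
    setLIntegral_congr_fun (s := Ioc (s + ψ) (π / 6))
      (g := fun _ => ENNReal.ofReal (1 ^ 2 / 2)) measurableSet_Ioc
      (fun t ht => ray_eq zero_le_one fun ρ hρ => by
        rw [mem_body' hs0 (by linarith) hρ (by linarith [ht.1]) ht.2,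
          max_eq_right (by linarith [ht.1])]
        have := cos_le_cos_of_nonneg_of_le_pi (x := ψ) (y := t - s) hψ0 (by linarith [ht.2])
          (by linarith [ht.1])
        exact ⟨fun h => h.1, fun h => ⟨h, by nlinarith⟩⟩),
    lint_ofReal (G := fun t => cos ψ ^ 2 * tan (t - s) / 2)
      (g := fun t => (cos ψ / cos (t - s)) ^ 2 / 2) (by linarith)
      (fun t ht => ((((hasDerivAt_tan (cψ.trans_le (hc t ht)).ne').comp t
        ((hasDerivAt_id' t).sub_const s)).const_mul _).div_const 2).congr_deriv (by ring))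
      (((continuousOn_const.div (by fun_prop) fun t ht => (cψ.trans_le (hc t ht)).ne').pow
        2).div_const 2) (fun t _ => by positivity),
    setLIntegral_const, setLIntegral_const, Real.volume_Ioc, Real.volume_Ioc,
    ← ENNReal.ofReal_mul (by positivity), ← ENNReal.ofReal_mul (by positivity)]
  have e : cos ψ ^ 2 * tan (s + ψ - s) / 2 - cos ψ ^ 2 * tan (s - s) / 2 = sin ψ * cos ψ / 2 := by
    rw [sub_self, tan_zero, add_sub_cancel_left, ← tan_mul_cos cψ.ne']; ring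
  rw [e, ← ENNReal.ofReal_add (by positivity) (mul_nonneg (by positivity) (by linarith)),
    ← ENNReal.ofReal_add (mul_nonneg (by positivity) (by linarith))
      (add_nonneg (by positivity) (mul_nonneg (by positivity) (by linarith))),
    ← ENNReal.ofReal_ofNat 12, ← ENNReal.ofReal_mul (by norm_num)]
  congr 1
  ring

lemma dt_pol (a b : ℝ) : dt (pol 1 a) (pol 1 b) = sin (b - a) := by
  simp only [dt, pol, pt_zero, pt_one, sin_sub]; ring

theorem body_dens {ψ s : ℝ} (hψ0 : 0 ≤ ψ) (hs0 : 0 ≤ s) (hs : s + ψ ≤ π / 6) :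
    IsConvexBody (body ψ s) ∧ IsCentrallySymmetric (body ψ s) ∧ packingDensity (body ψ s) =
      6 * (cos ψ ^ 2 * s + sin ψ * cos ψ + (π / 6 - ψ - s)) / (2 * √3 * cos ψ ^ 2) ∧
    coveringDensity (body ψ s) =
      6 * (cos ψ ^ 2 * s + sin ψ * cos ψ + (π / 6 - ψ - s)) / (3 * √3 / 2) ∧
    latticeCoveringDensity (body ψ s) =
      6 * (cos ψ ^ 2 * s + sin ψ * cos ψ + (π / 6 - ψ - s)) / (3 * √3 / 2) := by
  have hpi := pi_pos
  have cψ : 0 < cos ψ := cos_pos_of_mem_Ioo ⟨by linarith, by linarith⟩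
  have sψ : 0 ≤ sin ψ := sin_nonneg_of_nonneg_of_le_pi hψ0 (by linarith)
  obtain ⟨hB, hb⟩ := sym0_body cψ s
  have hA0 : 0 ≤ 6 * (cos ψ ^ 2 * s + sin ψ * cos ψ + (π / 6 - ψ - s)) :=
    mul_nonneg (by norm_num) (add_nonneg (by positivity) (by linarith))
  have hA : (volume (body ψ s)).toReal = 6 * (cos ψ ^ 2 * s + sin ψ * cos ψ + (π / 6 - ψ - s)) := by
    rw [volume_body hψ0 hs0 hs, ENNReal.toReal_ofReal hA0]
  have e1 : pd (body ψ s) = ENNReal.ofReal ((volume (body ψ s)).toReal / (2 * √3 * cos ψ ^ 2)) :=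
    le_antisymm (hB.pd_le (by positivity) (thue hB.cpt cψ hb)) (hB.le_pd cψ fun z hz =>
      ⟨hz.2 _ (by simpa using cos_le_one _),
        hz.2 _ (by rw [show 6 * (π / 3) = 2 * π by ring, cos_two_pi]; exact cos_le_one _),
        hz.2 _ (by rw [show 6 * -(π / 3) = -(2 * π) by ring, cos_neg, cos_two_pi]
                   exact cos_le_one _)⟩)
  have m0 : pol 1 (π / 6) ∈ body ψ s := by
    rw [mem_body' hs0 (by linarith) one_pos (by linarith) le_rfl, max_eq_right (by linarith),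
      one_mul]
    exact ⟨le_rfl, cos_le_cos_of_nonneg_of_le_pi hψ0 (by linarith) (by linarith)⟩
  have m1 := body_rot.2 m0
  have m2 := body_rot.2 m1
  have d0 : dt (pol 1 (π / 6)) (pol 1 (π / 6 + π / 3)) = √3 / 2 := by
    rw [dt_pol, add_sub_cancel_left, sin_pi_div_three]
  have d1 : dt (pol 1 (π / 6 + π / 3)) (pol 1 (π / 6 + π / 3 + π / 3)) = √3 / 2 := by
    rw [dt_pol, add_sub_cancel_left, sin_pi_div_three]
  have d2 : dt (pol 1 (π / 6)) (pol 1 (π / 6 + π / 3 + π / 3)) = √3 / 2 := by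
    rw [dt_pol, show π / 6 + π / 3 + π / 3 - π / 6 = π - π / 3 by ring, sin_pi_sub,
      sin_pi_div_three]
  have d3 : hform (pol 1 (π / 6)) (pol 1 (π / 6 + π / 3)) (pol 1 (π / 6 + π / 3 + π / 3)) =
      3 * √3 / 2 := by rw [hform, d0, d1, d2]; ring
  have l1 : ld (body ψ s) ≤ ENNReal.ofReal ((volume (body ψ s)).toReal / (3 * √3 / 2)) := by
    have := hB.ld_le 0 m0 m1 m2 (by rw [d0]; positivity)
      (by rw [d1]; positivity) (by rw [d2]; positivity) (by rw [d3]; positivity)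
    rwa [d3, show IsometryEquiv.addLeft (0 : Plane) '' body ψ s = body ψ s by simp] at this
  have l2 : ENNReal.ofReal ((volume (body ψ s)).toReal / (3 * √3 / 2)) ≤ cd (body ψ s) := by
    simpa using hB.le_cd one_pos fun z hz => mem_closedBall_zero_iff.1 hz.1
  refine ⟨⟨hB.cpt, hB.cvx, 0, mem_interior_iff_mem_nhds.2
    (mem_of_superset (closedBall_mem_nhds _ cψ) hb)⟩,
    ⟨0, fun x hx => by simpa using hB.sym x hx⟩, ?_, ?_, ?_⟩
  · show (pd _).toReal = _
    rw [e1, hA, ENNReal.toReal_ofReal (by positivity)]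
  · show (cd _).toReal = _
    rw [le_antisymm ((cd_le_ld _).trans l1) l2, hA, ENNReal.toReal_ofReal (by positivity)]
  · show (ld _).toReal = _
    rw [le_antisymm l1 (l2.trans (cd_le_ld _)), hA, ENNReal.toReal_ofReal (by positivity)]

theorem body_mem {ψ s : ℝ} (hψ0 : 0 ≤ ψ) (hs0 : 0 ≤ s) (hs : s + ψ ≤ π / 6) :
    (6 * (cos ψ ^ 2 * s + sin ψ * cos ψ + (π / 6 - ψ - s)) / (2 * √3 * cos ψ ^ 2),
      6 * (cos ψ ^ 2 * s + sin ψ * cos ψ + (π / 6 - ψ - s)) / (3 * √3 / 2)) ∈ omegaStar := by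
  obtain ⟨h1, h2, h3, h4, -⟩ := body_dens hψ0 hs0 hs
  exact ⟨_, h1, h2, by rw [h3, h4]⟩

end Pool.Agent.Lib.MP_fb520c_co
end
end

-- part Pool.Agent.Lib.MP_fb520c_co.Cap
section

/-! The part of the density region above the chord. -/

set_option autoImplicit false

open MeasureTheory Set Real Filter Topology Metric

noncomputable section

namespace Pool.Agent.Lib.MP_fb520c_co

lemma le_of_deriv' {G G' : ℝ → ℝ} {a b : ℝ} (hab : a ≤ b)
    (hG : ∀ t ∈ Icc a b, HasDerivAt G (G' t) t) (h : ∀ t ∈ Icc a b, 0 ≤ G' t) : G a ≤ G b := by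
  have : MonotoneOn G (Icc a b) := monotoneOn_of_deriv_nonneg (convex_Icc a b)
    (fun t ht => (hG t ht).continuousAt.continuousWithinAt)
    (fun t ht => (hG t (interior_subset ht)).differentiableAt.differentiableWithinAt)
    (fun t ht => by rw [(hG t (interior_subset ht)).deriv]; exact h t (interior_subset ht))
  exact this (left_mem_Icc.2 hab) (right_mem_Icc.2 hab) hab

lemma trig_pos {ψ : ℝ} (h : ψ ∈ Icc 0 (π / 6)) : 0 < cos ψ ∧ 0 ≤ sin ψ ∧ sin ψ ≤ 1 / 2 := by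
  have hpi := pi_pos
  refine ⟨cos_pos_of_mem_Ioo ⟨by linarith [h.1], by linarith [h.2]⟩,
    sin_nonneg_of_nonneg_of_le_pi h.1 (by linarith [h.2]), ?_⟩
  rw [← sin_pi_div_six]
  exact sin_le_sin_of_le_of_le_pi_div_two (by linarith [h.1]) (by linarith) h.2

lemma chord_iff {p : ℝ × ℝ} : p ∈ aboveChord ↔
    (4 / √3 * (π / 6) - 1) * (1 - p.1) ≤ (1 - √3 * (π / 6)) * (p.2 - 1) := by
  have h3 : √3 * √3 = 3 := Real.mul_self_sqrt (by norm_num)
  have h3p : 0 < √3 := by positivity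
  have e1 : √27 = 3 * √3 := by
    rw [show (27 : ℝ) = 3 ^ 2 * 3 by norm_num, sqrt_mul (by norm_num), sqrt_sq (by norm_num)]
  have e2 : √12 = 2 * √3 := by
    rw [show (12 : ℝ) = 2 ^ 2 * 3 by norm_num, sqrt_mul (by norm_num), sqrt_sq (by norm_num)]
  have e3 : 2 * π / (3 * √3) = 4 / √3 * (π / 6) := by field_simp; norm_num
  have e4 : π / (2 * √3) = √3 * (π / 6) := by field_simp; linarith
  simp only [aboveChord, mem_ofPred_eq, e1, e2, e3, e4]

lemma chord_pos : 0 < 4 / √3 * (π / 6) - 1 ∧ 0 < 1 - √3 * (π / 6) := by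
  have h1 : 1.73 < √3 := Real.lt_sqrt_of_sq_lt (by norm_num)
  have h2 : √3 < 1.74 := (sqrt_lt' (by norm_num)).2 (by norm_num)
  have h3 := pi_lt_d2
  have h4 := pi_gt_d2
  constructor
  · rw [sub_pos, div_mul_eq_mul_div, one_lt_div (by linarith)]; linarith
  · nlinarith

lemma lower_arc {ψ : ℝ} (h : ψ ∈ Icc 0 (π / 6)) :
    (1 - √3 * (π / 6)) * (4 / √3 * (cos ψ ^ 2 * (π / 6 - ψ) + sin ψ * cos ψ) - 1) ≤
      (4 / √3 * (π / 6) - 1) * (1 - √3 * (π / 6 - ψ + tan ψ)) := by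
  obtain ⟨hb, ha⟩ := chord_pos
  have h3 : √3 * √3 = 3 := Real.mul_self_sqrt (by norm_num)
  have h3p : 0 < √3 := by positivity
  set a := 1 - √3 * (π / 6) with ha'
  set b := 4 / √3 * (π / 6) - 1 with hb'
  let E : ℝ → ℝ := fun t => a * (4 / √3) * (2 * (π / 6 - t) * cos t + sin t) -
    b * √3 * (sin t / cos t ^ 2)
  let D : ℝ → ℝ := fun t => b * (1 - √3 * (π / 6 - t + tan t)) -
    a * (4 / √3 * (cos t ^ 2 * (π / 6 - t) + sin t * cos t) - 1)
  have hD : ∀ t ∈ Icc 0 (π / 6), HasDerivAt D (sin t * E t) t := by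
    intro t ht
    have hc := (trig_pos ht).1
    have d1 := (hasDerivAt_id' t).const_sub (π / 6)
    refine ((((d1.add (hasDerivAt_tan hc.ne')).const_mul √3).const_sub 1).const_mul b).sub
      (((((((hasDerivAt_cos t).pow 2).mul d1).add ((hasDerivAt_sin t).mul
        (hasDerivAt_cos t))).const_mul (4 / √3)).sub_const 1).const_mul a) |>.congr_deriv ?_
    simp only [E, Pi.pow_apply]
    have := sin_sq_add_cos_sq t
    field_simp
    push_cast
    linear_combination (6 * b * √3 ^ 2) * this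
  have hE : ∀ s t, s ∈ Icc 0 (π / 6) → t ∈ Icc 0 (π / 6) → s ≤ t → E t ≤ E s := by
    intro s t hs ht hst
    have k1 : 2 * (π / 6 - t) * cos t + sin t ≤ 2 * (π / 6 - s) * cos s + sin s := by
      have := le_of_deriv (G := fun t => -(2 * (π / 6 - t) * cos t + sin t))
        (G' := fun t => cos t + 2 * (π / 6 - t) * sin t)
        (fun t => ((((((hasDerivAt_id' t).const_sub (π / 6)).const_mul 2).mul
          (hasDerivAt_cos t)).add (hasDerivAt_sin t)).neg).congr_deriv (by ring)) hst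
        fun u hu => by
          have := trig_pos (ψ := u) ⟨hs.1.trans hu.1, hu.2.trans ht.2⟩
          exact add_nonneg this.1.le (mul_nonneg (by linarith [hu.2, ht.2]) this.2.1)
      linarith
    have k2 : sin s / cos s ^ 2 ≤ sin t / cos t ^ 2 := by
      have hpi := pi_pos
      refine div_le_div₀ (trig_pos ht).2.1 (sin_le_sin_of_le_of_le_pi_div_two (by linarith [hs.1])
        (by linarith [ht.2]) hst) (pow_pos (trig_pos ht).1 2) (pow_le_pow_left₀ (trig_pos ht).1.le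
        (cos_le_cos_of_nonneg_of_le_pi hs.1 (by linarith [ht.2]) hst) 2)
    exact sub_le_sub (mul_le_mul_of_nonneg_left k1 (by positivity))
      (mul_le_mul_of_nonneg_left k2 (by positivity))
  have D0 : D 0 = 0 := by simp [D, ha', hb']; ring
  have D1 : D (π / 6) = 0 := by
    simp only [D, sub_self, tan_pi_div_six, sin_pi_div_six, cos_pi_div_six]
    field_simp
    ring
  have : 0 ≤ D ψ := by
    rcases le_total 0 (E ψ) with k | k
    · rw [← D0]
      exact le_of_deriv' h.1 (fun t ht => hD t ⟨ht.1, ht.2.trans h.2⟩) fun t ht =>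
        mul_nonneg (trig_pos ⟨ht.1, ht.2.trans h.2⟩).2.1
          (k.trans (hE t ψ ⟨ht.1, ht.2.trans h.2⟩ h ht.2))
    · have := le_of_deriv' h.2 (fun t ht => (hD t ⟨h.1.trans ht.1, ht.2⟩).neg) fun t ht =>
        neg_nonneg.2 (mul_nonpos_of_nonneg_of_nonpos (trig_pos ⟨h.1.trans ht.1, ht.2⟩).2.1
          ((hE ψ t h ⟨h.1.trans ht.1, ht.2⟩ ht.1).trans k))
      simp only [Pi.neg_apply, D1] at this
      linarith
  simp only [D] at this
  linarith

/-- one sixth of the area of the largest body -/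
def top (ψ : ℝ) : ℝ := sin ψ * cos ψ + (π / 6 - ψ)

lemma upper_arc {ψ ω : ℝ} (hψ : ψ ∈ Icc 0 (π / 6)) (hω : ω ∈ Icc 0 (π / 6)) :
    (sin ψ * cos ψ ^ 3 / cos ω ^ 2 + (π / 6 - ψ)) * top ω ≤
      (sin ψ * cos ψ ^ 3 / cos ψ ^ 2 + (π / 6 - ψ)) * top ψ := by
  let G : ℝ → ℝ := fun t => (sin ψ * cos ψ ^ 3 / cos t ^ 2 + (π / 6 - ψ)) * top t
  have hG : ∀ t ∈ Icc 0 (π / 6), HasDerivAt G (2 * sin t / cos t ^ 3 *
      ((π / 6 - t) * (sin ψ * cos ψ ^ 3) - (π / 6 - ψ) * (sin t * cos t ^ 3))) t := by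
    intro t ht
    have hc := (trig_pos ht).1
    refine ((((hasDerivAt_const t (sin ψ * cos ψ ^ 3)).div ((hasDerivAt_cos t).pow 2)
      (pow_pos hc 2).ne').add_const (π / 6 - ψ)).mul (((hasDerivAt_sin t).mul
      (hasDerivAt_cos t)).add ((hasDerivAt_id' t).const_sub (π / 6)))).congr_deriv ?_
    simp only [Pi.pow_apply, Pi.div_apply, Pi.add_apply, Pi.mul_apply]
    have := sin_sq_add_cos_sq t
    generalize sin ψ * cos ψ ^ 3 = m
    generalize π / 6 - ψ = φ
    generalize π / 6 - t = φ'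
    field_simp
    push_cast
    linear_combination (m * cos t ^ 2 + φ * cos t ^ 4) * this
  have hm : ∀ s t, s ∈ Icc 0 (π / 6) → t ∈ Icc 0 (π / 6) → s ≤ t →
      (π / 6 - t) * (sin s * cos s ^ 3) ≤ (π / 6 - s) * (sin t * cos t ^ 3) := by
    intro s t hs ht hst
    refine mul_le_mul (by linarith) ?_ (mul_nonneg (trig_pos hs).2.1 (pow_pos (trig_pos hs).1 3).le)
      (by linarith [hs.2])
    refine le_of_deriv (G := fun t => sin t * cos t ^ 3)
      (G' := fun t => cos t ^ 2 * (cos t ^ 2 - 3 * sin t ^ 2))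
      (fun t => ((hasDerivAt_sin t).mul ((hasDerivAt_cos t).pow 3)).congr_deriv (by
        simp only [Pi.pow_apply]; push_cast; ring)) hst fun u hu => mul_nonneg (sq_nonneg _) ?_
    have := trig_pos (ψ := u) ⟨hs.1.trans hu.1, hu.2.trans ht.2⟩
    nlinarith [sin_sq_add_cos_sq u]
  have h2 : ∀ t ∈ Icc 0 (π / 6), 0 ≤ 2 * sin t / cos t ^ 3 := fun t ht =>
    div_nonneg (by linarith [(trig_pos ht).2.1]) (pow_pos (trig_pos ht).1 3).le
  rcases le_total ω ψ with k | k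
  · exact le_of_deriv' k (fun t ht => hG t ⟨hω.1.trans ht.1, ht.2.trans hψ.2⟩) fun t ht =>
      mul_nonneg (h2 t ⟨hω.1.trans ht.1, ht.2.trans hψ.2⟩)
        (sub_nonneg.2 (hm t ψ ⟨hω.1.trans ht.1, ht.2.trans hψ.2⟩ hψ ht.2))
  · have := le_of_deriv' k (fun t ht => (hG t ⟨hψ.1.trans ht.1, ht.2.trans hω.2⟩).neg) fun t ht =>
      neg_nonneg.2 (mul_nonpos_of_nonneg_of_nonpos (h2 t ⟨hψ.1.trans ht.1, ht.2.trans hω.2⟩)
        (sub_nonpos.2 (hm ψ t hψ ⟨hψ.1.trans ht.1, ht.2.trans hω.2⟩ ht.1)))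
    simp only [Pi.neg_apply] at this
    exact neg_le_neg_iff.1 this

lemma exists_param {p : ℝ × ℝ} (hp : p ∈ aboveChord) (h1 : p.1 ≤ 1) (h2 : p.2 ≤ 4 / √3 * (π / 6)) :
    ∃ ψ ∈ Icc 0 (π / 6), ∃ a : ℝ, 0 < a ∧ p.1 = √3 * a / cos ψ ^ 2 ∧ p.2 = 4 / √3 * a ∧
      (a ≤ top ψ → p ∈ omegaStar) := by
  obtain ⟨x, y⟩ := p
  rw [chord_iff] at hp
  simp only at hp h1 h2 ⊢
  obtain ⟨hb, ha⟩ := chord_pos
  have hpi := pi_pos
  have h3 : √3 * √3 = 3 := Real.mul_self_sqrt (by norm_num)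
  have h3p : 0 < √3 := by positivity
  have y1 : 1 ≤ y := by
    have := (mul_nonneg hb.le (sub_nonneg.2 h1)).trans hp
    linarith [nonneg_of_mul_nonneg_right this ha]
  have x1 : √3 * (π / 6) ≤ x := by
    have := hp.trans (mul_le_mul_of_nonneg_left (sub_le_sub_right h2 1) ha.le)
    rw [mul_comm] at this
    linarith [le_of_mul_le_mul_right this hb]
  have x0 : 0 < x := lt_of_lt_of_le (by positivity) x1
  have k1 : 3 / 4 ≤ 3 * y / (4 * x) := by rw [le_div_iff₀ (by positivity)]; linarith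
  have k2 : 3 * y / (4 * x) ≤ 1 := by
    rw [div_le_one (by positivity)]
    have : 3 * (4 / √3 * (π / 6)) = 4 * (√3 * (π / 6)) := by field_simp; linarith
    linarith
  obtain ⟨ψ, hψ, hc⟩ : ∃ ψ ∈ Icc 0 (π / 6), cos ψ ^ 2 = 3 * y / (4 * x) := by
    refine intermediate_value_Icc' (by linarith) (f := fun ψ => cos ψ ^ 2) (by fun_prop) ⟨?_, ?_⟩
    · simp only [sq_cos_pi_div_six]; exact k1
    · simpa using k2
  obtain ⟨cψ, sψ, -⟩ := trig_pos hψ
  obtain ⟨a, a0, rfl⟩ : ∃ a, 0 < a ∧ y = 4 / √3 * a := ⟨√3 / 4 * y, by positivity, by field_simp⟩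
  have hx : x = √3 * a / cos ψ ^ 2 := by
    rw [hc]; field_simp; linarith
  refine ⟨ψ, hψ, a, a0, hx, rfl, fun htop => ?_⟩
  have hlow : cos ψ ^ 2 * (π / 6 - ψ) + sin ψ * cos ψ ≤ a := by
    by_contra hlt
    push Not at hlt
    have q1 : x < √3 * (π / 6 - ψ + tan ψ) := by
      rw [hx, div_lt_iff₀ (pow_pos cψ 2), mul_assoc]
      refine mul_lt_mul_of_pos_left (hlt.trans_eq ?_) h3p
      rw [← tan_mul_cos cψ.ne']; ring
    have q2 := mul_lt_mul_of_pos_left hlt (show 0 < 4 / √3 by positivity)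
    have q3 := mul_lt_mul_of_pos_left (sub_lt_sub_left q1 1) hb
    have q4 := mul_lt_mul_of_pos_left (sub_lt_sub_right q2 1) ha
    linarith [lower_arc hψ]
  obtain ⟨s, hs, e⟩ : ∃ s ∈ Icc 0 (π / 6 - ψ),
      cos ψ ^ 2 * s + sin ψ * cos ψ + (π / 6 - ψ - s) = a := by
    refine intermediate_value_Icc' (by linarith [hψ.2])
      (f := fun s => cos ψ ^ 2 * s + sin ψ * cos ψ + (π / 6 - ψ - s)) (by fun_prop) ⟨?_, ?_⟩
    · simpa using hlow
    · simpa [top] using htop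
  have := body_mem hψ.1 hs.1 (show s + ψ ≤ π / 6 by linarith [hs.2])
  rw [e] at this
  convert this using 2
  · rw [hx]; field_simp; linarith
  · field_simp; norm_num

lemma le_top_of_bound {ψ a : ℝ} (hψ : ψ ∈ Icc 0 (π / 6)) (ha : 0 < a)
    (h : 1 ≤ 4 * (π / 6 - ψ) / √3 / (4 / √3 * a) + √3 * tan ψ / (√3 * a / cos ψ ^ 2)) :
    a ≤ top ψ := by
  have cψ := (trig_pos hψ).1
  have e : 4 * (π / 6 - ψ) / √3 / (4 / √3 * a) + √3 * tan ψ / (√3 * a / cos ψ ^ 2) = top ψ / a := by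
    rw [top, tan_eq_sin_div_cos]; field_simp; ring
  rwa [e, one_le_div ha] at h

lemma bound_box {p : ℝ × ℝ}
    (h : ∀ ψ ∈ Icc 0 (π / 6), 1 ≤ 4 * (π / 6 - ψ) / √3 / p.2 + √3 * tan ψ / p.1) :
    p.1 ≤ 1 ∧ p.2 ≤ 4 / √3 * (π / 6) := by
  have hpi := pi_pos
  have k1 := h 0 ⟨le_rfl, by linarith⟩
  have k2 := h (π / 6) ⟨by linarith, le_rfl⟩
  have e : √3 * (1 / √3) = 1 := by field_simp
  rw [tan_zero, mul_zero, zero_div, add_zero, sub_zero] at k1
  rw [sub_self, mul_zero, zero_div, zero_div, zero_add, tan_pi_div_six, e] at k2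
  constructor
  · rcases le_or_gt p.1 0 with k | k
    · linarith
    · rwa [one_le_div k] at k2
  · rcases le_or_gt p.2 0 with k | k
    · exact k.trans (by positivity)
    · rw [one_le_div k] at k1
      exact k1.trans_eq (by ring)

theorem cap_eq : omegaStar ∩ aboveChord = {p ∈ aboveChord | ∀ ψ ∈ Icc 0 (π / 6),
    1 ≤ 4 * (π / 6 - ψ) / √3 / p.2 + √3 * tan ψ / p.1} := by
  ext p
  refine ⟨fun ⟨⟨C, h1, h2, e⟩, hp⟩ => ⟨hp, fun ψ hψ => ?_⟩, fun ⟨hp, h⟩ => ⟨?_, hp⟩⟩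
  · obtain ⟨k1, k2, k3, k4⟩ := main_bound h1 h2 hψ.1 hψ.2
    rw [e]
    exact k4.trans (add_le_add_left (div_le_div_of_nonneg_left
      (div_nonneg (by linarith [hψ.2]) (sqrt_nonneg _)) k2 k3) _)
  · obtain ⟨ψ, hψ, a, a0, e1, e2, k⟩ := exists_param hp (bound_box h).1 (bound_box h).2
    exact k (le_top_of_bound hψ a0 (by rw [← e1, ← e2]; exact h ψ hψ))

theorem cap_convex : Convex ℝ (omegaStar ∩ aboveChord) := by
  have hpi := pi_pos
  have h3p : 0 < √3 := by positivity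
  have e : omegaStar ∩ aboveChord = aboveChord ∩ ⋂ ψ ∈ Icc 0 (π / 6),
      {p : ℝ × ℝ | sin ψ * cos ψ ^ 3 / √3 * p.1 + (π / 6 - ψ) * (√3 / 4) * p.2 ≤
        (sin ψ * cos ψ ^ 3 / cos ψ ^ 2 + (π / 6 - ψ)) * top ψ} := by
    have e0 : ∀ ψ ω a : ℝ, cos ω ≠ 0 → sin ψ * cos ψ ^ 3 / √3 * (√3 * a / cos ω ^ 2) +
        (π / 6 - ψ) * (√3 / 4) * (4 / √3 * a) =
        (sin ψ * cos ψ ^ 3 / cos ω ^ 2 + (π / 6 - ψ)) * a := by
      intro ψ ω a h; field_simp
    ext p
    simp only [mem_inter_iff, mem_iInter, mem_ofPred_eq]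
    constructor
    · intro hp
      obtain ⟨hp, h⟩ : p ∈ {p ∈ aboveChord | ∀ ψ ∈ Icc 0 (π / 6),
        1 ≤ 4 * (π / 6 - ψ) / √3 / p.2 + √3 * tan ψ / p.1} := by rw [← cap_eq]; exact hp
      obtain ⟨ω, hω, a, a0, e1, e2, -⟩ := exists_param hp (bound_box h).1 (bound_box h).2
      have k := le_top_of_bound hω a0 (by rw [← e1, ← e2]; exact h ω hω)
      refine ⟨hp, fun ψ hψ => le_trans ?_ (upper_arc hψ hω)⟩
      rw [e1, e2, e0 _ _ _ (trig_pos hω).1.ne']
      obtain ⟨c1, s1, -⟩ := trig_pos hψ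
      exact mul_le_mul_of_nonneg_left k (add_nonneg (by positivity) (by linarith [hψ.2]))
    · rintro ⟨hp, h⟩
      have k1 := h 0 ⟨le_rfl, by linarith⟩
      have k2 := h (π / 6) ⟨by linarith, le_rfl⟩
      simp only [top, sin_zero, zero_mul, zero_div, zero_add, sub_zero] at k1
      simp only [top, sub_self, zero_mul, add_zero, sin_pi_div_six, cos_pi_div_six] at k2
      have b1 : p.1 ≤ 1 := by
        refine le_of_mul_le_mul_left (k2.trans_eq ?_) (by positivity)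
        field_simp
      have b2 : p.2 ≤ 4 / √3 * (π / 6) := by
        refine le_of_mul_le_mul_left (k1.trans_eq ?_) (by positivity)
        field_simp
      obtain ⟨ω, hω, a, a0, e1, e2, k⟩ := exists_param hp b1 b2
      refine ⟨k ?_, hp⟩
      have := h ω hω
      obtain ⟨c1, s1, -⟩ := trig_pos hω
      rw [e1, e2, e0 _ _ _ c1.ne'] at this
      refine le_of_mul_le_mul_left this ?_
      rcases hω.2.eq_or_lt with q | q
      · rw [q, sin_pi_div_six, cos_pi_div_six, sub_self, add_zero]; positivity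
      · exact add_pos_of_nonneg_of_pos (by positivity) (by linarith)
  rw [e]
  refine Convex.inter ?_ (convex_iInter₂ fun ψ _ => ?_)
  · intro p hp q hq s t hs ht hst
    simp only [aboveChord, mem_ofPred_eq, Prod.fst_add, Prod.snd_add, Prod.smul_fst, Prod.smul_snd,
      smul_eq_mul] at hp hq ⊢
    obtain rfl : t = 1 - s := by linarith
    linarith [mul_le_mul_of_nonneg_left hp hs, mul_le_mul_of_nonneg_left hq ht]
  · refine convex_halfSpace_le ⟨fun x y => ?_, fun a x => ?_⟩ _ <;> simp <;> ring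

end Pool.Agent.Lib.MP_fb520c_co
end
end
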