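import Mathlib

/-!
Packing and covering densities of planar convex bodies, as in the problem file (case `d = 2`).
-/

set_option autoImplicit false

open MeasureTheory Filter Metric Set
open scoped ENNReal

noncomputable section

namespace Pool.Agent.Lib.MP_fb520c_co

/-- The Euclidean plane. -/
abbrev Plane : Type := EuclideanSpace ℝ (Fin 2)

/-- A convex body: a compact convex set with nonempty interior. -/
def IsConvexBody (C : Set Plane) : Prop :=
  IsCompact C ∧ Convex ℝ C ∧ (interior C).Nonempty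

/-- `C` is symmetric with respect to some point `c`. -/
def IsCentrallySymmetric (C : Set Plane) : Prop :=
  ∃ c : Plane, ∀ x ∈ C, c + c - x ∈ C

/-- The total area of the members of `𝒜` that lie in the disc of radius `r` about the origin,
divided by the area of that disc. -/
def ratio (𝒜 : Set (Set Plane)) (r : ℝ) : ℝ≥0∞ :=
  (∑' A : {A : Set Plane // A ∈ 𝒜 ∧ A ⊆ closedBall 0 r}, volume A.1) /
    volume (closedBall (0 : Plane) r)

/-- The upper density of an arrangement. -/
def upperDensity (𝒜 : Set (Set Plane)) : ℝ≥0∞ := limsup (ratio 𝒜) atTop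

/-- The lower density of an arrangement. -/
def lowerDensity (𝒜 : Set (Set Plane)) : ℝ≥0∞ := liminf (ratio 𝒜) atTop

/-- Every member of `𝒜` is a congruent copy of `C`. -/
def IsCongruentFamily (C : Set Plane) (𝒜 : Set (Set Plane)) : Prop :=
  ∀ A ∈ 𝒜, ∃ g : Plane ≃ᵢ Plane, A = g '' C

/-- `𝒜` is the family `C + Λ` of translates of `C` by the vectors of a lattice `Λ`. -/
def IsLatticeFamily (C : Set Plane) (𝒜 : Set (Set Plane)) : Prop :=
  ∃ p q : Plane, LinearIndependent ℝ ![p, q] ∧
    𝒜 = {A | ∃ m n : ℤ, A = (fun z => (m : ℝ) • p + (n : ℝ) • q + z) '' C}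

/-- The members of `𝒜` have pairwise disjoint interiors. -/
def IsPacking (𝒜 : Set (Set Plane)) : Prop :=
  𝒜.Pairwise fun A B => Disjoint (interior A) (interior B)

/-- The members of `𝒜` cover the plane. -/
def IsCovering (𝒜 : Set (Set Plane)) : Prop := ⋃₀ 𝒜 = univ

/-- The packing density `δ(C)`. -/
def packingDensity (C : Set Plane) : ℝ :=
  (⨆ (𝒜 : Set (Set Plane)) (_ : IsCongruentFamily C 𝒜 ∧ IsPacking 𝒜), upperDensity 𝒜).toReal

/-- The covering density `θ(C)`. -/
def coveringDensity (C : Set Plane) : ℝ :=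
  (⨅ (𝒜 : Set (Set Plane)) (_ : IsCongruentFamily C 𝒜 ∧ IsCovering 𝒜), lowerDensity 𝒜).toReal

/-- The lattice covering density `θ_L(C)`. -/
def latticeCoveringDensity (C : Set Plane) : ℝ :=
  (⨅ (𝒜 : Set (Set Plane)) (_ : IsLatticeFamily C 𝒜 ∧ IsCovering 𝒜), lowerDensity 𝒜).toReal

/-- The set `Ω₂*` of pairs `(δ(C), θ(C))`, `C` a centrally symmetric planar convex body. -/
def omegaStar : Set (ℝ × ℝ) :=
  {p | ∃ C : Set Plane, IsConvexBody C ∧ IsCentrallySymmetric C ∧
    p = (packingDensity C, coveringDensity C)}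

/-- The closed half-plane above the line through `(1, 1)` and the point
`(π / √12, 2π / √27)` of the circular disc. -/
def aboveChord : Set (ℝ × ℝ) :=
  {p | (2 * Real.pi / √27 - 1) * (1 - p.1) ≤ (1 - Real.pi / √12) * (p.2 - 1)}

end Pool.Agent.Lib.MP_fb520c_co
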