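import Pool.Agent.Lib.MP_fb520c_co.HarmA

/-! Areas of sectors, and the inequality `H + h ≤ 2 |C|`. -/

set_option autoImplicit false

open MeasureTheory Set Real Filter Topology Metric
open scoped ENNReal

noncomputable section

namespace Pool.Agent.Lib.MP_fb520c_co

variable {C : Set Plane}

/-- the part of `C` in the half-open sector from `a` to `b` -/
def sect (C : Set Plane) (a b : Plane) : Set Plane := C ∩ {z | 0 < dt a z ∧ 0 ≤ dt z b}

lemma measurableSet_sect (hC : IsCompact C) (a b : Plane) : MeasurableSet (sect C a b) :=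
  hC.measurableSet.inter
    ((measurableSet_lt measurable_const (g := dt a) (by unfold dt; fun_prop)).inter
      (measurableSet_le measurable_const (g := fun z => dt z b) (by unfold dt; fun_prop)))

lemma sect_ne_top (hC : IsCompact C) (a b : Plane) : volume (sect C a b) ≠ ∞ :=
  ne_top_of_le_ne_top hC.measure_ne_top (measure_mono inter_subset_left)

lemma sect_disj (a b c : Plane) : Disjoint (sect C a b) (sect C b c) :=
  Set.disjoint_left.2 fun z h1 h2 => by
    have k1 := h1.2.2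
    have k2 := h2.2.1
    rw [dt_swap] at k1
    linarith

/-- the area of a sector -/
def ar (C : Set Plane) (a b : Plane) : ℝ := volume.real (sect C a b)

lemma ar_nonneg (a b : Plane) : 0 ≤ ar C a b := measureReal_nonneg

lemma ar_split (hC : IsCompact C) {a b c : Plane} (h : 0 < dt a c) (h1 : 0 ≤ dt a b)
    (h2 : 0 ≤ dt b c) (hb : b ≠ 0) : ar C a b + ar C b c ≤ ar C a c := by
  unfold ar
  rw [← measureReal_union (sect_disj a b c) (measurableSet_sect hC b c) (sect_ne_top hC a b)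
    (sect_ne_top hC b c)]
  refine measureReal_mono (union_subset ?_ ?_) (sect_ne_top hC a c)
  · rintro z ⟨hz, k1, k2⟩
    refine ⟨hz, k1, ?_⟩
    have e : dt a c * dt z b = dt a b * dt z c - dt b c * dt a z := by simp only [dt]; ring
    by_contra hn
    push Not at hn
    have p1 : dt a b * dt z c ≤ 0 := mul_nonpos_of_nonneg_of_nonpos h1 hn.le
    have p2 : 0 ≤ dt b c * dt a z := mul_nonneg h2 k1.le
    have p3 : 0 ≤ dt a c * dt z b := mul_nonneg h.le k2
    have q1 : dt a b = 0 := by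
      have : dt a b * dt z c = 0 := by linarith
      exact (mul_eq_zero.1 this).resolve_right hn.ne
    have q2 : dt b c = 0 := by
      have : dt b c * dt a z = 0 := by linarith
      exact (mul_eq_zero.1 this).resolve_right k1.ne'
    exact hb (by rw [eq_comb h.ne' b, q1, q2]; simp)
  · rintro z ⟨hz, k1, k2⟩
    refine ⟨hz, ?_, k2⟩
    have e : dt a c * dt b z = dt b c * dt a z - dt a b * dt z c := by simp only [dt]; ring
    by_contra hn
    push Not at hn
    nlinarith [mul_pos h k1, mul_nonneg h1 k2, mul_nonneg h2 (neg_nonneg.2 hn)]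

lemma ar_three (hC : IsCompact C) (a b c : Plane) :
    ar C a b + ar C b c + ar C c a ≤ (volume C).toReal := by
  unfold ar
  rw [← measureReal_union (sect_disj a b c) (measurableSet_sect hC b c) (sect_ne_top hC a b)
    (sect_ne_top hC b c), ← measureReal_union
      (disjoint_union_left.2 ⟨(sect_disj c a b).symm, sect_disj b c a⟩) (measurableSet_sect hC c a)
      (measure_union_ne_top (sect_ne_top hC a b) (sect_ne_top hC b c)) (sect_ne_top hC c a)]
  exact measureReal_mono (union_subset (union_subset inter_subset_left inter_subset_left)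
    inter_subset_left) hC.measure_ne_top

lemma volume_std : volume (regionBetween (fun _ : ℝ => (0 : ℝ)) (fun x => 1 - x) (Ioc 0 1)) =
    ENNReal.ofReal (1 / 2) := by
  have h := volume_regionBetween_eq_integral (μ := volume) (f := fun _ : ℝ => (0 : ℝ))
    (g := fun x => 1 - x) (s := Ioc 0 1) (by simp)
    ((by fun_prop : Continuous fun x : ℝ => 1 - x).integrableOn_Ioc) measurableSet_Ioc
    fun x hx => by simpa using hx.2
  rw [Measure.volume_eq_prod, h, ← intervalIntegral.integral_of_le zero_le_one]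
  congr 1
  have := int_line 1 (-1) 0 1
  simp only [Pi.sub_apply, sub_zero]
  rw [show (fun x : ℝ => 1 - x) = fun t => 1 + -1 * t by ext; ring, this]
  norm_num

lemma Sym0.ar_tri (hC : Sym0 C) {a b : Plane} (ha : a ∈ C) (hb : b ∈ C) :
    dt a b / 2 ≤ ar C a b := by
  rcases le_or_gt (dt a b) 0 with h | h
  · linarith [ar_nonneg (C := C) a b]
  have e : b 1 / dt a b * (a 0 / dt a b) - -b 0 / dt a b * (-a 1 / dt a b) = (dt a b)⁻¹ := by
    field_simp
    simp only [dt]; ring
  have hv : volume (co a b ⁻¹' regionBetween (fun _ : ℝ => (0 : ℝ)) (fun x => 1 - x) (Ioc 0 1)) =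
      ENNReal.ofReal (dt a b / 2) := by
    rw [co, volume_lin (by rw [e]; exact inv_ne_zero h.ne')
      (measurableSet_regionBetween measurable_const (by fun_prop) measurableSet_Ioc), e, inv_inv,
      abs_of_pos h, volume_std, ← ENNReal.ofReal_mul h.le, mul_one_div]
  refine (ENNReal.ofReal_le_iff_le_toReal (sect_ne_top hC.cpt a b)).1 ?_
  rw [← hv]
  refine measure_mono fun z hz => ?_
  obtain ⟨⟨k1, k2⟩, k3, k4⟩ := hz
  have ez := eq_co h.ne' z
  generalize (co a b z).1 = x at k1 k2 k4 ez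
  generalize (co a b z).2 = y at k3 k4 ez
  subst ez
  refine ⟨?_, ?_, ?_⟩
  · have := hC.g_comb k1.le k3.le (rfl : x • a + y • b = _)
    have h1 := hC.g_le.2 ha
    have h2 := hC.g_le.2 hb
    rw [← hC.g_le]
    nlinarith
  · rw [dt_add_right, dt_smul_right, dt_smul_right, dt_self, mul_zero, zero_add]
    exact mul_pos k3 h
  · rw [dt_add_left, dt_smul_left, dt_smul_left, dt_self, mul_zero, add_zero]
    exact (mul_pos k1 h).le

lemma Sym0.ar_cap (hC : Sym0 C) {d c v : Plane} (hd : gauge C d = 1) (hc : gauge C c = 1)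
    (h : 0 < dt d c) (hv : v ∈ C) : (dt d v + dt v c) / 2 ≤ ar C d c := by
  have md := hC.g_le.1 hd.le
  have mc := hC.g_le.1 hc.le
  have gv := hC.g_le.2 hv
  have t0 := hC.ar_tri md mc
  rcases lt_or_ge (dt d v) 0 with k1 | k1
  · rcases le_or_gt (dt v c) 0 with k2 | k2
    · linarith
    have k3 : 0 < dt v d := by rw [dt_swap]; linarith
    have := hC.g_comb (div_pos h k2).le (div_pos k3 k2).le (eq_comb k2.ne' d)
    rw [hd, hc, mul_one] at this
    have k4 : 1 ≤ (dt d c + dt v d) / dt v c := by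
      rw [add_div]; nlinarith [div_pos h k2]
    rw [one_le_div k2, dt_swap d v] at k4
    linarith
  rcases lt_or_ge (dt v c) 0 with k2 | k2
  · rcases k1.eq_or_lt with k1 | k1
    · linarith
    have k3 : 0 < dt c v := by rw [dt_swap]; linarith
    have := hC.g_comb (div_pos k3 k1).le (div_pos h k1).le (eq_comb k1.ne' c)
    rw [hd, hc, mul_one] at this
    have k4 : 1 ≤ (dt c v + dt d c) / dt d v := by
      rw [add_div]; nlinarith [div_pos h k1]
    rw [one_le_div k1, dt_swap v c] at k4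
    linarith
  by_cases h0 : v = 0
  · rw [h0, dt_zero_left, dt_zero_right]; linarith
  linarith [ar_split hC.cpt h k1 k2 h0, hC.ar_tri md hv, hC.ar_tri hv mc]

lemma Sym0.ar_piece (hC : Sym0 C) {c d c' v : Plane} (hc : gauge C c = 1) (hd : gauge C d = 1)
    (hc' : gauge C c' = 1) (h : 0 < dt c c') (h1 : 0 ≤ dt c d) (h2 : 0 ≤ dt d c') (hv : v ∈ C) :
    (dt c d + (dt d v + dt v c')) / 2 ≤ ar C c c' := by
  have hd0 : d ≠ 0 := fun e => by rw [e, gauge_zero] at hd; norm_num at hd
  have s := ar_split hC.cpt h h1 h2 hd0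
  have t := hC.ar_tri (hC.g_le.1 hc.le) (hC.g_le.1 hd.le)
  rcases h2.eq_or_lt with k | k
  · have e := eq_comb h.ne' d
    rw [← k, zero_div, zero_smul, zero_add] at e
    have g := hC.g_smul (dt c d / dt c c') c'
    rw [← e, hd, hc', mul_one, abs_of_nonneg (div_nonneg h1 h.le)] at g
    rw [← g, one_smul] at e
    have : dt d v + dt v c' = 0 := by rw [e, dt_swap]; ring
    linarith [ar_nonneg (C := C) d c']
  · linarith [hC.ar_cap hd hc' k hv]

/-- the area of the inscribed polygon with eighteen vertices -/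
lemma Sym0.area18 (hC : Sym0 C) {c0 c1 d0 d1 d2 v0 v1 v2 : Plane} (h0 : gauge C c0 = 1)
    (h1 : gauge C c1 = 1) (h2 : gauge C (c1 - c0) = 1) (g0 : gauge C d0 = 1) (g1 : gauge C d1 = 1)
    (g2 : gauge C d2 = 1) (hq : 0 < dt c0 c1) (o1 : 0 ≤ dt c0 d0) (o2 : 0 ≤ dt d0 c1)
    (o3 : 0 ≤ dt c1 d1) (o4 : 0 ≤ dt d1 (c1 - c0)) (o5 : 0 ≤ dt (c1 - c0) d2)
    (o6 : 0 ≤ dt d2 (-c0)) (m0 : v0 ∈ C) (m1 : v1 ∈ C) (m2 : v2 ∈ C) :
    (dt c0 d0 + (dt d0 v1 + dt v1 c1)) + (dt c1 d1 + (dt d1 v2 + dt v2 (c1 - c0))) +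
      (dt (c1 - c0) d2 + (dt d2 (-v0) + dt (-v0) (-c0))) ≤ (volume C).toReal := by
  have n : ∀ x y, dt (-x) (-y) = dt x y := fun x y => by rw [dt_neg_left, dt_neg_right, neg_neg]
  have ng : ∀ {x}, gauge C x = 1 → gauge C (-x) = 1 := fun h => by rw [hC.g_neg, h]
  have nz : ∀ {x}, gauge C x = 1 → x ≠ 0 := fun h e => by rw [e, gauge_zero] at h; norm_num at h
  have q1 : dt c1 (c1 - c0) = dt c0 c1 := by simp only [dt, PiLp.sub_apply]; ring
  have q2 : dt (c1 - c0) (-c0) = dt c0 c1 := by simp only [dt, PiLp.sub_apply, PiLp.neg_apply]; ring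
  have q3 : dt c0 (c1 - c0) = dt c0 c1 := by simp only [dt, PiLp.sub_apply]; ring
  have q4 : dt (c1 - c0) (-c1) = dt c0 c1 := by simp only [dt, PiLp.sub_apply, PiLp.neg_apply]; ring
  have q5 : dt (-c1) c0 = dt c0 c1 := by simp only [dt, PiLp.neg_apply]; ring
  have q6 : dt (-(c1 - c0)) c0 = dt c0 c1 := by
    simp only [dt, PiLp.sub_apply, PiLp.neg_apply]; ring
  have p1 := hC.ar_piece h0 g0 h1 hq o1 o2 m1
  have p2 := hC.ar_piece h1 g1 h2 (q1 ▸ hq) o3 o4 m2
  have p3 := hC.ar_piece h2 g2 (ng h0) (q2 ▸ hq) o5 o6 (hC.sym _ m0)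
  have p4 := hC.ar_piece (ng h0) (ng g0) (ng h1) (by rwa [n]) (by rwa [n]) (by rwa [n])
    (hC.sym _ m1)
  have p5 := hC.ar_piece (ng h1) (ng g1) (ng h2) (by rwa [n, q1]) (by rwa [n]) (by rwa [n])
    (hC.sym _ m2)
  have p6 := hC.ar_piece (ng h2) (ng g2) h0 (q6 ▸ hq) (by rwa [n])
    (by rwa [dt_neg_left, ← dt_neg_right]) m0
  have s1 := ar_split hC.cpt (q3 ▸ hq) hq.le (q1 ▸ hq.le) (nz h1)
  have s2 := ar_split hC.cpt (b := -c0) (q4 ▸ hq) (q2 ▸ hq.le) (by rw [n]; exact hq.le)
    (nz (ng h0))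
  have s3 := ar_split hC.cpt (b := -(c1 - c0)) (q5 ▸ hq) (by rw [n, q1]; exact hq.le)
    (q6 ▸ hq.le) (nz (ng h2))
  have s := ar_three hC.cpt c0 (c1 - c0) (-c1)
  simp only [n] at p4 p5 p6 ⊢
  rw [n] at p3
  rw [dt_neg_left d2, ← dt_neg_right d2] at p6
  linarith

/-- the order of the vertices of the two hexagons -/
lemma Sym0.coef (hC : Sym0 C) {a b : Plane} (ha : gauge C a = 1) (hb : gauge C b = 1)
    (h : gauge C (b - a) ≤ 1) {α β : ℝ} (hα : 0 ≤ α) (hβ : 0 ≤ β)
    (e1 : gauge C (β • b - α • a) = 1) (e2 : gauge C (β • b - α • a - a) = 1) :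
    α ≤ β ∧ β ≤ 1 + α ∧ 1 ≤ β := by
  have k1 := hC.g_comb (x := (1 + α) • a) (u := b) (v := -(β • b - α • a - a)) hβ zero_le_one
    (by module)
  have k2 := hC.g_comb (x := β • b) (u := β • b - α • a) (v := a) zero_le_one hα (by module)
  rw [hC.g_smul, hC.g_neg, ha, hb, e2, abs_of_nonneg (by linarith)] at k1
  rw [hC.g_smul, ha, hb, e1, abs_of_nonneg hβ] at k2
  have k3 := hC.g_comb (x := β • b - α • a) (u := b - a) (v := b) hα (b := β - α) (by linarith)
    (by module)
  rw [e1, hb] at k3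
  refine ⟨by linarith, by linarith, by nlinarith⟩

lemma Sym0.cross (hC : Sym0 C) {a b : Plane} (ha : gauge C a = 1) {α β γ ε : ℝ} (hα : 0 ≤ α)
    (hε : 0 ≤ ε) (h1 : α ≤ β) (h2 : 1 ≤ β) (h3 : ε ≤ γ)
    (e1 : gauge C (β • b - α • a) = 1) (e2 : gauge C (β • b - α • a - a) = 1)
    (e3 : gauge C (γ • a - ε • b) = 1) (e4 : gauge C (γ • a - ε • b - b) = 1) :
    α * (1 + ε) ≤ β * γ := by
  by_contra hn
  push Not at hn
  have hβ : 0 < β := by linarith
  have k1 := hC.hex_low e1 e2 (a := α * (1 + ε) - β * γ) (b := 1 + ε) (by linarith) (by linarith)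
  rw [show (α * (1 + ε) - β * γ) • a + (1 + ε) • (β • b - α • a) =
    -(β • (γ • a - ε • b - b)) by module, hC.g_neg, hC.g_smul, e4, abs_of_pos hβ] at k1
  have k0 : 0 ≤ β * γ - ε * α := by nlinarith
  have g : gauge C (-(β • (γ • a - ε • b))) = β := by
    rw [hC.g_neg, hC.g_smul, e3, abs_of_pos hβ, mul_one]
  rcases le_total ε (β * γ - ε * α) with k | k
  · have := hC.g_comb (x := -(β • (γ • a - ε • b))) (u := β • b - α • a - a) (v := -a) hε
      (b := β * γ - ε * α - ε) (by linarith) (by module)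
    rw [g, e2, hC.g_neg, ha] at this
    linarith
  · have := hC.g_comb (x := -(β • (γ • a - ε • b))) (u := β • b - α • a - a) (v := β • b - α • a)
      k0 (b := ε - (β * γ - ε * α)) (by linarith) (by module)
    rw [g, e2, e1] at this
    linarith

/-- two inscribed affinely regular hexagons whose determinants are small on average -/
theorem Sym0.harm (hC : Sym0 C) {u v t : Plane} (hu : u ∈ C) (hv : v ∈ C) (ht : t ∈ C)
    (h : 0 < hform u v t) : ∃ x y : Plane, gauge C x = 1 ∧ gauge C y = 1 ∧ gauge C (y - x) = 1 ∧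
      0 < dt x y ∧ hform u v t + 4 * dt x y ≤ 2 * (volume C).toReal := by
  have hn : (1 / 2 : ℝ) • (t - u) ≠ 0 := by
    intro e
    have : t = u := sub_eq_zero.1 ((smul_eq_zero.1 e).resolve_left (by norm_num))
    rw [this, hform, dt_self, dt_swap u v] at h
    linarith
  have gn : gauge C ((1 / 2 : ℝ) • (t - u)) ≤ 1 := by
    have := hC.g_comb (x := (1 / 2 : ℝ) • (t - u)) (u := t) (v := -u) (a := 1 / 2) (b := 1 / 2)
      (by norm_num) (by norm_num) (by module)
    rw [hC.g_neg] at this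
    linarith [hC.g_le.2 hu, hC.g_le.2 ht]
  obtain ⟨a, b, ha, hb, hab, hd⟩ : ∃ a b : Plane, gauge C a = 1 ∧ gauge C b = 1 ∧
      b - a = (1 / 2 : ℝ) • (t - u) ∧ 0 < dt a b := by
    obtain ⟨y, y1, y2, y3⟩ := hC.iso hn (r := 1) (by linarith)
    refine ⟨-y, -(y - (1 / 2 : ℝ) • (t - u)), by rw [hC.g_neg, y1], by rw [hC.g_neg, y2], by abel, ?_⟩
    rw [dt_neg_left, dt_neg_right, neg_neg, dt_sub_right, dt_self, dt_swap, zero_sub, neg_neg]
    refine y3.lt_of_ne fun e => ?_
    obtain ⟨s, hs⟩ := exists_smul_of_dt hn e.symm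
    generalize (1 / 2 : ℝ) • (t - u) = n at *
    rw [hs, show s • n - n = (s - 1) • n by module, hC.g_smul] at y2
    rw [hs, hC.g_smul] at y1
    have k1 : 1 ≤ |s| := by nlinarith [abs_nonneg s]
    have k2 : |s| = |s - 1| := mul_right_cancel₀ (hC.g_pos hn).ne' (y1.trans y2.symm)
    have k3 : s = 1 / 2 := by
      rcases abs_eq_abs.1 k2 with k | k <;> linarith
    rw [k3, abs_of_pos (by norm_num)] at k1
    norm_num at k1
  rw [← hab] at gn
  have gn' : gauge C (a - b) ≤ 1 := by rwa [hC.g_sub_comm]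
  obtain ⟨α, β, hα, hβ, e1, e2⟩ := hC.arc ha hb hd.ne' gn
  obtain ⟨ε, γ, hε, hγ, e3, e4⟩ := hC.arc hb ha (by rw [dt_swap]; linarith) gn'
  obtain ⟨c1, c2, c3⟩ := hC.coef ha hb gn hα hβ e1 e2
  obtain ⟨c4, c5, c6⟩ := hC.coef hb ha gn' hε hγ e3 e4
  have x1 := hC.cross ha hα hε c1 c3 c4 e1 e2 e3 e4
  have x2 := hC.cross hb hε hα c4 c6 c1 e3 e4 e1 e2
  have e4' : gauge C (b - (γ • a - ε • b)) = 1 := by rwa [hC.g_sub_comm]
  have et : t = u + (2 : ℝ) • (b - a) := by rw [hab]; module
  have ex : ∀ p q r s : ℝ, dt (p • a + q • b) (r • a + s • b) = (p * s - q * r) * dt a b := by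
    intro p q r s
    simp only [dt, PiLp.add_apply, PiLp.smul_apply, smul_eq_mul]; ring
  have pos : ∀ {x y : Plane} (p q r s : ℝ), x = p • a + q • b → y = r • a + s • b →
      0 ≤ p * s - q * r → 0 ≤ dt x y := fun p q r s hx hy k => by
    rw [hx, hy, ex]; exact mul_nonneg k hd.le
  have qC : dt (γ • a - ε • b) b = γ * dt a b := by
    rw [dt_sub_left, dt_smul_left, dt_smul_left, dt_self]; ring
  have qD : dt a (β • b - α • a) = β * dt a b := by
    rw [dt_sub_right, dt_smul_right, dt_smul_right, dt_self]; ring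
  have A := hC.area18 e3 hb e4' ha e1 e2 (by rw [qC]; positivity)
    (pos γ (-ε) 1 0 (by module) (by module) (by linarith)) hd.le
    (pos 0 1 (-α) β (by module) (by module) (by linarith))
    (pos (-α) β (-γ) (1 + ε) (by module) (by module) (by linarith))
    (pos (-γ) (1 + ε) (-(1 + α)) β (by module) (by module) (by nlinarith))
    (pos (-(1 + α)) β (-γ) ε (by module) (by module) (by linarith)) hu hv ht
  have id : 2 * ((dt (γ • a - ε • b) a + (dt a v + dt v b)) + (dt b (β • b - α • a) +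
      (dt (β • b - α • a) t + dt t (b - (γ • a - ε • b)))) +
      (dt (b - (γ • a - ε • b)) (β • b - α • a - a) + (dt (β • b - α • a - a) (-u) +
        dt (-u) (-(γ • a - ε • b))))) = hform u v t + 2 * (γ * dt a b) + 2 * (β * dt a b) +
        2 * ((ε * α - (γ - 1) * (β - 1)) * dt a b) := by
    rw [et]
    simp only [hform, dt, PiLp.add_apply, PiLp.sub_apply, PiLp.neg_apply, PiLp.smul_apply,
      smul_eq_mul]
    ring
  have nn : 0 ≤ (ε * α - (γ - 1) * (β - 1)) * dt a b := mul_nonneg (by nlinarith) hd.le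
  rcases le_total (γ * dt a b) (β * dt a b) with k | k
  · exact ⟨_, _, e3, hb, e4', by rw [qC]; positivity, by rw [qC]; linarith⟩
  · exact ⟨_, _, ha, e1, e2, by rw [qD]; positivity, by rw [qD]; linarith⟩

theorem harm_bound (h1 : IsConvexBody C) (h2 : IsCentrallySymmetric C) :
    1 / packingDensity C + 1 / latticeCoveringDensity C ≤ 2 := by
  obtain ⟨k1, k2, k3, -⟩ := main_bound h1 h2 le_rfl (by positivity : (0 : ℝ) ≤ π / 6)
  obtain ⟨c, C0, hC, rfl⟩ := exists_sym0 h1 h2
  obtain ⟨u, hu, v, hv, t, ht, -, -, -, hd, hmax⟩ := hC.exists_max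
  obtain ⟨x, y, gx, gy, gxy, hq, hle⟩ := hC.harm hu hv ht hd
  have hA := hC.area_pos
  have l1 := hC.le_pd_hex gx gy gxy hq
  have l2 := hC.le_ld c hmax
  rw [← pd_image (IsometryEquiv.addLeft c)] at l1
  have k4 := k2.trans_le k3
  have m1 : (volume C0).toReal / (4 * dt x y) ≤ packingDensity (IsometryEquiv.addLeft c '' C0) :=
    (ENNReal.ofReal_le_iff_le_toReal (ENNReal.toReal_pos_iff.1 k1).2.ne).1 l1
  have m2 : (volume C0).toReal / hform u v t ≤
      latticeCoveringDensity (IsometryEquiv.addLeft c '' C0) :=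
    (ENNReal.ofReal_le_iff_le_toReal (ENNReal.toReal_pos_iff.1 k4).2.ne).1 l2
  have n1 := one_div_le_one_div_of_le (by positivity) m1
  have n2 := one_div_le_one_div_of_le (by positivity) m2
  rw [one_div_div] at n1 n2
  have : 4 * dt x y / (volume C0).toReal + hform u v t / (volume C0).toReal ≤ 2 := by
    rw [← add_div, div_le_iff₀ hA]; linarith
  linarith

end Pool.Agent.Lib.MP_fb520c_co
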