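import Pool.Agent.Lib.MP_fb520c_co.Cap

/-! The norm of a symmetric body, chords, inscribed affinely regular hexagons, and the two
lattice density bounds. -/

set_option autoImplicit false

open MeasureTheory Set Real Filter Topology Metric
open scoped ENNReal

noncomputable section

namespace Pool.Agent.Lib.MP_fb520c_co

variable {C : Set Plane}

lemma Sym0.nhds (hC : Sym0 C) : C ∈ 𝓝 (0 : Plane) := by
  obtain ⟨ε, h, h'⟩ := hC.int
  exact mem_of_superset (closedBall_mem_nhds _ h) h'

lemma Sym0.g_add (hC : Sym0 C) (x y : Plane) : gauge C (x + y) ≤ gauge C x + gauge C y :=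
  gauge_add_le hC.cvx (absorbent_nhds_zero hC.nhds) x y

lemma Sym0.g_neg (hC : Sym0 C) (x : Plane) : gauge C (-x) = gauge C x := gauge_neg hC.sym x

lemma Sym0.g_smul (hC : Sym0 C) (a : ℝ) (x : Plane) : gauge C (a • x) = |a| * gauge C x := by
  rcases le_total 0 a with h | h
  · rw [gauge_smul_of_nonneg h, abs_of_nonneg h, smul_eq_mul]
  · rw [← hC.g_neg, ← neg_smul, gauge_smul_of_nonneg (neg_nonneg.2 h), abs_of_nonpos h,
      smul_eq_mul]

lemma Sym0.g_le (hC : Sym0 C) {x : Plane} : gauge C x ≤ 1 ↔ x ∈ C := by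
  rw [gauge_le_one_iff_mem_closure hC.cvx hC.nhds, hC.cpt.isClosed.closure_eq]

lemma Sym0.g_cont (hC : Sym0 C) : Continuous (gauge C) := continuous_gauge hC.cvx hC.nhds

lemma Sym0.g_pos (hC : Sym0 C) {x : Plane} (hx : x ≠ 0) : 0 < gauge C x :=
  (gauge_pos (absorbent_nhds_zero hC.nhds)
    ((NormedSpace.isVonNBounded_iff ℝ).2 hC.cpt.isBounded)).2 hx

lemma Sym0.g_sub_comm (hC : Sym0 C) (x y : Plane) : gauge C (x - y) = gauge C (y - x) := by
  rw [← hC.g_neg, neg_sub]

/-- the basic estimate for a combination of two vectors with nonnegative coefficients -/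
lemma Sym0.g_comb (hC : Sym0 C) {x u v : Plane} {a b : ℝ} (ha : 0 ≤ a) (hb : 0 ≤ b)
    (e : x = a • u + b • v) : gauge C x ≤ a * gauge C u + b * gauge C v := by
  have := hC.g_add (a • u) (b • v)
  rwa [hC.g_smul, hC.g_smul, abs_of_nonneg ha, abs_of_nonneg hb, ← e] at this

lemma dt_add_left (a b c : Plane) : dt (a + b) c = dt a c + dt b c := by simp [dt]; ring
lemma dt_add_right (a b c : Plane) : dt a (b + c) = dt a b + dt a c := by simp [dt]; ring
lemma dt_sub_left (a b c : Plane) : dt (a - b) c = dt a c - dt b c := by simp [dt]; ring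
lemma dt_sub_right (a b c : Plane) : dt a (b - c) = dt a b - dt a c := by simp [dt]; ring
lemma dt_neg_left (a b : Plane) : dt (-a) b = -dt a b := by simp [dt]; ring
lemma dt_neg_right (a b : Plane) : dt a (-b) = -dt a b := by simp [dt]; ring
lemma dt_smul_left (s : ℝ) (a b : Plane) : dt (s • a) b = s * dt a b := by simp [dt]; ring
lemma dt_smul_right (s : ℝ) (a b : Plane) : dt a (s • b) = s * dt a b := by simp [dt]; ring
lemma dt_self (a : Plane) : dt a a = 0 := by simp [dt]; ring
lemma dt_swap (a b : Plane) : dt b a = -dt a b := by simp [dt]; ring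
lemma dt_zero_left (a : Plane) : dt 0 a = 0 := by simp [dt]
lemma dt_zero_right (a : Plane) : dt a 0 = 0 := by simp [dt]

lemma eq_comb {a c : Plane} (h : dt a c ≠ 0) (b : Plane) :
    b = (dt b c / dt a c) • a + (dt a b / dt a c) • c := by
  refine plane_ext ?_ ?_ <;> simp only [PiLp.add_apply, PiLp.smul_apply, smul_eq_mul] <;>
    field_simp <;> simp only [dt] <;> ring

lemma exists_smul_of_dt {p y : Plane} (hp : p ≠ 0) (h : dt p y = 0) : ∃ t : ℝ, y = t • p := by
  have h0 : p 0 ^ 2 + p 1 ^ 2 ≠ 0 := by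
    rw [← norm_sq_eq]; exact pow_ne_zero _ (norm_ne_zero_iff.2 hp)
  refine ⟨(p 0 * y 0 + p 1 * y 1) / (p 0 ^ 2 + p 1 ^ 2), plane_ext ?_ ?_⟩ <;>
    simp only [PiLp.smul_apply, smul_eq_mul] <;> field_simp <;> simp only [dt] at h
  · linear_combination (-p 1) * h
  · linear_combination (p 0) * h

/-- the intermediate value theorem along a path of directions -/
lemma Sym0.ivt (hC : Sym0 C) {w : ℝ → Plane} (hw : Continuous w) (h0 : ∀ s ∈ Icc (0 : ℝ) 1, w s ≠ 0)
    {r : ℝ} (hr : 0 ≤ r) (p : Plane) (h1 : gauge C ((r / gauge C (w 0)) • w 0 - p) ≤ r)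
    (h2 : r ≤ gauge C ((r / gauge C (w 1)) • w 1 - p)) :
    ∃ s ∈ Icc (0 : ℝ) 1, gauge C ((r / gauge C (w s)) • w s) = r ∧
      gauge C ((r / gauge C (w s)) • w s - p) = r := by
  have hc : ContinuousOn (fun s => gauge C ((r / gauge C (w s)) • w s - p)) (Icc 0 1) := by
    refine hC.g_cont.comp_continuousOn (ContinuousOn.sub (ContinuousOn.smul
      (continuousOn_const.div (hC.g_cont.comp hw).continuousOn fun s hs =>
        (hC.g_pos (h0 s hs)).ne') hw.continuousOn) continuousOn_const)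
  obtain ⟨s, hs, e⟩ := intermediate_value_Icc zero_le_one hc ⟨h1, h2⟩
  refine ⟨s, hs, ?_, e⟩
  have := hC.g_pos (h0 s hs)
  rw [hC.g_smul, abs_of_nonneg (by positivity), div_mul_cancel₀ _ this.ne']

/-- isosceles triangles with a given base -/
lemma Sym0.iso (hC : Sym0 C) {p : Plane} (hp : p ≠ 0) {r : ℝ} (h : gauge C p ≤ 2 * r) :
    ∃ y, gauge C y = r ∧ gauge C (y - p) = r ∧ 0 ≤ dt p y := by
  have hg := hC.g_pos hp
  have hr : 0 < r := by linarith
  let q : Plane := pt (-p 1) (p 0)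
  have hq : dt p q = ‖p‖ ^ 2 := by rw [norm_sq_eq]; simp [dt, q]; ring
  have hq' : 0 < dt p q := by rw [hq]; exact pow_pos (norm_pos_iff.2 hp) 2
  have hd : ∀ s : ℝ, dt p ((1 - 2 * s) • p + (s * (1 - s)) • q) = s * (1 - s) * dt p q := by
    intro s; rw [dt_add_right, dt_smul_right, dt_smul_right, dt_self]; ring
  obtain ⟨s, hs, e1, e2⟩ := hC.ivt (w := fun s => (1 - 2 * s) • p + (s * (1 - s)) • q)
    (by fun_prop) (fun s _ e => by
      have k := hd s
      rw [e, dt_zero_right] at k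
      have k' : s * (1 - s) = 0 := by
        rcases mul_eq_zero.1 k.symm with k | k
        · exact k
        · exact absurd k hq'.ne'
      rw [k', zero_smul, add_zero, smul_eq_zero] at e
      rcases e with e | e
      · have : s = 1 / 2 := by linarith
        rw [this] at k'; norm_num at k'
      · exact hp e) hr.le p (by
      have : (r / gauge C ((1 - 2 * (0 : ℝ)) • p + (0 * (1 - 0 : ℝ)) • q)) •
          ((1 - 2 * (0 : ℝ)) • p + (0 * (1 - 0 : ℝ)) • q) - p = (r / gauge C p - 1) • p := by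
        simp [sub_smul]
      rw [this, hC.g_smul, ← abs_of_pos hg, ← abs_mul, abs_of_pos hg, sub_mul,
        div_mul_cancel₀ _ hg.ne', abs_le]
      constructor <;> linarith) (by
      have : (r / gauge C ((1 - 2 * (1 : ℝ)) • p + (1 * (1 - 1 : ℝ)) • q)) •
          ((1 - 2 * (1 : ℝ)) • p + (1 * (1 - 1 : ℝ)) • q) - p = -((r / gauge C p + 1) • p) := by
        rw [show (1 - 2 * (1 : ℝ)) • p + (1 * (1 - 1 : ℝ)) • q = -p by norm_num, hC.g_neg]
        module
      rw [this, hC.g_neg, hC.g_smul, abs_of_nonneg (by positivity), add_mul,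
        div_mul_cancel₀ _ hg.ne']
      linarith)
  refine ⟨_, e1, e2, ?_⟩
  rw [dt_smul_right, hd]
  exact mul_nonneg (div_nonneg hr.le (gauge_nonneg _))
    (mul_nonneg (mul_nonneg hs.1 (by linarith [hs.2])) hq'.le)

/-- the next vertex of an inscribed affinely regular hexagon, on the arc from `b` to `-a` -/
lemma Sym0.arc (hC : Sym0 C) {a b : Plane} (ha : gauge C a = 1) (hb : gauge C b = 1)
    (hd : dt a b ≠ 0) (h : gauge C (b - a) ≤ 1) : ∃ α β : ℝ, 0 ≤ α ∧ 0 ≤ β ∧
      gauge C (β • b - α • a) = 1 ∧ gauge C (β • b - α • a - a) = 1 := by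
  obtain ⟨s, hs, e1, e2⟩ := hC.ivt (w := fun s => (1 - s) • b - s • a) (by fun_prop)
    (fun s _ e => by
      have k1 := congrArg (dt a) e
      have k2 := congrArg (dt b) e
      rw [dt_sub_right, dt_smul_right, dt_smul_right, dt_self, dt_zero_right] at k1 k2
      rw [dt_swap] at k2
      exact hd (by linarith)) zero_le_one a (by simpa [hb] using h) (by
      have : (1 / gauge C ((1 - (1 : ℝ)) • b - (1 : ℝ) • a)) • ((1 - (1 : ℝ)) • b - (1 : ℝ) • a) - a =
          -((2 : ℝ) • a) := by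
        rw [show (1 - (1 : ℝ)) • b - (1 : ℝ) • a = -a by simp, hC.g_neg, ha]
        module
      rw [this, hC.g_neg, hC.g_smul, ha]
      norm_num)
  have hg := gauge_nonneg (s := C) ((1 - s) • b - s • a)
  refine ⟨1 / gauge C ((1 - s) • b - s • a) * s, 1 / gauge C ((1 - s) • b - s • a) * (1 - s),
    mul_nonneg (by positivity) hs.1, mul_nonneg (by positivity) (by linarith [hs.2]), ?_, ?_⟩
  · rwa [mul_smul, mul_smul, ← smul_sub]
  · rwa [mul_smul, mul_smul, ← smul_sub]

/-- lower bound for the norm in the sector spanned by two consecutive vertices -/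
lemma Sym0.hex_low (hC : Sym0 C) {x y : Plane} (hy : gauge C y = 1) (hxy : gauge C (y - x) = 1)
    {a b : ℝ} (ha : 0 ≤ a) (hb : 0 ≤ b) : b ≤ gauge C (a • x + b • y) := by
  have := hC.g_comb (x := (a + b) • y) (u := a • x + b • y) (v := y - x) zero_le_one ha
    (by module)
  rw [hC.g_smul, abs_of_nonneg (by linarith), hy, hxy] at this
  linarith

lemma Sym0.lat_low (hC : Sym0 C) {x y : Plane} (hx : gauge C x = 1) (hy : gauge C y = 1)
    (hxy : gauge C (y - x) = 1) {m n : ℤ} (h : (m, n) ≠ (0, 0)) :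
    1 ≤ gauge C ((m : ℝ) • x + (n : ℝ) • y) := by
  have hyx : gauge C (x - y) = 1 := by rw [hC.g_sub_comm, hxy]
  have key : ∀ m n : ℤ, 0 < n → 1 ≤ gauge C ((m : ℝ) • x + (n : ℝ) • y) := by
    intro m n hn
    have hn' : (1 : ℝ) ≤ n := by exact_mod_cast hn
    rcases le_or_gt 0 m with hm | hm
    · exact hn'.trans (hC.hex_low hy hxy (by exact_mod_cast hm) (by linarith))
    have hm' : (m : ℝ) ≤ -1 := by exact_mod_cast (by omega : m ≤ -1)
    rcases le_total 0 ((m : ℝ) + n) with k | k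
    · have := hC.hex_low (x := y) (y := y - x) hxy (by rw [sub_sub_cancel_left, hC.g_neg, hx]) k
        (b := -m) (by linarith)
      rw [show ((m : ℝ) + n) • y + (-(m : ℝ)) • (y - x) = (m : ℝ) • x + (n : ℝ) • y by module] at this
      linarith
    · have := hC.hex_low (x := -x) (y := y - x) hxy (by rw [sub_neg_eq_add, sub_add_cancel, hy])
        (a := -((m : ℝ) + n)) (by linarith) (b := n) (by linarith)
      rw [show (-((m : ℝ) + n)) • (-x) + (n : ℝ) • (y - x) = (m : ℝ) • x + (n : ℝ) • y by module]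
        at this
      linarith
  rcases lt_trichotomy n 0 with k | k | k
  · have := key (-m) (-n) (by omega)
    rwa [← hC.g_neg, show -((((-m : ℤ) : ℝ)) • x + ((-n : ℤ) : ℝ) • y) = (m : ℝ) • x + (n : ℝ) • y by
      push_cast; module] at this
  · have hm : m ≠ 0 := fun e => h (by rw [e, k])
    rw [k, Int.cast_zero, zero_smul, add_zero, hC.g_smul, hx, mul_one]
    exact_mod_cast Int.one_le_abs hm
  · exact key m n k

lemma tr_inj {p q : Plane} (hd : dt p q ≠ 0) (hC : IsCompact C) (hne : C.Nonempty) :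
    Function.Injective (tr p q C) := by
  rintro ⟨m, n⟩ ⟨m', n'⟩ e
  have key : ∀ f : Plane → ℝ, Continuous f → (∀ a b, f (a + b) = f a + f b) →
      f (lp p q (m, n)) = f (lp p q (m', n')) := by
    intro f hf hadd
    obtain ⟨x, hx, hmax⟩ := hC.exists_isMaxOn hne hf.continuousOn
    have k : ∀ k k' : ℤ × ℤ, tr p q C k = tr p q C k' → f (lp p q k) ≤ f (lp p q k') := by
      intro k k' e
      obtain ⟨y, hy, e'⟩ : lp p q k + x ∈ tr p q C k' := e ▸ ⟨x, hx, rfl⟩
      have h1 := congrArg f e'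
      simp only [hadd] at h1
      have h2 : f y ≤ f x := hmax hy
      linarith
    exact le_antisymm (k _ _ e) (k _ _ e.symm)
  have k1 := key (fun z => dt z q) (by unfold dt; fun_prop) fun a b => dt_add_left a b q
  have k2 := key (dt p) (by unfold dt; fun_prop) (dt_add_right p)
  simp only [lp, dt_add_left, dt_add_right, dt_smul_left, dt_smul_right, dt_self, mul_zero,
    add_zero, zero_add] at k1 k2
  exact Prod.ext (by exact_mod_cast mul_right_cancel₀ hd k1)
    (by exact_mod_cast mul_right_cancel₀ hd k2)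

/-- an inscribed affinely regular hexagon gives a lattice packing -/
lemma Sym0.le_pd_hex (hC : Sym0 C) {x y : Plane} (hx : gauge C x = 1) (hy : gauge C y = 1)
    (hxy : gauge C (y - x) = 1) (hd : 0 < dt x y) :
    ENNReal.ofReal ((volume C).toReal / (4 * dt x y)) ≤ pd C := by
  have e : dt ((2 : ℝ) • x) ((2 : ℝ) • y) = 4 * dt x y := by rw [dt_smul_left, dt_smul_right]; ring
  have hd' : 0 < dt ((2 : ℝ) • x) ((2 : ℝ) • y) := by rw [e]; positivity
  have hin : ∀ k z, z ∈ interior (tr ((2 : ℝ) • x) ((2 : ℝ) • y) C k) →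
      gauge C (z - lp ((2 : ℝ) • x) ((2 : ℝ) • y) k) < 1 := by
    intro k z hz
    rw [tr_eq, ← IsometryEquiv.coe_toHomeomorph, ← Homeomorph.image_interior] at hz
    obtain ⟨u, hu, rfl⟩ := hz
    have : gauge C u < 1 := interior_subset_gauge_lt_one C hu
    simpa using this
  rw [← e]
  refine (lat_lower hd' hC.cpt (tr_inj hd'.ne' hC.cpt hC.ne)).trans ((lower_le_upper _).trans
    (le_iSup₂ (f := fun 𝒜 (_ : IsCongruentFamily C 𝒜 ∧ IsPacking 𝒜) => upperDensity 𝒜) _
      ⟨lat_congr _ _ C, fun A hA B hB hAB => ?_⟩))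
  obtain ⟨⟨m, n⟩, rfl⟩ := mem_lat.1 hA
  obtain ⟨⟨m', n'⟩, rfl⟩ := mem_lat.1 hB
  refine Set.disjoint_left.2 fun z h1 h2 => ?_
  have k1 := hin _ z h1
  have k2 := hin _ z h2
  have k3 := hC.lat_low hx hy hxy (m := m' - m) (n := n' - n) fun e => hAB (by
    rw [Prod.mk.injEq] at e
    rw [show m = m' by omega, show n = n' by omega])
  have k4 := hC.g_comb (x := ((m' - m : ℤ) : ℝ) • x + ((n' - n : ℤ) : ℝ) • y)
    (u := z - lp ((2 : ℝ) • x) ((2 : ℝ) • y) (m, n))
    (v := -(z - lp ((2 : ℝ) • x) ((2 : ℝ) • y) (m', n'))) (a := 1 / 2) (b := 1 / 2) (by norm_num)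
    (by norm_num) (by simp only [lp]; push_cast; module)
  rw [hC.g_neg] at k4
  linarith

/-- a lattice covering has determinant at most the largest area of an inscribed symmetric hexagon -/
lemma Sym0.dt_le (hC : Sym0 C) {h : ℝ} (hh : ∀ u ∈ C, ∀ v ∈ C, ∀ t ∈ C, hform u v t ≤ h)
    {p q : Plane} (hd : 0 < dt p q) (hcov : ∀ z, ∃ k, z - lp p q k ∈ C) : dt p q ≤ h := by
  classical
  have hz : ∀ k : ℤ × ℤ, lp p q k = 0 → k = (0, 0) := by
    rintro ⟨m, n⟩ e
    have k1 := congrArg (fun z => dt z q) e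
    have k2 := congrArg (dt p) e
    simp only [lp, dt_add_left, dt_add_right, dt_smul_left, dt_smul_right, dt_self, mul_zero,
      add_zero, zero_add, dt_zero_left, dt_zero_right, mul_eq_zero, hd.ne', or_false,
      Int.cast_eq_zero] at k1 k2
    rw [k1, k2]
  have hdt : ∀ k k' : ℤ × ℤ, dt (lp p q k) (lp p q k') =
      ((k.1 * k'.2 - k.2 * k'.1 : ℤ) : ℝ) * dt p q := by
    intro k k'
    simp only [lp, dt_add_left, dt_add_right, dt_smul_left, dt_smul_right, dt_self, dt_swap p q]
    push_cast; ring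
  have hp : p ≠ 0 := fun e => by rw [e, dt_zero_left] at hd; exact lt_irrefl _ hd
  have key : ∀ r : ℝ, 1 < r → dt p q ≤ r ^ 2 * h := by
    intro r hr
    have hex : ∃ N : ℕ, ∃ k : ℤ × ℤ, k ≠ (0, 0) ∧ gauge C (lp p q k) ≤ 2 * r ∧
        k.1.natAbs + k.2.natAbs = N := by
      have hg := hC.g_pos hp
      obtain ⟨k, hk⟩ := hcov ((r / gauge C p) • p)
      have e : gauge C ((r / gauge C p) • p) = r := by
        rw [hC.g_smul, abs_of_nonneg (by positivity), div_mul_cancel₀ _ hg.ne']
      rw [← hC.g_le] at hk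
      refine ⟨_, k, fun e' => ?_, ?_, rfl⟩
      · rw [e', show lp p q (0, 0) = 0 by simp [lp], sub_zero, e] at hk
        linarith
      · have := hC.g_comb (x := lp p q k) (u := (r / gauge C p) • p)
          (v := -((r / gauge C p) • p - lp p q k)) zero_le_one zero_le_one (by module)
        rw [hC.g_neg, e] at this
        linarith
    obtain ⟨k, hk0, hk, hN⟩ := Nat.find_spec hex
    have hmin : ∀ k' : ℤ × ℤ, k' ≠ (0, 0) → gauge C (lp p q k') ≤ 2 * r →
        k.1.natAbs + k.2.natAbs ≤ k'.1.natAbs + k'.2.natAbs := fun k' a b => by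
      rw [hN]; exact Nat.find_min' hex ⟨k', a, b, rfl⟩
    have hP : lp p q k ≠ 0 := fun e => hk0 (hz k e)
    obtain ⟨y, y1, y2, -⟩ := hC.iso hP hk
    obtain ⟨l, hl⟩ := hcov y
    have hl' := hC.g_le.2 hl
    have hne : dt (lp p q k) (lp p q l) ≠ 0 := by
      intro e
      obtain ⟨t, ht⟩ := exists_smul_of_dt hP e
      rcases le_or_gt t 0 with t0 | t0
      · have := hC.g_comb (x := (1 - t) • y) (u := y - lp p q l) (v := y - lp p q k) zero_le_one
          (b := -t) (by linarith) (by rw [ht]; module)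
        rw [hC.g_smul, y1, y2, abs_of_nonneg (by linarith)] at this
        linarith
      rcases le_or_gt 1 t with t1 | t1
      · have := hC.g_comb (x := t • (y - lp p q k)) (u := y - lp p q l) (v := y) zero_le_one
          (b := t - 1) (by linarith) (by rw [ht]; module)
        rw [hC.g_smul, y1, y2, abs_of_nonneg (by linarith)] at this
        linarith
      have a1 := congrArg (fun z => dt z q) ht
      have a2 := congrArg (dt p) ht
      simp only [lp, dt_add_left, dt_add_right, dt_smul_left, dt_smul_right, dt_self, mul_zero,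
        add_zero, zero_add, ← mul_assoc] at a1 a2
      have b1 := mul_right_cancel₀ hd.ne' a1
      have b2 := mul_right_cancel₀ hd.ne' a2
      have hl0 : l ≠ (0, 0) := fun e => by
        rw [e, show lp p q (0, 0) = 0 by simp [lp]] at ht
        exact hP ((smul_eq_zero.1 ht.symm).resolve_left t0.ne')
      have := hmin l hl0 (by
        rw [ht, hC.g_smul, abs_of_pos t0]
        nlinarith [gauge_nonneg (s := C) (lp p q k)])
      have c0 : ((k.1.natAbs + k.2.natAbs : ℕ) : ℝ) ≤ ((l.1.natAbs + l.2.natAbs : ℕ) : ℝ) := by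
        exact_mod_cast this
      have c1 : (0 : ℝ) < ((k.1.natAbs + k.2.natAbs : ℕ) : ℝ) := by
        have : 0 < k.1.natAbs + k.2.natAbs := by
          by_contra hc
          exact hk0 (Prod.ext (by simp only; omega) (by simp only; omega))
        exact_mod_cast this
      simp only [Nat.cast_add, Nat.cast_natAbs, Int.cast_abs] at c0 c1
      rw [b1, b2, abs_mul, abs_mul, abs_of_pos t0] at c0
      nlinarith
    have hr0 : 0 < r := by linarith
    have mem : ∀ z, gauge C z ≤ r → r⁻¹ • z ∈ C := fun z hz => by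
      rw [← hC.g_le, hC.g_smul, abs_of_pos (inv_pos.2 hr0), inv_mul_le_iff₀ hr0]; linarith
    have m1 := mem y y1.le
    have m2 := hC.sym _ (mem _ y2.le)
    have m3 := mem (y - lp p q l) (by linarith)
    have f1 := hh _ m1 _ m2 _ m3
    have f2 := hh _ m3 _ m2 _ m1
    rw [← dt_hform] at f1 f2
    rw [show r⁻¹ • y + -(r⁻¹ • (y - lp p q k)) = r⁻¹ • lp p q k by module,
      show -(r⁻¹ • (y - lp p q k)) + r⁻¹ • (y - lp p q l) = r⁻¹ • (lp p q k - lp p q l) by module,
      dt_smul_left, dt_smul_right, dt_sub_right, dt_self] at f1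
    rw [show r⁻¹ • (y - lp p q l) + -(r⁻¹ • (y - lp p q k)) = r⁻¹ • (lp p q k - lp p q l) by module,
      show -(r⁻¹ • (y - lp p q k)) + r⁻¹ • y = r⁻¹ • lp p q k by module,
      dt_smul_left, dt_smul_right, dt_sub_left, dt_self, dt_swap] at f2
    have g : |dt (lp p q k) (lp p q l)| ≤ r ^ 2 * h := by
      rw [← inv_mul_le_iff₀ (by positivity), ← abs_of_pos (inv_pos.2 (pow_pos hr0 2)), ← abs_mul,
        abs_le, ← inv_pow]
      constructor <;> nlinarith
    refine le_trans ?_ g
    rw [hdt] at hne ⊢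
    rw [abs_mul, abs_of_pos hd]
    have : (1 : ℝ) ≤ |((k.1 * l.2 - k.2 * l.1 : ℤ) : ℝ)| := by
      exact_mod_cast Int.one_le_abs fun e => hne (by rw [e]; simp)
    nlinarith
  have lim : Tendsto (fun r : ℝ => r ^ 2 * h) (𝓝[>] 1) (𝓝 (1 ^ 2 * h)) :=
    tendsto_nhdsWithin_of_tendsto_nhds (Continuous.tendsto (by fun_prop) 1)
  rw [one_pow, one_mul] at lim
  exact ge_of_tendsto lim (eventually_nhdsWithin_of_forall key)

lemma Sym0.le_ld (hC : Sym0 C) (c : Plane) {h : ℝ}
    (hh : ∀ u ∈ C, ∀ v ∈ C, ∀ t ∈ C, hform u v t ≤ h) :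
    ENNReal.ofReal ((volume C).toReal / h) ≤ ld (IsometryEquiv.addLeft c '' C) := by
  have key : ∀ p q : Plane, 0 < dt p q → IsCovering (lat p q (IsometryEquiv.addLeft c '' C)) →
      ENNReal.ofReal ((volume C).toReal / h) ≤
        lowerDensity (lat p q (IsometryEquiv.addLeft c '' C)) := by
    intro p q hd hcov
    have hK := hC.cpt.image (IsometryEquiv.addLeft c).continuous
    refine le_trans (ENNReal.ofReal_le_ofReal ?_)
      (lat_lower hd hK (tr_inj hd.ne' hK (hC.ne.image _)))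
    rw [volume_isometry_image _ hC.cpt.measurableSet]
    refine div_le_div_of_nonneg_left hC.area_pos.le hd (hC.dt_le hh hd fun z => ?_)
    obtain ⟨A, hA, hz⟩ : c + z ∈ ⋃₀ lat p q (IsometryEquiv.addLeft c '' C) := by
      rw [hcov]; trivial
    obtain ⟨k, rfl⟩ := mem_lat.1 hA
    obtain ⟨_, ⟨y, hy, rfl⟩, e⟩ := hz
    refine ⟨k, ?_⟩
    have e' : lp p q k + (c + y) = c + z := e
    rwa [show z - lp p q k = y by linear_combination (norm := abel) -e']
  refine le_iInf₂ fun 𝒜 ⟨⟨p, q, hpq, e⟩, hcov⟩ => ?_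
  have hd : dt p q ≠ 0 := by
    intro hd
    have hp : p ≠ 0 := by simpa using hpq.ne_zero 0
    obtain ⟨t, ht⟩ := exists_smul_of_dt hp hd
    have := (LinearIndependent.pair_iff.1 hpq t (-1) (by rw [ht]; module)).2
    norm_num at this
  rcases hd.lt_or_gt with hd | hd
  · have e' : 𝒜 = lat q p (IsometryEquiv.addLeft c '' C) := by
      rw [e]
      ext A
      refine ⟨fun ⟨m, n, k⟩ => ⟨n, m, ?_⟩, fun ⟨m, n, k⟩ => ⟨n, m, ?_⟩⟩ <;> rw [k, add_comm]
    rw [e'] at hcov ⊢
    exact key q p (by rw [dt_swap]; linarith) hcov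
  · rw [show 𝒜 = lat p q (IsometryEquiv.addLeft c '' C) from e] at hcov ⊢
    exact key p q hd hcov

end Pool.Agent.Lib.MP_fb520c_co
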