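import Pool.Agent.Lib.MP_fb520c_co.Poly

-- part Pool.Agent.Lib.MP_fb520c_co.Grow
section

/-! The growth theorem: polygons with at most six sides on average. -/

set_option autoImplicit false

open MeasureTheory Filter Metric Set Topology

noncomputable section

namespace Pool.Agent.Lib.MP_fb520c_co

variable {ι : Type} [Fintype ι]

/-- the sets together with a half-plane above and a half-plane below the square -/
def ext (o : Plane) (L : ℝ) (R : ι → Set Plane) : ι ⊕ Bool → Set Plane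
  | .inl i => R i
  | .inr true => {z | o 0 + L < z 0}
  | .inr false => {z | z 0 < o 0 - L}

/-- the constraints contributed by a neighbour -/
def con (o : Plane) (L : ℝ) (v : ι → ι → Plane × ℝ) (i : ι) : ι ⊕ Bool → Finset (Plane × ℝ)
  | .inl j => {v i j}
  | .inr true => sqUp o L
  | .inr false => sqDown o L

omit [Fintype ι] in
lemma convex_ext {o : Plane} {L : ℝ} {R : ι → Set Plane} (hR : Sys (sq o L) R) (k : ι ⊕ Bool) :
    Convex ℝ (ext o L R k) := by
  rcases k with i | _ | _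
  · exact (hR.1 i).2.1
  · have := convex_half (pt 1 0) (o 0 - L)
    simpa [fv, ext] using this
  · have := convex_half (pt (-1) 0) (-(o 0 + L))
    simpa [fv, ext, -neg_add_rev] using this

omit [Fintype ι] in
lemma disjoint_ext {o : Plane} {L : ℝ} (hL : 0 < L) {R : ι → Set Plane} (hR : Sys (sq o L) R)
    (a b : ι ⊕ Bool) (h : a ≠ b) : Disjoint (ext o L R a) (ext o L R b) := by
  rw [Set.disjoint_left]
  intro z h1 h2
  rcases a with i | _ | _ <;> rcases b with j | _ | _
  · exact Set.disjoint_left.1 (hR.2 i j fun e => h (by rw [e])) h1 h2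
  · have := mem_sq.1 ((hR.1 i).2.2 h1); simp only [ext, mem_ofPred_eq] at h2; linarith [this.2.1]
  · have := mem_sq.1 ((hR.1 i).2.2 h1); simp only [ext, mem_ofPred_eq] at h2; linarith [this.1.1]
  · have := mem_sq.1 ((hR.1 j).2.2 h2); simp only [ext, mem_ofPred_eq] at h1; linarith [this.2.1]
  · exact h rfl
  · simp only [ext, mem_ofPred_eq] at h1 h2; linarith
  · have := mem_sq.1 ((hR.1 j).2.2 h2); simp only [ext, mem_ofPred_eq] at h1; linarith [this.1.1]
  · simp only [ext, mem_ofPred_eq] at h1 h2; linarith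
  · exact h rfl

lemma exists_slope (V : Finset Plane) (hV : ∀ v ∈ V, v ≠ 0) :
    ∃ s > (0 : ℝ), ∀ v ∈ V, fv v (pt 1 s) ≠ 0 := by
  classical
  obtain ⟨s, hs, hs'⟩ := (Set.Ioi_infinite (0 : ℝ)).exists_notMem_finset
    (V.image fun v => -v 0 / v 1)
  refine ⟨s, hs, fun v hv h => ?_⟩
  simp only [fv, pt_zero, pt_one] at h
  by_cases h1 : v 1 = 0
  · rw [h1] at h
    exact hV v hv (plane_ext (by simpa using h) h1)
  · exact hs' (Finset.mem_image.2 ⟨v, hv, by field_simp; linarith⟩)

theorem exists_polygons (o : Plane) {L : ℝ} (hL : 0 < L) (C : ι → Set Plane)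
    (hC : Sys (sq o L) C) (hne : ∀ i, (C i).Nonempty) :
    ∃ S : ι → Finset (Plane × ℝ), (∀ i, C i ⊆ poly (S i)) ∧ Sys (sq o L) (fun i => poly (S i)) ∧
      (∀ i, ∀ h ∈ S i, h.1 ≠ 0) ∧ ∑ i, (S i).card ≤ 6 * (Fintype.card ι + 2) := by
  classical
  obtain ⟨R, hCR, hR, hmax⟩ := exists_maximal_sys hC
  have hRne : ∀ i, (R i).Nonempty := fun i => (hne i).mono (hCR i)
  have hsep : ∀ i j, ∃ h : Plane × ℝ, h.1 ≠ 0 ∧ (i ≠ j → (∀ a ∈ R i, fv h.1 a < h.2) ∧
      ∀ b ∈ R j, h.2 < fv h.1 b) := by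
    intro i j
    by_cases hij : i = j
    · exact ⟨(pt 1 0, 0), fun h => by simpa using congrArg (fun z : Plane => z 0) h,
        fun h => absurd hij h⟩
    · obtain ⟨v, c, h1, h2⟩ := exists_sep (hR.1 i).2.1 (hR.1 i).1 (hR.1 j).2.1 (hR.1 j).1
        (hR.2 i j hij)
      refine ⟨(v, c), fun h => ?_, fun _ => ⟨h1, h2⟩⟩
      obtain ⟨a, ha⟩ := hRne i
      obtain ⟨b, hb⟩ := hRne j
      have h : v = 0 := h
      have e1 := h1 a ha
      have e2 := h2 b hb
      simp only [h, fv, PiLp.zero_apply, zero_mul, add_zero] at e1 e2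
      linarith
  choose v hv0 hv using hsep
  obtain ⟨s, hs, hsv⟩ := exists_slope (Finset.univ.image fun p : ι × ι => (v p.1 p.2).1)
    (fun w hw => by
      obtain ⟨p, -, rfl⟩ := Finset.mem_image.1 hw
      exact hv0 _ _)
  have hsv' : ∀ i j, fv (v i j).1 (pt 1 s) ≠ 0 := fun i j =>
    hsv _ (Finset.mem_image.2 ⟨(i, j), Finset.mem_univ _, rfl⟩)
  set B := ext o L R with hB
  have hc := convex_ext hR
  have hd := disjoint_ext hL hR
  have irr : ∀ a, ¬ Below s B a a := fun a h => h.1 rfl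
  have tr := below_trans (s := s) hc hd
  have hact : ∀ (b : Bool) (t : ℝ), Act s B (.inr b) t := by
    rintro (_ | _) t
    · exact ⟨pt (o 0 - L - 1) (t + s * (o 0 - L - 1)), by simp [hB, ext], by simp⟩
    · exact ⟨pt (o 0 + L + 1) (t + s * (o 0 + L + 1)), by simp [hB, ext], by simp⟩
  let A : ι ⊕ Bool → ι ⊕ Bool → Prop := fun a b => ∃ t, Adj (Act s B) (Below s B) t a b
  let S : ι → Finset (Plane × ℝ) := fun i =>
    (Finset.univ.filter fun m => A (.inl i) m).biUnion (con o L v i) ∪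
      (Finset.univ.filter fun m => A m (.inl i)).biUnion (con o L v i)
  have hconR : ∀ i m, m ≠ .inl i → R i ⊆ poly (con o L v i m) := by
    intro i m hm z hz
    rcases m with j | _ | _
    · intro h hh
      rw [con, Finset.mem_singleton] at hh
      rw [hh]
      exact (hv i j fun e => hm (by rw [e])).1 z hz
    · exact mem_poly_sqDown.2 (mem_sq.1 ((hR.1 i).2.2 hz)).2
    · exact mem_poly_sqUp.2 (mem_sq.1 ((hR.1 i).2.2 hz)).1
  have hSup : ∀ i m, A (.inl i) m → poly (S i) ⊆ poly (con o L v i m) := by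
    intro i m hm z hz h hh
    exact hz h (Finset.mem_union_left _ (Finset.mem_biUnion.2 ⟨m, by simpa using hm, hh⟩))
  have hSdown : ∀ i m, A m (.inl i) → poly (S i) ⊆ poly (con o L v i m) := by
    intro i m hm z hz h hh
    exact hz h (Finset.mem_union_right _ (Finset.mem_biUnion.2 ⟨m, by simpa using hm, hh⟩))
  have hRS : ∀ i, R i ⊆ poly (S i) := by
    intro i z hz h hh
    rcases Finset.mem_union.1 hh with hh | hh
    · obtain ⟨m, hm, hh⟩ := Finset.mem_biUnion.1 hh
      obtain ⟨t, ht⟩ := (Finset.mem_filter.1 hm).2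
      exact hconR i m ht.2.2.1.1.symm hz h hh
    · obtain ⟨m, hm, hh⟩ := Finset.mem_biUnion.1 hh
      obtain ⟨t, ht⟩ := (Finset.mem_filter.1 hm).2
      exact hconR i m ht.2.2.1.1 hz h hh
  -- points of the polygon on a vertical line through `R i`
  have key : ∀ i q, q ∈ poly (S i) → ∀ z ∈ R i, z 1 - s * z 0 = q 1 - s * q 0 →
      q ∈ sq o L ∧ ∀ j, j ≠ i → q ∉ R j := by
    intro i q hq z hz e
    have hzQ := mem_sq.1 ((hR.1 i).2.2 hz)
    have hi : Act s B (.inl i) (z 1 - s * z 0) := ⟨z, hz, rfl⟩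
    rcases lt_trichotomy (z 0) (q 0) with h | h | h
    · obtain ⟨zt, hzt, et⟩ := hact true (z 1 - s * z 0)
      have hb : Below s B (.inl i) (.inr true) :=
        (below_iff hc hd (by simp) (show z ∈ B (.inl i) from hz) hzt et.symm).2
          (by simp only [hB, ext, mem_ofPred_eq] at hzt; linarith [hzQ.1.1])
      obtain ⟨m, hm⟩ := exists_adj_above irr tr hi (hact true _) hb
      have hqm := hSup i m ⟨_, hm⟩ hq
      obtain ⟨z', hz', e'⟩ := hm.2.1
      have hlt : z 0 < z' 0 := (below_iff hc hd hm.2.2.1.1 (show z ∈ B (.inl i) from hz) hz'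
        e'.symm).1 hm.2.2.1
      have hq' : q ∈ sq o L ∧ q ∉ B m ∧ (q 0 < z' 0) := by
        rcases m with k | _ | _
        · have hik : i ≠ k := fun e => hm.2.2.1.1 (by rw [e])
          have h1 := (hv i k hik).1 z hz
          have h2 := (hv i k hik).2 z' hz'
          have h3 : fv (v i k).1 q < (v i k).2 := hqm _ (by simp [con])
          have h4 : q 0 < z' 0 := by
            rw [eq_add_vert e'.symm, fv_add_smul] at h2
            rw [eq_add_vert e, fv_add_smul] at h3
            by_contra hn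
            have : 0 < fv (v i k).1 (pt 1 s) := by nlinarith
            nlinarith
          have hz'Q := mem_sq.1 ((hR.1 k).2.2 hz')
          refine ⟨mem_sq.2 ⟨⟨by linarith [hz'Q.1.1], by nlinarith [hz'Q.1.2]⟩,
            by linarith [hzQ.2.1], by nlinarith [hzQ.2.2]⟩, fun hk => ?_, h4⟩
          linarith [(hv i k hik).2 q hk]
        · simp only [hB, ext, mem_ofPred_eq] at hz'
          linarith [hzQ.2.1]
        · have h3 := mem_poly_sqUp.1 hqm
          simp only [hB, ext, mem_ofPred_eq] at hz' ⊢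
          exact ⟨mem_sq.2 ⟨h3, by linarith [hzQ.2.1], by nlinarith [hzQ.2.2]⟩, by linarith [h3.1],
            by linarith [h3.1]⟩
      refine ⟨hq'.1, fun j hj hqj => ?_⟩
      have hjm : Sum.inl j ≠ m := fun e => hq'.2.1 (e ▸ hqj)
      exact hm.2.2.2 (.inl j) ⟨q, hqj, e.symm⟩
        ((below_iff hc hd (by simpa using hj.symm) (show z ∈ B (.inl i) from hz)
          (show q ∈ B (.inl j) from hqj) e).2 h)
        ((below_iff hc hd hjm (show q ∈ B (.inl j) from hqj) hz' (e.symm.trans e'.symm)).2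
          hq'.2.2)
    · have : q = z := plane_ext h.symm (by rw [h] at e; linarith)
      rw [this]
      exact ⟨(hR.1 i).2.2 hz, fun j hj hzj => Set.disjoint_left.1 (hR.2 j i hj) hzj hz⟩
    · obtain ⟨zt, hzt, et⟩ := hact false (z 1 - s * z 0)
      have hb : Below s B (.inr false) (.inl i) :=
        (below_iff hc hd (by simp) hzt (show z ∈ B (.inl i) from hz) et).2
          (by simp only [hB, ext, mem_ofPred_eq] at hzt; linarith [hzQ.2.1])
      obtain ⟨m, hm⟩ := exists_adj_below irr tr (hact false _) hi hb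
      have hqm := hSdown i m ⟨_, hm⟩ hq
      obtain ⟨z', hz', e'⟩ := hm.1
      have hlt : z' 0 < z 0 := (below_iff hc hd hm.2.2.1.1 hz' (show z ∈ B (.inl i) from hz)
        e').1 hm.2.2.1
      have hq' : q ∈ sq o L ∧ q ∉ B m ∧ (z' 0 < q 0) := by
        rcases m with k | _ | _
        · have hik : i ≠ k := fun e => hm.2.2.1.1 (by rw [e])
          have h1 := (hv i k hik).1 z hz
          have h2 := (hv i k hik).2 z' hz'
          have h3 : fv (v i k).1 q < (v i k).2 := hqm _ (by simp [con])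
          have h4 : z' 0 < q 0 := by
            rw [eq_add_vert e'.symm, fv_add_smul] at h2
            rw [eq_add_vert e, fv_add_smul] at h3
            by_contra hn
            have : fv (v i k).1 (pt 1 s) < 0 := by nlinarith
            nlinarith
          have hz'Q := mem_sq.1 ((hR.1 k).2.2 hz')
          refine ⟨mem_sq.2 ⟨⟨by linarith [hzQ.1.1], by nlinarith [hzQ.1.2]⟩,
            by linarith [hz'Q.2.1], by nlinarith [hz'Q.2.2]⟩, fun hk => ?_, h4⟩
          linarith [(hv i k hik).2 q hk]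
        · have h3 := mem_poly_sqDown.1 hqm
          simp only [hB, ext, mem_ofPred_eq] at hz' ⊢
          exact ⟨mem_sq.2 ⟨⟨by linarith [hzQ.1.1], by nlinarith [hzQ.1.2]⟩, h3⟩,
            by linarith [h3.1], by linarith [h3.1]⟩
        · simp only [hB, ext, mem_ofPred_eq] at hz'
          linarith [hzQ.1.1]
      refine ⟨hq'.1, fun j hj hqj => ?_⟩
      have hjm : m ≠ Sum.inl j := fun e => hq'.2.1 (e ▸ hqj)
      exact hm.2.2.2 (.inl j) ⟨q, hqj, e.symm⟩
        ((below_iff hc hd hjm hz' (show q ∈ B (.inl j) from hqj) (e'.trans e)).2 hq'.2.2)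
        ((below_iff hc hd (by simpa using hj) (show q ∈ B (.inl j) from hqj)
          (show z ∈ B (.inl i) from hz) e.symm).2 h)
  have strip : ∀ i q, q ∈ poly (S i) → ∀ z ∈ R i, z 1 - s * z 0 = q 1 - s * q 0 → q ∈ R i := by
    intro i q hq z hz e
    refine hmax i (poly (S i) ∩ {q | ∃ r : ℝ, q + r • pt 1 s ∈ R i}) ?_ ?_ ?_ ?_ ?_ ⟨hq, ?_⟩
    · refine (isOpen_poly _).inter ?_
      rw [ofPred_exists]
      exact isOpen_iUnion fun r => (hR.1 i).1.preimage (by fun_prop)
    · refine (convex_poly _).inter ?_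
      rintro x ⟨r, hr⟩ y ⟨r', hr'⟩ a b ha hb hab
      refine ⟨a * r + b * r', ?_⟩
      convert (hR.1 i).2.1 hr hr' ha hb hab using 1
      refine plane_ext ?_ ?_ <;> simp <;> ring
    · rintro x ⟨hx, r, hr⟩
      exact (key i x hx _ hr (by simp; ring)).1
    · exact fun x hx => ⟨hRS i hx, 0, by simpa using hx⟩
    · intro j hj
      rw [Set.disjoint_left]
      rintro x ⟨hx, r, hr⟩
      exact (key i x hx _ hr (by simp; ring)).2 j hj
    · exact ⟨z 0 - q 0, by rw [← eq_add_vert e.symm]; exact hz⟩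
  have full : ∀ i q, q ∈ sq o L → (∀ j, j ≠ i → fv (v i j).1 q < (v i j).2) → q ∈ R i := by
    intro i q h1 h2
    refine hmax i (sq o L ∩ poly ((Finset.univ.filter fun j => j ≠ i).image (v i)))
      ((isOpen_sq o L).inter (isOpen_poly _)) ((convex_sq o L).inter (convex_poly _))
      inter_subset_left (fun x hx => ⟨(hR.1 i).2.2 hx, fun h hh => ?_⟩) (fun j hj => ?_)
      ⟨h1, fun h hh => ?_⟩
    · obtain ⟨j, hj, rfl⟩ := Finset.mem_image.1 hh
      exact (hv i j (Finset.mem_filter.1 hj).2.symm).1 x hx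
    · rw [Set.disjoint_left]
      rintro x ⟨-, hx⟩ hxj
      have := hx _ (Finset.mem_image_of_mem (v i) (Finset.mem_filter.2 ⟨Finset.mem_univ j, hj⟩))
      linarith [(hv i j hj.symm).2 x hxj]
    · obtain ⟨j, hj, rfl⟩ := Finset.mem_image.1 hh
      exact h2 j (Finset.mem_filter.1 hj).2
  have hSR : ∀ i, poly (S i) ⊆ R i := by
    intro i
    refine (convex_poly _).isPreconnected.subset_of_closure_inter_subset (hR.1 i).1
      ((hRne i).mono fun z hz => ⟨hRS i hz, hz⟩) ?_
    rintro p ⟨hp, hpS⟩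
    have hev : ∀ᶠ x : Plane × ℝ in 𝓝 (p, 0), x.1 + x.2 • pt 1 s ∈ poly (S i) := by
      have : ContinuousAt (fun x : Plane × ℝ => x.1 + x.2 • pt 1 s) (p, 0) := by fun_prop
      exact this.eventually_mem ((isOpen_poly _).mem_nhds (by simpa using hpS))
    obtain ⟨ε, hε, hball⟩ := Metric.eventually_nhds_iff.1 hev
    have hcl : ∀ r : ℝ, |r| < ε → p + r • pt 1 s ∈ closure (R i) := by
      intro r hr
      rw [Metric.mem_closure_iff] at hp ⊢
      intro η hη
      obtain ⟨y, hy, hd'⟩ := hp (min η ε) (lt_min hη hε)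
      refine ⟨y + r • pt 1 s, strip i _ (hball (y := (y, r)) ?_) y hy (by simp; ring), ?_⟩
      · rw [Prod.dist_eq, dist_comm, Real.dist_eq, sub_zero]
        exact max_lt (hd'.trans_le (min_le_right _ _)) hr
      · rw [dist_add_right]
        exact hd'.trans_le (min_le_left _ _)
    have hstrict : ∀ (w : Plane) (c : ℝ), fv w (pt 1 s) ≠ 0 → (∀ a ∈ R i, fv w a < c) →
        fv w p < c := by
      intro w c hw hc'
      have hle : ∀ a ∈ closure (R i), fv w a ≤ c := fun a ha =>
        closure_minimal (fun a ha => (hc' a ha).le) (isClosed_le (continuous_fv w)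
          continuous_const) ha
      have h1 := hle _ (hcl (ε / 2) (by rw [abs_of_pos] <;> linarith))
      have h2 := hle _ (hcl (-(ε / 2)) (by rw [abs_neg, abs_of_pos] <;> linarith))
      rw [fv_add_smul] at h1 h2
      rcases lt_or_gt_of_ne hw with h | h <;> nlinarith
    refine full i p (mem_sq.2 ⟨⟨?_, ?_⟩, ?_, ?_⟩) fun j hj =>
      hstrict _ _ (hsv' i j) (hv i j hj.symm).1
    · simpa [fv] using hstrict (pt 1 0) (o 0 + L) (by simp [fv])
        fun a ha => by simpa [fv] using (mem_sq.1 ((hR.1 i).2.2 ha)).1.1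
    · simpa [fv] using hstrict (pt 0 1) (o 1 + L) (by simp [fv, hs.ne'])
        fun a ha => by simpa [fv] using (mem_sq.1 ((hR.1 i).2.2 ha)).1.2
    · have := hstrict (pt (-1) 0) (L - o 0) (by simp [fv])
        fun a ha => by have := (mem_sq.1 ((hR.1 i).2.2 ha)).2.1; simp [fv]; linarith
      simp [fv] at this; linarith
    · have := hstrict (pt 0 (-1)) (L - o 1) (by simp [fv, hs.ne'])
        fun a ha => by have := (mem_sq.1 ((hR.1 i).2.2 ha)).2.2; simp [fv]; linarith
      simp [fv] at this; linarith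
  have hEq : ∀ i, poly (S i) = R i := fun i => (hSR i).antisymm (hRS i)
  refine ⟨S, fun i => (hCR i).trans (hRS i), by simpa only [hEq] using hR, ?_, ?_⟩
  · have hcon : ∀ i m, ∀ h ∈ con o L v i m, h.1 ≠ 0 := by
      intro i m h hh h0
      rcases m with j | _ | _
      · rw [con, Finset.mem_singleton] at hh
        exact hv0 i j (hh ▸ h0)
      · simp only [con, sqDown, Finset.mem_insert, Finset.mem_singleton] at hh
        rcases hh with rfl | rfl
        · simpa using congrArg (fun z : Plane => z 0) h0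
        · simpa using congrArg (fun z : Plane => z 1) h0
      · simp only [con, sqUp, Finset.mem_insert, Finset.mem_singleton] at hh
        rcases hh with rfl | rfl
        · simpa using congrArg (fun z : Plane => z 0) h0
        · simpa using congrArg (fun z : Plane => z 1) h0
    intro i h hh
    rcases Finset.mem_union.1 hh with hh | hh <;>
    · obtain ⟨m, -, hh⟩ := Finset.mem_biUnion.1 hh
      exact hcon i m h hh
  · have hcount := adj_count (Act s B) (Below s B) (act_conn hc) (below_asymm hc hd)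
      (below_total hc hd) tr
    let wt : ι ⊕ Bool → ℕ := fun m => Sum.elim (fun _ => 1) (fun _ => 2) m
    have hwt : ∀ i m, (con o L v i m).card ≤ wt m := by
      intro i m
      rcases m with j | _ | _
      · simp [con, wt]
      · exact card_sqDown o L
      · exact card_sqUp o L
    let u : ι ⊕ Bool → ι ⊕ Bool → ℕ := fun a b => Sum.elim (fun _ => wt b) (fun _ => 0) a
    have h1 : ∀ i, (S i).card ≤ (∑ m, if A (.inl i) m then wt m else 0) +
        ∑ m, if A m (.inl i) then wt m else 0 := by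
      intro i
      refine (Finset.card_union_le _ _).trans (add_le_add ?_ ?_) <;>
      · refine Finset.card_biUnion_le.trans ?_
        rw [← Finset.sum_filter]
        exact Finset.sum_le_sum fun m _ => hwt i m
    have h2 : ∑ i, (∑ m, if A (.inl i) m then wt m else 0) =
        ∑ a, ∑ b, if A a b then u a b else 0 := by
      rw [Fintype.sum_sum_type]
      simp [u]
    have h3 : ∑ i, (∑ m, if A m (.inl i) then wt m else 0) =
        ∑ a, ∑ b, if A a b then u b a else 0 := by
      rw [Finset.sum_comm (f := fun a b => if A a b then u b a else 0), Fintype.sum_sum_type]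
      simp [u]
    have h4 : (∑ a, ∑ b, if A a b then u a b else 0) + (∑ a, ∑ b, if A a b then u b a else 0) ≤
        2 * (Finset.univ.filter fun p : (ι ⊕ Bool) × (ι ⊕ Bool) => A p.1 p.2).card := by
      rw [Finset.card_filter, Fintype.sum_prod_type, Finset.mul_sum, ← Finset.sum_add_distrib]
      refine Finset.sum_le_sum fun a _ => ?_
      rw [Finset.mul_sum, ← Finset.sum_add_distrib]
      refine Finset.sum_le_sum fun b _ => ?_
      split_ifs
      · rcases a with _ | _ <;> rcases b with _ | _ <;> simp [u, wt]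
      · simp
    have h5 : Fintype.card (ι ⊕ Bool) = Fintype.card ι + 2 := by simp
    calc ∑ i, (S i).card ≤ _ := Finset.sum_le_sum fun i _ => h1 i
      _ = _ := by rw [Finset.sum_add_distrib, h2, h3]
      _ ≤ _ := h4
      _ ≤ 2 * (3 * Fintype.card (ι ⊕ Bool)) := Nat.mul_le_mul_left 2 (by convert hcount)
      _ = _ := by rw [h5]; ring

end Pool.Agent.Lib.MP_fb520c_co
end
end

-- part Pool.Agent.Lib.MP_fb520c_co.FT
section

/-! The hexagon bound of L. Fejes Toth in a square. -/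

set_option autoImplicit false

open MeasureTheory Set Real Filter Topology Metric
open scoped ENNReal

noncomputable section

namespace Pool.Agent.Lib.MP_fb520c_co

lemma volume_sq (o : Plane) {L : ℝ} (hL : 0 ≤ L) : volume (sq o L) = ENNReal.ofReal (4 * L ^ 2) := by
  have e : sq o L = lin 1 0 0 1 ⁻¹' (Ioo (o 0 - L) (o 0 + L) ×ˢ Ioo (o 1 - L) (o 1 + L)) := by
    ext z
    rw [mem_sq]
    simp [lin]
    tauto
  rw [e, volume_lin_one (by norm_num) (measurableSet_Ioo.prod measurableSet_Ioo),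
    Measure.volume_eq_prod, Measure.prod_prod, Real.volume_Ioo, Real.volume_Ioo,
    ← ENNReal.ofReal_mul (by linarith)]
  congr 1
  ring

lemma fv_isometry (g : Plane ≃ᵢ Plane) {v : Plane} (hv : v ≠ 0) :
    ∃ ρ u : ℝ, 0 < ρ ∧ ∀ z, fv v (g z) = ρ * ip z u + fv v (g 0) := by
  set L := g.toRealLinearIsometryEquiv
  have h0 : L.symm v ≠ 0 := by simpa using hv
  obtain ⟨ρ, u, h1, -, -, h2, h3⟩ := exists_angle (L.symm v 0) (L.symm v 1) (by
    by_contra h
    push Not at h
    exact h0 (plane_ext h.1 h.2))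
  refine ⟨ρ, u, h1, fun z => ?_⟩
  have e1 : inner ℝ v (L z) = inner ℝ (L.symm v) z := by
    rw [← L.inner_map_map (L.symm v) z, L.apply_symm_apply]
  rw [inner_eq, inner_eq, h2, h3] at e1
  rw [isometry_apply g z]
  simp only [fv, ip, PiLp.add_apply]
  linear_combination e1

lemma sum_volume_le {ι : Type} [Fintype ι] {Q : Set Plane} {R : ι → Set Plane} (h : Sys Q R) :
    ∑ i, volume (R i) ≤ volume Q := by
  rw [← tsum_fintype (L := SummationFilter.unconditional _), ← measure_iUnion (fun i j hij => h.2 i j hij)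
    fun i => (h.1 i).1.measurableSet]
  exact measure_mono (iUnion_subset fun i => (h.1 i).2.2)

lemma Sym0.mem_interior {C : Set Plane} (hC : Sym0 C) (g : Plane ≃ᵢ Plane) :
    g 0 ∈ interior (g '' C) := by
  obtain ⟨ε, h, h'⟩ := hC.int
  refine mem_interior_iff_mem_nhds.2 (mem_of_superset (closedBall_mem_nhds _ h) ?_)
  rw [← g.image_closedBall]
  exact image_mono h'

theorem Sym0.ft_local {C : Set Plane} (hC : Sym0 C) : ∃ K : ℝ, 0 ≤ K ∧ ∀ H : ℝ≥0∞,
    (∀ a b c, H ≤ volume (hexS (supp C) a b c)) → ∀ (ι : Type) [Fintype ι]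
      (g : ι → Plane ≃ᵢ Plane) (o : Plane) (L : ℝ), 0 < L → Sys (sq o L) (fun i => interior (g i '' C)) →
      Fintype.card ι * H ≤ ENNReal.ofReal (4 * L ^ 2 + K) := by
  classical
  obtain ⟨M, hM0, hM⟩ := hC.cpt.isBounded.exists_pos_norm_le
  have hp : ∀ θ, supp C θ ≤ M := fun θ => by
    obtain ⟨z, hz, e⟩ := exists_supp hC.cpt hC.ne θ
    rw [← e]
    exact (le_abs_self _).trans ((abs_ip_le z θ).trans (hM z hz))
  refine ⟨6 * (4 * M ^ 2), by positivity, fun H hH ι _ g o L hL hS => ?_⟩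
  obtain ⟨S, h1, h2, h3, h4⟩ := exists_polygons o hL _ hS fun i => ⟨_, hC.mem_interior (g i)⟩
  have hu : ∀ y : (Σ i, S i), ∃ u : ℝ, ∀ z, ip z u < supp C u → fv y.2.1.1 (g y.1 z) < y.2.1.2 := by
    rintro ⟨i, h, hh⟩
    obtain ⟨ρ, u, hρ, e⟩ := fv_isometry (g i) (h3 i h hh)
    obtain ⟨y, hy, e'⟩ := exists_supp hC.cpt hC.ne u
    have hcl : g i '' C ⊆ {z | fv h.1 z ≤ h.2} := by
      refine subset_closure.trans ?_
      rw [← (convex_isometry_image (g i) hC.cvx).closure_interior_eq_closure_of_nonempty_interior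
        ⟨_, hC.mem_interior (g i)⟩]
      exact closure_minimal (fun z hz => (h1 i hz h hh).le)
        (isClosed_le (continuous_fv _) continuous_const)
    have := hcl ⟨y, hy, rfl⟩
    rw [mem_ofPred_eq, e y, e'] at this
    refine ⟨u, fun z hz => ?_⟩
    show fv h.1 (g i z) < h.2
    rw [e z]
    nlinarith
  choose u hu using hu
  obtain ⟨a, b, c, hd⟩ := dowker hC.isSupp (ι := ι ⊕ Fin 6) (Y := (Σ i, S i) ⊕ (Fin 6 × Fin 4))
    (Sum.map (fun y => y.1) Prod.fst) (Sum.elim u fun y => ![0, π, π / 2, π / 2 + π] y.2) (by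
      simp only [Fintype.card_sum, Fintype.card_sigma, Fintype.card_coe, Fintype.card_prod,
        Fintype.card_fin]
      omega)
  have l1 : ((2 * Fintype.card (ι ⊕ Fin 6) : ℕ) : ℝ≥0∞) * H ≤
      ∑ j, volume (hexS (supp C) (a j) (b j) (c j)) := by
    have := Finset.card_nsmul_le_sum Finset.univ _ H fun j _ => hH (a j) (b j) (c j)
    simpa using this
  rw [Fintype.sum_sum_type] at hd
  have l2 : ∑ i : ι, volume {z : Plane | ∀ y : (Σ i, S i) ⊕ (Fin 6 × Fin 4),
      Sum.map (fun y => y.1) Prod.fst y = Sum.inl i →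
      ip z (Sum.elim u (fun y => ![0, π, π / 2, π / 2 + π] y.2) y) <
        supp C (Sum.elim u (fun y => ![0, π, π / 2, π / 2 + π] y.2) y)} ≤
      ENNReal.ofReal (4 * L ^ 2) := by
    rw [← volume_sq o hL.le]
    refine le_trans (Finset.sum_le_sum fun i _ => ?_) (sum_volume_le h2)
    rw [← volume_isometry_preimage (g i) (isOpen_poly _).measurableSet]
    exact measure_mono fun z hz h hh => hu ⟨i, h, hh⟩ z (hz (Sum.inl ⟨i, h, hh⟩) rfl)
  have l3 : ∑ i : Fin 6, volume {z : Plane | ∀ y : (Σ i, S i) ⊕ (Fin 6 × Fin 4),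
      Sum.map (fun y => y.1) Prod.fst y = Sum.inr i →
      ip z (Sum.elim u (fun y => ![0, π, π / 2, π / 2 + π] y.2) y) <
        supp C (Sum.elim u (fun y => ![0, π, π / 2, π / 2 + π] y.2) y)} ≤
      ENNReal.ofReal (6 * (4 * M ^ 2)) := by
    refine (Finset.sum_le_card_nsmul _ _ (ENNReal.ofReal (4 * M ^ 2)) fun i _ => ?_).trans
      (le_of_eq ?_)
    · rw [← volume_sq 0 hM0.le]
      refine measure_mono fun z hz => ?_
      have k0 := (hz (Sum.inr (i, 0)) rfl).trans_le (hp _)
      have k1 := (hz (Sum.inr (i, 1)) rfl).trans_le (hp _)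
      have k2 := (hz (Sum.inr (i, 2)) rfl).trans_le (hp _)
      have k3 := (hz (Sum.inr (i, 3)) rfl).trans_le (hp _)
      simp [ip] at k0 k1 k2 k3
      rw [mem_sq]
      simp only [PiLp.zero_apply]
      exact ⟨⟨by linarith, by linarith⟩, by linarith, by linarith⟩
    · rw [ENNReal.ofReal_mul (p := 6) (by norm_num)]
      simp
  have := l1.trans (hd.trans (mul_le_mul_right (add_le_add l2 l3) 2))
  rw [← ENNReal.ofReal_add (by positivity) (by positivity), Nat.cast_mul, Nat.cast_ofNat, mul_assoc,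
    ENNReal.mul_le_mul_iff_right (by norm_num) (by norm_num)] at this
  refine le_trans (mul_le_mul_left (Nat.cast_le.2 ?_) _) this
  simp

end Pool.Agent.Lib.MP_fb520c_co
end
end

-- part Pool.Agent.Lib.MP_fb520c_co.Dens
section

/-! Passing from local counts to densities. -/

set_option autoImplicit false

open MeasureTheory Set Real Filter Topology Metric
open scoped ENNReal

noncomputable section

namespace Pool.Agent.Lib.MP_fb520c_co

/-- the total area of the members inside a disc -/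
def tot (𝒜 : Set (Set Plane)) (r : ℝ) : ℝ≥0∞ :=
  ∑' A : {A : Set Plane // A ∈ 𝒜 ∧ A ⊆ closedBall 0 r}, volume A.1

lemma tendsto_ball (D : ℝ) : Tendsto (fun r : ℝ => volume (closedBall (0 : Plane) (r + D)) /
    volume (closedBall (0 : Plane) r)) atTop (𝓝 1) := by
  have h1 : Tendsto (fun r : ℝ => ENNReal.ofReal ((1 + D / r) ^ 2)) atTop (𝓝 1) := by
    have : Tendsto (fun r : ℝ => (1 + D / r) ^ 2) atTop (𝓝 ((1 + 0) ^ 2)) :=
      ((tendsto_const_nhds.div_atTop tendsto_id).const_add 1).pow 2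
    simpa using ENNReal.tendsto_ofReal this
  refine h1.congr' ?_
  filter_upwards [eventually_gt_atTop 0, eventually_ge_atTop (-D)] with r h0 hD
  rw [volume_closedBall_eq _ _ h0.le, volume_closedBall_eq _ _ (by linarith),
    ← ENNReal.ofReal_div_of_pos (by positivity)]
  congr 1
  field_simp

lemma upper_le {𝒜 : Set (Set Plane)} {k : ℝ≥0∞} (hk : k ≠ ∞) (D : ℝ)
    (h : ∀ r, 0 < r → tot 𝒜 r ≤ k * volume (closedBall (0 : Plane) (r + D))) :
    upperDensity 𝒜 ≤ k := by
  have h1 := ENNReal.Tendsto.const_mul (a := k) (tendsto_ball D) (Or.inr hk)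
  rw [mul_one] at h1
  rw [← h1.limsup_eq]
  refine limsup_le_limsup ?_
  filter_upwards [eventually_gt_atTop 0] with r hr
  rw [← mul_div_assoc]
  exact ENNReal.div_le_div_right (h r hr) _

lemma le_lower {𝒜 : Set (Set Plane)} {k : ℝ≥0∞} (D : ℝ)
    (h : ∀ r, 0 < r → k * volume (closedBall (0 : Plane) (r - D)) ≤ tot 𝒜 r) :
    k ≤ lowerDensity 𝒜 := by
  have h1 := ENNReal.Tendsto.const_mul (a := k) (tendsto_ball (-D)) (Or.inl one_ne_zero)
  rw [mul_one] at h1
  rw [← h1.liminf_eq]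
  refine liminf_le_liminf ?_
  filter_upwards [eventually_gt_atTop 0] with r hr
  rw [← mul_div_assoc]
  exact ENNReal.div_le_div_right (h r hr) _

lemma lower_le_upper (𝒜 : Set (Set Plane)) : lowerDensity 𝒜 ≤ upperDensity 𝒜 := liminf_le_limsup

open Classical in
lemma lintegral_count {ι : Type} [Fintype ι] (c : ι → Plane) {L : ℝ} (hL : 0 ≤ L) :
    ∫⁻ o, ((Finset.univ.filter fun i => o ∈ sq (c i) L).card : ℝ≥0∞) =
      Fintype.card ι * ENNReal.ofReal (4 * L ^ 2) := by
  simp_rw [Finset.card_filter, Nat.cast_sum]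
  rw [lintegral_finsetSum]
  · rw [← nsmul_eq_mul, ← Finset.card_univ, ← Finset.sum_const]
    refine Finset.sum_congr rfl fun k _ => ?_
    rw [← volume_sq (c k) hL, ← lintegral_indicator_one (isOpen_sq _ _).measurableSet]
    refine lintegral_congr fun z => ?_
    by_cases h : z ∈ sq (c k) L <;> simp [h]
  · intro k _
    refine Measurable.comp (g := fun n : ℕ => (n : ℝ≥0∞)) measurable_from_top ?_
    exact Measurable.ite (isOpen_sq _ _).measurableSet measurable_const measurable_const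

lemma abs_coord_le (z : Plane) (i : Fin 2) : |z i| ≤ ‖z‖ := by
  simpa using PiLp.norm_apply_le z i

lemma norm_le_coord (z : Plane) : ‖z‖ ≤ |z 0| + |z 1| := by
  refine abs_le_of_sq_le_sq' ?_ (by positivity) |>.2
  rw [norm_sq_eq, ← sq_abs (z 0), ← sq_abs (z 1)]
  nlinarith [mul_nonneg (abs_nonneg (z 0)) (abs_nonneg (z 1))]

lemma dist_of_mem_sq {o z : Plane} {L : ℝ} (h : z ∈ sq o L) : ‖z - o‖ ≤ 2 * L := by
  have := norm_le_coord (z - o)
  simp only [PiLp.sub_apply] at this
  linarith [h.1, h.2]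

lemma mem_sq_of_near {o c z : Plane} {L M : ℝ} (h : o ∈ sq c L) (hz : ‖z - c‖ ≤ M) :
    z ∈ sq o (L + M) := by
  have k0 := (abs_coord_le (z - c) 0).trans hz
  have k1 := (abs_coord_le (z - c) 1).trans hz
  simp only [PiLp.sub_apply, abs_le] at k0 k1
  rw [mem_sq] at h ⊢
  exact ⟨⟨by linarith [h.2.1], by linarith [h.2.2]⟩, by linarith [h.1.1], by linarith [h.1.2]⟩

lemma norm_sub_le_of_mem {C : Set Plane} {M : ℝ} (hM : ∀ z ∈ C, ‖z‖ ≤ M) (g : Plane ≃ᵢ Plane)
    {z : Plane} (hz : z ∈ g '' C) : ‖z - g 0‖ ≤ M := by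
  obtain ⟨y, hy, rfl⟩ := hz
  rw [← dist_eq_norm, g.dist_eq, dist_zero_right]
  exact hM y hy

lemma tendsto_quad (A H M K : ℝ) (hH : 0 < H) : Tendsto (fun L : ℝ => ENNReal.ofReal
    (A * ((4 * (L + M) ^ 2 + K) / H / (4 * L ^ 2)))) atTop (𝓝 (ENNReal.ofReal (A / H))) := by
  refine ENNReal.tendsto_ofReal ?_
  have h1 : Tendsto (fun L : ℝ => A / H * ((1 + M / L) ^ 2 + K / 4 / L / L)) atTop
      (𝓝 (A / H * ((1 + 0) ^ 2 + 0))) :=
    ((((tendsto_const_nhds.div_atTop tendsto_id).const_add 1).pow 2).add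
      ((tendsto_const_nhds.div_atTop tendsto_id).div_atTop tendsto_id)).const_mul _
  simp only [add_zero, one_pow, mul_one] at h1
  refine h1.congr' ?_
  filter_upwards [eventually_gt_atTop 0] with L hL
  field_simp

theorem Sym0.upper_le {C : Set Plane} (hC : Sym0 C) {H : ℝ} (hH0 : 0 < H)
    (hH : ∀ a b c, ENNReal.ofReal H ≤ volume (hexS (supp C) a b c)) {𝒜 : Set (Set Plane)}
    (h1 : IsCongruentFamily C 𝒜) (h2 : IsPacking 𝒜) :
    upperDensity 𝒜 ≤ ENNReal.ofReal ((volume C).toReal / H) := by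
  classical
  obtain ⟨K, hK0, hK⟩ := hC.ft_local
  obtain ⟨M, hM0, hM⟩ := hC.cpt.isBounded.exists_pos_norm_le
  choose! g hg using h1
  refine ge_of_tendsto (tendsto_quad _ H M K hH0) ?_
  filter_upwards [eventually_gt_atTop 0] with L hL
  refine Pool.Agent.Lib.MP_fb520c_co.upper_le ENNReal.ofReal_ne_top (2 * L) fun r hr => ?_
  rw [tot, ENNReal.tsum_eq_iSup_sum]
  refine iSup_le fun s => ?_
  have e1 : ∑ A ∈ s, volume A.1 = Fintype.card s * volume C := by
    rw [Fintype.card_coe, ← nsmul_eq_mul, ← Finset.sum_const]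
    exact Finset.sum_congr rfl fun A _ => by
      rw [hg A.1 A.2.1, volume_isometry_image _ hC.cpt.measurableSet]
  have e2 : (Fintype.card s : ℝ≥0∞) * ENNReal.ofReal (4 * L ^ 2) ≤
      ENNReal.ofReal ((4 * (L + M) ^ 2 + K) / H) * volume (closedBall (0 : Plane) (r + 2 * L)) := by
    rw [← lintegral_count (fun A : s => g A.1.1 0) hL.le, ← setLIntegral_const,
      ← lintegral_indicator measurableSet_closedBall]
    refine lintegral_mono fun o => ?_
    by_cases ho : o ∈ closedBall (0 : Plane) (r + 2 * L)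
    · rw [indicator_of_mem ho, ENNReal.ofReal_div_of_pos hH0,
        ENNReal.le_div_iff_mul_le (Or.inl (by simpa using hH0)) (Or.inl ENNReal.ofReal_ne_top),
        ← Fintype.card_subtype]
      refine hK _ hH _ (fun A : {A : s // o ∈ sq (g A.1.1 0) L} => g A.1.1.1) o (L + M)
        (by linarith) ⟨fun A => ⟨isOpen_interior, (convex_isometry_image _ hC.cvx).interior,
          fun z hz => mem_sq_of_near A.2 (norm_sub_le_of_mem hM _ (interior_subset hz))⟩,
          fun A B hAB => ?_⟩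
      beta_reduce
      rw [← hg _ A.1.1.2.1, ← hg _ B.1.1.2.1]
      exact h2 A.1.1.2.1 B.1.1.2.1 fun e => hAB (Subtype.ext (Subtype.ext (Subtype.ext e)))
    · rw [indicator_of_notMem ho, Finset.filter_false_of_mem, Finset.card_empty, Nat.cast_zero]
      intro A _ hA
      apply ho
      have k1 : g A.1.1 0 ∈ A.1.1 := by
        have := interior_subset (hC.mem_interior (g A.1.1))
        rwa [← hg _ A.1.2.1] at this
      have k2 := A.1.2.2 k1
      rw [mem_closedBall_zero_iff] at k2 ⊢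
      have := norm_add_le (o - g A.1.1 0) (g A.1.1 0)
      rw [sub_add_cancel] at this
      linarith [dist_of_mem_sq hA]
  rw [e1, ENNReal.ofReal_mul ENNReal.toReal_nonneg, ENNReal.ofReal_toReal hC.cpt.measure_ne_top,
    mul_comm, mul_assoc]
  refine mul_le_mul_right ?_ _
  rw [ENNReal.ofReal_div_of_pos (by positivity), div_eq_mul_inv, mul_right_comm, ← div_eq_mul_inv,
    ENNReal.le_div_iff_mul_le (Or.inl (by simpa using hL.ne')) (Or.inl ENNReal.ofReal_ne_top)]
  exact e2

end Pool.Agent.Lib.MP_fb520c_co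
end
end

-- part Pool.Agent.Lib.MP_fb520c_co.Polar
section

/-! Areas in polar coordinates. -/

set_option autoImplicit false

open MeasureTheory Set Real Filter Topology Metric
open scoped ENNReal

noncomputable section

namespace Pool.Agent.Lib.MP_fb520c_co

/-- the contribution of one ray to the area -/
def ray (S : Set Plane) (θ : ℝ) : ℝ≥0∞ :=
  ∫⁻ ρ in Ioi 0, S.indicator (fun _ => ENNReal.ofReal ρ) (pol ρ θ)

theorem volume_polar {S : Set Plane} (hS : MeasurableSet S) (u : ℝ) :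
    volume S = ∫⁻ θ in Ioo (-π) π, ray S (θ + u) := by
  let Φ : ℝ × ℝ → Plane := fun p => pt (p.1 * cos u - p.2 * sin u) (p.1 * sin u + p.2 * cos u)
  have hΦ : Continuous Φ := by
    simp only [Φ, pt]; fun_prop
  have hS' : MeasurableSet (Φ ⁻¹' S) := hΦ.measurable hS
  have hdet : cos u * cos u - sin u * -sin u = 1 := by linear_combination sin_sq_add_cos_sq u
  have e : lin (cos u) (sin u) (-sin u) (cos u) ⁻¹' (Φ ⁻¹' S) = S := by
    ext z
    have : Φ (lin (cos u) (sin u) (-sin u) (cos u) z) = z := by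
      refine plane_ext ?_ ?_ <;> simp only [Φ, lin, pt_zero, pt_one]
      · linear_combination z 0 * hdet
      · linear_combination z 1 * hdet
    rw [mem_preimage, mem_preimage, this]
  have e2 : ∀ p : ℝ × ℝ, Φ (polarCoord.symm p) = pol p.1 (p.2 + u) := fun p => by
    refine plane_ext ?_ ?_ <;> simp only [Φ, pol, pt_zero, pt_one, polarCoord_symm_apply,
      cos_add, sin_add] <;> ring
  have hm : Measurable fun p : ℝ × ℝ => S.indicator (fun _ => ENNReal.ofReal p.1)
      (pol p.1 (p.2 + u)) := by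
    have hc : Continuous fun p : ℝ × ℝ => pol p.1 (p.2 + u) := by
      simp only [pol, pt]; fun_prop
    have : (fun p : ℝ × ℝ => S.indicator (fun _ => ENNReal.ofReal p.1) (pol p.1 (p.2 + u))) =
        ((fun p : ℝ × ℝ => pol p.1 (p.2 + u)) ⁻¹' S).indicator fun p => ENNReal.ofReal p.1 := by
      ext p
      by_cases h : pol p.1 (p.2 + u) ∈ S <;> simp [h]
    rw [this]
    exact Measurable.indicator (by fun_prop) (hc.measurable hS)
  rw [← e, volume_lin_one hdet hS', e, ← lintegral_indicator_one hS',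
    ← lintegral_comp_polarCoord_symm, polarCoord_target]
  simp only [ray]
  rw [← setLIntegral_prod_symm _ hm.aemeasurable, Measure.volume_eq_prod]
  refine lintegral_congr fun p => ?_
  rw [← e2]
  by_cases h : Φ (polarCoord.symm p) ∈ S
  · rw [indicator_of_mem h, indicator_of_mem (show _ ∈ Φ ⁻¹' S from h)]; simp
  · rw [indicator_of_notMem h, indicator_of_notMem (show _ ∉ Φ ⁻¹' S from h)]; simp

lemma lint_ofReal {G g : ℝ → ℝ} {a b : ℝ} (hab : a ≤ b) (hG : ∀ t ∈ Icc a b, HasDerivAt G (g t) t)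
    (hg : ContinuousOn g (Icc a b)) (h0 : ∀ t ∈ Icc a b, 0 ≤ g t) :
    ∫⁻ t in Ioc a b, ENNReal.ofReal (g t) = ENNReal.ofReal (G b - G a) := by
  rw [← ofReal_integral_eq_lintegral_ofReal
    (hg.integrableOn_Icc.mono_set Ioc_subset_Icc_self)
    ((ae_restrict_iff' measurableSet_Ioc).2 (ae_of_all _ fun x hx => h0 x (Ioc_subset_Icc_self hx))),
    ← intervalIntegral.integral_of_le hab, intervalIntegral.integral_eq_sub_of_hasDerivAt
      (fun t ht => hG t (by rwa [uIcc_of_le hab] at ht))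
      (ContinuousOn.intervalIntegrable (by rwa [uIcc_of_le hab]))]

lemma lint_id {a b : ℝ} (ha : 0 ≤ a) (hb : 0 ≤ b) :
    ∫⁻ t in Ioc a b, ENNReal.ofReal t = ENNReal.ofReal ((b ^ 2 - a ^ 2) / 2) := by
  rcases le_total a b with h | h
  · rw [lint_ofReal (G := fun t => t ^ 2 / 2) (g := fun t => t) h (fun t _ => ((hasDerivAt_pow 2 t).div_const
      2).congr_deriv (by simp)) continuousOn_id fun t ht => ha.trans ht.1]
    congr 1; ring
  · rw [Ioc_eq_empty (not_lt.2 h), Measure.restrict_empty, lintegral_zero_measure,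
      ENNReal.ofReal_of_nonpos (by nlinarith)]

lemma ray_le {S : Set Plane} {θ a b : ℝ} (ha : 0 ≤ a) (hb : 0 ≤ b)
    (h : ∀ ρ, 0 < ρ → pol ρ θ ∈ S → a < ρ ∧ ρ ≤ b) :
    ray S θ ≤ ENNReal.ofReal ((b ^ 2 - a ^ 2) / 2) := by
  rw [← lint_id ha hb, ray, ← lintegral_indicator measurableSet_Ioi,
    ← lintegral_indicator measurableSet_Ioc]
  refine lintegral_mono fun ρ => ?_
  by_cases h1 : ρ ∈ Ioi (0 : ℝ)
  · by_cases h2 : pol ρ θ ∈ S
    · rw [indicator_of_mem h1, indicator_of_mem h2, indicator_of_mem (show ρ ∈ Ioc a b from h ρ h1 h2)]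
    · rw [indicator_of_mem h1, indicator_of_notMem h2]; exact zero_le
  · simp [h1]

lemma ray_eq {S : Set Plane} {θ b : ℝ} (hb : 0 ≤ b) (h : ∀ ρ, 0 < ρ → (pol ρ θ ∈ S ↔ ρ ≤ b)) :
    ray S θ = ENNReal.ofReal (b ^ 2 / 2) := by
  have := lint_id le_rfl hb
  rw [zero_pow two_ne_zero, sub_zero] at this
  rw [← this, ray, ← lintegral_indicator measurableSet_Ioi, ← lintegral_indicator measurableSet_Ioc]
  refine lintegral_congr fun ρ => ?_
  by_cases h1 : 0 < ρ
  · by_cases h2 : ρ ≤ b <;> simp [indicator, h1, h2, h ρ h1]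
  · simp [h1]

lemma lint_add (f : ℝ → ℝ≥0∞) {a b c : ℝ} (h1 : a ≤ b) (h2 : b ≤ c) :
    ∫⁻ t in Ioc a c, f t = (∫⁻ t in Ioc a b, f t) + ∫⁻ t in Ioc b c, f t := by
  rw [← Ioc_union_Ioc_eq_Ioc h1 h2, lintegral_union measurableSet_Ioc (Ioc_disjoint_Ioc_of_le le_rfl)]

lemma lint_twelve {f : ℝ → ℝ≥0∞} (h1 : ∀ t, f (t + π / 3) = f t) (h2 : ∀ t, f (-t) = f t) :
    ∫⁻ t in Ioo (-π) π, f t = 12 * ∫⁻ t in Ioc 0 (π / 6), f t := by
  have hpi := pi_pos
  have sh : ∀ a b, ∫⁻ t in Ioc (a + π / 3) (b + π / 3), f t = ∫⁻ t in Ioc a b, f t := by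
    intro a b
    have := (measurePreserving_add_right volume (π / 3)).setLIntegral_comp_preimage_emb
      (measurableEmbedding_addRight (π / 3)) f (Ioc (a + π / 3) (b + π / 3))
    simp only [h1, preimage_add_const_Ioc, add_sub_cancel_right] at this
    exact this.symm
  have rf : ∀ a b, ∫⁻ t in Ioc (-b) (-a), f t = ∫⁻ t in Ioc a b, f t := by
    intro a b
    have := (Measure.measurePreserving_neg (volume : Measure ℝ)).setLIntegral_comp_preimage_emb
      (measurableEmbedding_neg) f (Ioc (-b) (-a))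
    simp only [h2, neg_preimage, neg_Ioc, neg_neg] at this
    rw [← this, Measure.restrict_congr_set Ico_ae_eq_Ioc]
  have a1 : ∫⁻ t in Ioc (-(π / 3)) 0, f t = ∫⁻ t in Ioc 0 (π / 3), f t := by
    simpa using rf 0 (π / 3)
  have a2 : ∫⁻ t in Ioc 0 (π / 3), f t = 2 * ∫⁻ t in Ioc 0 (π / 6), f t := by
    have := sh (-(π / 6)) 0
    rw [show -(π / 6) + π / 3 = π / 6 by ring, zero_add] at this
    rw [lint_add f (b := π / 6) (by linarith) (by linarith), this, two_mul]
    simpa using congrArg (_ + ·) (rf 0 (π / 6))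
  have a3 := sh 0 (π / 3)
  have a4 := sh (0 + π / 3) (π / 3 + π / 3)
  have a5 : ∫⁻ t in Ioc 0 π, f t = 3 * ∫⁻ t in Ioc 0 (π / 3), f t := by
    rw [lint_add f (b := π / 3) (by linarith) (by linarith),
      lint_add f (a := π / 3) (b := π / 3 + π / 3) (by linarith) (by linarith)]
    rw [a3, zero_add, show π / 3 + π / 3 + π / 3 = π by ring] at a4
    rw [zero_add] at a3
    rw [a3, a4]
    ring
  have a6 : ∫⁻ t in Ioc (-π) 0, f t = ∫⁻ t in Ioc 0 π, f t := by simpa using rf 0 π
  rw [Measure.restrict_congr_set Ioo_ae_eq_Ioc, lint_add f (b := 0) (by linarith) (by linarith),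
    a6, a5, a2]
  ring

end Pool.Agent.Lib.MP_fb520c_co
end
end

-- part Pool.Agent.Lib.MP_fb520c_co.Kersh
section

/-! The bound of Kershner for coverings by discs. -/

set_option autoImplicit false

open MeasureTheory Set Real Filter Topology Metric
open scoped ENNReal

noncomputable section

namespace Pool.Agent.Lib.MP_fb520c_co

/-- the constant charged to each side -/
def lam : ℝ := √3 / 4 - π / 12

lemma lam_ge : 1 / 6 ≤ lam := by
  have h1 : 1.73 < √3 := Real.lt_sqrt_of_sq_lt (by norm_num)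
  have := pi_lt_d2
  unfold lam
  linarith

lemma sin_tangent {x : ℝ} (h0 : 0 ≤ x) (h1 : x ≤ π) : sin x - x / 2 ≤ √3 / 2 - π / 6 := by
  have hpi := pi_pos
  have hG : ∀ t, HasDerivAt (fun t => sin t - t / 2) (cos t - 1 / 2) t := fun t =>
    (hasDerivAt_sin t).sub ((hasDerivAt_id' t).div_const 2)
  rcases le_total x (π / 3) with h | h
  · have := le_of_deriv hG h fun t ht => by
      have := cos_le_cos_of_nonneg_of_le_pi (h0.trans ht.1) (by linarith) ht.2
      rw [cos_pi_div_three] at this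
      linarith
    rw [sin_pi_div_three] at this
    linarith
  · have := le_of_deriv (fun t => (hG t).neg) h fun t ht => by
      have := cos_le_cos_of_nonneg_of_le_pi (by linarith) (ht.2.trans h1) ht.1
      rw [cos_pi_div_three] at this
      linarith
    simp only [Pi.neg_apply, sin_pi_div_three] at this
    linarith

/-- the part of a triangle outside the middle disc -/
def wedge (u d R : ℝ) : Set Plane :=
  {z | 0 < ip z u ∧ ip z u < d ∧ ‖z‖ * d ≤ R * ip z u ∧ R ^ 2 / 2 < ‖z‖ ^ 2}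

lemma volume_wedge (u d : ℝ) {R : ℝ} (hR : 0 < R) :
    volume (wedge u d R) ≤ ENNReal.ofReal (lam * R ^ 2) := by
  have hpi := pi_pos
  by_cases hd : 0 < d ∧ d ≤ R
  swap
  · have : wedge u d R = ∅ := eq_empty_of_forall_notMem fun z ⟨h1, h2, h3, _⟩ => hd ⟨by linarith, by
      have k := (le_abs_self _).trans (abs_ip_le z u)
      have : ‖z‖ * d ≤ ‖z‖ * R := by nlinarith
      exact le_of_mul_le_mul_left this (by linarith)⟩
    simp [this]
  obtain ⟨hd0, hdR⟩ := hd
  obtain ⟨ω, ω0, ω1, rfl⟩ : ∃ ω : ℝ, 0 ≤ ω ∧ ω < π / 2 ∧ d = R * cos ω := by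
    refine ⟨arccos (d / R), arccos_nonneg _, arccos_lt_pi_div_two.2 (by positivity), ?_⟩
    rw [cos_arccos (by have : 0 < d / R := by positivity
                       linarith) ((div_le_one hR).2 hdR)]
    field_simp
  have cω : 0 < cos ω := cos_pos_of_mem_Ioo ⟨by linarith, ω1⟩
  have hcos : ∀ t ∈ Icc (-ω) ω, cos ω ≤ cos t := fun t ht => by
    rw [← cos_abs t]
    exact cos_le_cos_of_nonneg_of_le_pi (abs_nonneg _) (by linarith) (abs_le.2 ht)
  have hm : MeasurableSet (wedge u (R * cos ω) R) := by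
    have := continuous_ip u
    exact (measurableSet_lt measurable_const this.measurable).inter
      ((measurableSet_lt this.measurable measurable_const).inter
      ((measurableSet_le (measurable_norm.mul_const _) (this.measurable.const_mul _)).inter
        (measurableSet_lt measurable_const (measurable_norm.pow_const 2))))
  have key : volume (wedge u (R * cos ω) R) ≤ ∫⁻ t in Ioc (-ω) ω,
      ENNReal.ofReal (R ^ 2 * (cos ω ^ 2 / cos t ^ 2 / 2 - 1 / 4)) := by
    rw [volume_polar hm u, Measure.restrict_congr_set Ioc_ae_eq_Icc,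
      ← lintegral_indicator measurableSet_Icc, ← lintegral_indicator measurableSet_Ioo]
    refine lintegral_mono fun t => ?_
    by_cases h1 : t ∈ Ioo (-π) π
    swap
    · rw [indicator_of_notMem h1]; exact zero_le
    rw [indicator_of_mem h1]
    have e : ∀ ρ, ip (pol ρ (t + u)) u = ρ * cos t := fun ρ => by
      rw [ip_pol, show u - (t + u) = -t by ring, cos_neg]
    by_cases h2 : t ∈ Icc (-ω) ω
    · have ct : 0 < cos t := cω.trans_le (hcos t h2)
      rw [indicator_of_mem h2]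
      refine (ray_le (a := √(R ^ 2 / 2)) (b := R * cos ω / cos t) (sqrt_nonneg _) (by positivity)
        fun ρ hρ hk => ⟨?_, ?_⟩).trans (le_of_eq ?_)
      · have k4 := hk.2.2.2
        rw [norm_pol, sq_abs] at k4
        exact (sqrt_lt' hρ).2 k4
      · have k2 := hk.2.1
        rw [e] at k2
        exact (le_div_iff₀ ct).2 k2.le
      · rw [sq_sqrt (by positivity)]
        congr 1
        field_simp
        ring
    · rw [indicator_of_notMem h2]
      refine (ray_le (a := 0) (b := 0) le_rfl le_rfl fun ρ hρ hk => ?_).trans (by simp)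
      exfalso
      have k3 := hk.2.2.1
      rw [e, norm_pol, abs_of_pos hρ] at k3
      have : cos ω ≤ cos |t| := by
        rw [cos_abs]
        exact le_of_mul_le_mul_left (a := ρ * R) (by linarith) (by positivity)
      exact h2 (abs_le.1 (not_lt.1 fun hlt => absurd this (not_le.2
        (cos_lt_cos_of_nonneg_of_le_pi ω0 (abs_lt.2 h1).le hlt))))
  refine key.trans ?_
  have hne : ∀ t ∈ Icc (-ω) ω, cos t ≠ 0 := fun t ht => (cω.trans_le (hcos t ht)).ne'
  have hsc := sin_sq_add_cos_sq ω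
  rcases le_total ω (π / 4) with h4 | h4
  · have c2 : 1 / 2 ≤ cos ω ^ 2 := by
      have := cos_nonneg_of_mem_Icc (x := 2 * ω) ⟨by linarith, by linarith⟩
      rw [cos_two_mul] at this
      linarith
    rw [lint_ofReal (G := fun t => R ^ 2 * (cos ω ^ 2 * tan t / 2 - t / 4))
      (g := fun t => R ^ 2 * (cos ω ^ 2 / cos t ^ 2 / 2 - 1 / 4)) (by linarith)
      (fun t ht => (((((hasDerivAt_tan (hne t ht)).const_mul _).div_const 2).sub
        ((hasDerivAt_id' t).div_const 4)).const_mul _).congr_deriv (by ring))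
      (continuousOn_const.mul (((continuousOn_const.div (continuous_cos.pow 2).continuousOn
        fun t ht => pow_ne_zero 2 (hne t ht)).div_const 2).sub continuousOn_const))
      (fun t ht => mul_nonneg (sq_nonneg _) (by
        have : 1 / 2 ≤ cos ω ^ 2 / cos t ^ 2 := by
          rw [le_div_iff₀ (pow_pos (cω.trans_le (hcos t ht)) 2)]
          linarith [cos_sq_le_one t]
        linarith))]
    refine ENNReal.ofReal_le_ofReal ?_
    have := sin_tangent (x := 2 * ω) (by linarith) (by linarith)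
    rw [sin_two_mul] at this
    have e : cos ω ^ 2 * tan ω = sin ω * cos ω := by rw [← tan_mul_cos cω.ne']; ring
    rw [tan_neg, mul_neg, e, ← mul_sub, mul_comm lam]
    refine mul_le_mul_of_nonneg_left ?_ (sq_nonneg _)
    unfold lam
    linarith
  · have sω : 0 < sin ω := sin_pos_of_pos_of_lt_pi (by linarith) (by linarith)
    have c2 : cos ω ^ 2 ≤ 1 / 2 := by
      have := cos_nonpos_of_pi_div_two_le_of_le (x := 2 * ω) (by linarith) (by linarith)
      rw [cos_two_mul] at this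
      linarith
    refine (setLIntegral_mono' (g := fun t => ENNReal.ofReal
      (R ^ 2 * (cos ω ^ 4 / sin ω ^ 2 / 2) * (tan t ^ 2 / cos t ^ 2))) measurableSet_Ioc
      fun t ht => ENNReal.ofReal_le_ofReal ?_).trans ?_
    · have ht' := Ioc_subset_Icc_self ht
      have ct : 0 < cos t := cω.trans_le (hcos t ht')
      have h5 : cos ω ^ 2 ≤ cos t ^ 2 := pow_le_pow_left₀ cω.le (hcos t ht') 2
      rw [mul_assoc]
      refine mul_le_mul_of_nonneg_left ?_ (sq_nonneg _)
      rw [tan_eq_sin_div_cos, div_pow, sin_sq t, sin_sq ω, show cos ω ^ 4 = (cos ω ^ 2) ^ 2 by ring]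
      have h6 := cos_sq_le_one t
      have h7 := pow_pos cω 2
      generalize cos ω ^ 2 = c at *
      generalize cos t ^ 2 = x at *
      have hx : 0 < x := by linarith
      have hc : 0 < 1 - c := by linarith
      rw [← sub_nonneg]
      have : c ^ 2 / (1 - c) / 2 * ((1 - x) / x / x) - (c / x / 2 - 1 / 4) =
          (2 * c ^ 2 * (1 - x) - 2 * c * x * (1 - c) + x ^ 2 * (1 - c)) / (4 * (1 - c) * x ^ 2) := by
        field_simp
        ring
      rw [this]
      refine div_nonneg ?_ (by positivity)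
      nlinarith [sq_nonneg (x - 2 * c), sq_nonneg (x - c), mul_nonneg h7.le (sub_nonneg.2 h6),
        mul_nonneg (sub_nonneg.2 c2) (sq_nonneg x), mul_nonneg (sub_nonneg.2 c2) (sq_nonneg (x - c))]
    · rw [lint_ofReal (G := fun t => R ^ 2 * (cos ω ^ 4 / sin ω ^ 2 / 2) * (tan t ^ 3 / 3))
        (g := fun t => R ^ 2 * (cos ω ^ 4 / sin ω ^ 2 / 2) * (tan t ^ 2 / cos t ^ 2))
        (by linarith) (fun t ht => ((((hasDerivAt_tan (hne t ht)).pow 3).div_const 3).const_mul
          _).congr_deriv (by push_cast; ring))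
        (continuousOn_const.mul (((continuousOn_tan.mono hne).pow 2).div
          (continuous_cos.pow 2).continuousOn fun t ht => pow_ne_zero 2 (hne t ht)))
        (fun t _ => by positivity)]
      refine ENNReal.ofReal_le_ofReal ?_
      have e : R ^ 2 * (cos ω ^ 4 / sin ω ^ 2 / 2) * (tan ω ^ 3 / 3) -
          R ^ 2 * (cos ω ^ 4 / sin ω ^ 2 / 2) * (tan (-ω) ^ 3 / 3) = sin ω * cos ω / 3 * R ^ 2 := by
        rw [tan_neg, tan_eq_sin_div_cos]
        field_simp
        ring
      rw [e]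
      refine mul_le_mul_of_nonneg_right ?_ (sq_nonneg _)
      nlinarith [lam_ge, sq_nonneg (sin ω - cos ω)]

lemma volume_poly_le {S : Finset (Plane × ℝ)} (hS : ∀ h ∈ S, h.1 ≠ 0) {c : Plane} {R : ℝ}
    (hR : 0 < R) (h : poly S ⊆ closedBall c R) :
    volume (poly S) ≤ ENNReal.ofReal (π / 2 * R ^ 2 + S.card * (lam * R ^ 2)) := by
  let g := IsometryEquiv.addLeft c
  have hu : ∀ y : S, ∃ u d : ℝ, ∀ z, fv y.1.1 (g z) < y.1.2 ↔ ip z u < d := by
    intro y
    obtain ⟨ρ, u, hρ, e⟩ := fv_isometry g (hS y.1 y.2)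
    refine ⟨u, (y.1.2 - fv y.1.1 (g 0)) / ρ, fun z => ?_⟩
    rw [e z, lt_div_iff₀ hρ]
    constructor <;> intro <;> linarith
  choose u d hu using hu
  have hP : ∀ z, z ∈ g ⁻¹' poly S ↔ ∀ y, ip z (u y) < d y := fun z =>
    ⟨fun k y => (hu y z).1 (k y.1 y.2), fun k y hy => (hu ⟨y, hy⟩ z).2 (k _)⟩
  have hb : ∀ z ∈ g ⁻¹' poly S, ‖z‖ < R := by
    intro z hz
    have := interior_maximal h (isOpen_poly S) hz
    rw [interior_closedBall c hR.ne'] at this
    simpa [g] using this
  have hsub : g ⁻¹' poly S ⊆ closedBall 0 √(R ^ 2 / 2) ∪ ⋃ y, wedge (u y) (d y) R := by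
    intro z hz
    by_cases h1 : ‖z‖ ≤ √(R ^ 2 / 2)
    · exact Or.inl (mem_closedBall_zero_iff.2 h1)
    have hz0 : 0 < ‖z‖ := (sqrt_nonneg _).trans_lt (not_le.1 h1)
    refine Or.inr ?_
    by_contra hn
    simp only [mem_iUnion, not_exists, wedge, mem_ofPred_eq, not_and] at hn
    have ht : 1 < R / ‖z‖ := (one_lt_div hz0).2 (hb z hz)
    have : (R / ‖z‖) • z ∈ g ⁻¹' poly S := by
      rw [hP] at hz ⊢
      intro y
      have e : ip ((R / ‖z‖) • z) (u y) = R / ‖z‖ * ip z (u y) := by simp [ip]; ring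
      rw [e]
      rcases le_or_gt (ip z (u y)) 0 with k | k
      · nlinarith [hz y]
      · rw [div_mul_eq_mul_div, div_lt_iff₀ hz0]
        by_contra k2
        exact hn y k (hz y) (by linarith) ((sqrt_lt' hz0).1 (not_le.1 h1))
    have := hb _ this
    rw [norm_smul, Real.norm_eq_abs, abs_of_pos (by linarith), div_mul_cancel₀ _ hz0.ne'] at this
    exact lt_irrefl _ this
  have hl : 0 ≤ lam * R ^ 2 := mul_nonneg (by linarith [lam_ge]) (sq_nonneg _)
  rw [← volume_isometry_preimage g (isOpen_poly S).measurableSet,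
    ENNReal.ofReal_add (by positivity) (by positivity)]
  refine (measure_mono hsub).trans ((measure_union_le _ _).trans (add_le_add (le_of_eq ?_)
    ((measure_iUnion_fintype_le _ _).trans ?_)))
  · rw [volume_closedBall_eq _ _ (sqrt_nonneg _), sq_sqrt (by positivity)]
    congr 1; ring
  · refine (Finset.sum_le_card_nsmul _ _ _ fun y _ => volume_wedge _ _ hR).trans (le_of_eq ?_)
    rw [ENNReal.ofReal_mul (Nat.cast_nonneg _)]
    simp

lemma volume_line {v : Plane} (hv : v ≠ 0) (a : ℝ) : volume {z | fv v z = a} = 0 := by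
  have h : v 0 * v 0 - v 1 * -v 1 ≠ 0 := fun h => hv (by
    rw [← norm_eq_zero, ← sq_eq_zero_iff, norm_sq_eq]; linarith)
  have e : {z | fv v z = a} = lin (v 0) (v 1) (-v 1) (v 0) ⁻¹' ({a} ×ˢ univ) := by
    ext z; simp [fv, lin]
  rw [e, volume_lin h ((measurableSet_singleton a).prod MeasurableSet.univ), Measure.volume_eq_prod,
    Measure.prod_prod]
  simp

theorem kershner_local (T : Finset Plane) {o : Plane} {L R : ℝ} (hL : 0 < L) (hR : 0 < R)
    (h : ∀ z ∈ sq o L, ∃ c ∈ T, ‖z - c‖ ≤ R) :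
    4 * L ^ 2 ≤ T.card * (3 * √3 / 2 * R ^ 2) + 12 * (lam * R ^ 2) := by
  classical
  let k : Plane → ℝ := fun c => (c 0 ^ 2 + c 1 ^ 2) / 2
  let V : Plane → Set Plane := fun c => sq o L ∩ ⋂ c' ∈ T, ⋂ (_ : c' ≠ c),
    {z | fv (c' - c) z < k c' - k c}
  have hV : ∀ c z, z ∈ V c ↔ z ∈ sq o L ∧ ∀ c' ∈ T, c' ≠ c → fv (c' - c) z < k c' - k c := by
    intro c z; simp [V]
  let N : Set Plane := ⋃ c ∈ T, ⋃ c' ∈ T, ⋃ (_ : c' ≠ c), {z | fv (c' - c) z = k c' - k c}
  have hN : volume N = 0 := by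
    refine (measure_biUnion_null_iff T.countable_toSet).2 fun c _ =>
      (measure_biUnion_null_iff T.countable_toSet).2 fun c' _ => measure_iUnion_null fun hc =>
        volume_line (sub_ne_zero.2 hc) _
  have hcov : ∀ z ∈ sq o L, z ∉ N → ∃ c ∈ T, z ∈ V c := by
    intro z hz hzN
    obtain ⟨c, hc, hmin⟩ := T.exists_min_image (fun c => k c - fv c z)
      (let ⟨c, hc, _⟩ := h z hz; ⟨c, hc⟩)
    refine ⟨c, hc, (hV c z).2 ⟨hz, fun c' hc' hne => lt_of_le_of_ne ?_ fun e => hzN ?_⟩⟩
    · have := hmin c' hc'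
      simp only [fv, PiLp.sub_apply] at this ⊢
      linarith
    · simp only [N, mem_iUnion]
      exact ⟨c, hc, c', hc', hne, e⟩
  have hVb : ∀ c, V c ⊆ closedBall c R := by
    intro c z hz
    rw [hV] at hz
    obtain ⟨c', hc', hzc⟩ := h z hz.1
    rw [mem_closedBall, dist_eq_norm]
    by_cases e : c' = c
    · rwa [← e]
    refine le_trans (abs_le_of_sq_le_sq' ?_ (norm_nonneg _)).2 hzc
    have := hz.2 c' hc' e
    simp only [norm_sq_eq, fv, PiLp.sub_apply, k] at this ⊢
    linarith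
  obtain ⟨S, h1, h2, h3, h4⟩ := exists_polygons (ι := {c : T // (V c).Nonempty}) o hL
    (fun i => V i.1.1) ⟨fun i => ⟨(isOpen_sq _ _).inter (isOpen_biInter_finset fun c' _ =>
      isOpen_iInter_of_finite fun _ => isOpen_lt (continuous_fv _) continuous_const),
      (convex_sq _ _).inter (convex_iInter₂ fun c' _ => convex_iInter fun _ => convex_half _ _),
      inter_subset_left⟩, fun i j hij => Set.disjoint_left.2 fun z k1 k2 => by
        have hne : i.1.1 ≠ j.1.1 := fun e => hij (Subtype.ext (Subtype.ext e))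
        have q1 := ((hV _ _).1 k1).2 _ j.1.2 hne.symm
        have q2 := ((hV _ _).1 k2).2 _ i.1.2 hne
        simp only [fv, PiLp.sub_apply] at q1 q2
        linarith⟩ fun i => i.2
  have hball : ∀ i, poly (S i) ⊆ closedBall i.1.1 R := by
    intro i
    have : poly (S i) \ closedBall i.1.1 R = ∅ := by
      refine ((isOpen_poly _).sdiff isClosed_closedBall).eq_empty_of_measure_zero (μ := volume)
        (measure_mono_null (fun z hz => ?_) hN)
      by_contra hzN
      obtain ⟨c, hc, hzc⟩ := hcov z ((h2.1 i).2.2 hz.1) hzN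
      by_cases e : (⟨⟨c, hc⟩, z, hzc⟩ : {c : T // (V c).Nonempty}) = i
      · subst e; exact hz.2 (hVb c hzc)
      · exact Set.disjoint_left.1 (h2.2 _ _ e) (h1 _ hzc) hz.1
    exact sdiff_eq_empty.1 this
  have hsub : sq o L ⊆ N ∪ ⋃ i, poly (S i) := by
    intro z hz
    by_cases hzN : z ∈ N
    · exact Or.inl hzN
    · obtain ⟨c, hc, hzc⟩ := hcov z hz hzN
      exact Or.inr (mem_iUnion.2 ⟨⟨⟨c, hc⟩, z, hzc⟩, h1 _ hzc⟩)
  have hl : 0 ≤ lam * R ^ 2 := mul_nonneg (by linarith [lam_ge]) (sq_nonneg _)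
  have := (measure_mono hsub).trans ((measure_union_le (μ := volume) _ _).trans (add_le_add hN.le
    ((measure_iUnion_fintype_le _ _).trans (Finset.sum_le_sum fun i _ =>
      volume_poly_le (h3 i) hR (hball i)))))
  rw [zero_add, volume_sq o hL.le, ← ENNReal.ofReal_sum_of_nonneg (fun i _ => by positivity),
    ENNReal.ofReal_le_ofReal_iff (Finset.sum_nonneg fun i _ => by positivity),
    Finset.sum_add_distrib, ← Finset.sum_mul _ _ (lam * R ^ 2), Finset.sum_const, Finset.card_univ,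
    nsmul_eq_mul, ← Nat.cast_sum] at this
  have c1 : (Fintype.card {c : T // (V c).Nonempty} : ℝ) ≤ T.card := by
    exact_mod_cast (Fintype.card_subtype_le _).trans (Fintype.card_coe T).le
  have c2 : ((∑ i, (S i).card : ℕ) : ℝ) ≤ 6 * (T.card + 2) := by
    have : ((∑ i, (S i).card : ℕ) : ℝ) ≤ 6 * (Fintype.card {c : T // (V c).Nonempty} + 2) := by
      exact_mod_cast h4
    linarith
  have q1 := mul_le_mul_of_nonneg_right c1 (show 0 ≤ π / 2 * R ^ 2 by positivity)
  have q2 := mul_le_mul_of_nonneg_right c2 hl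
  have e : (T.card : ℝ) * (π / 2 * R ^ 2) + 6 * (T.card + 2) * (lam * R ^ 2) =
      T.card * (3 * √3 / 2 * R ^ 2) + 12 * (lam * R ^ 2) := by unfold lam; ring
  linarith

end Pool.Agent.Lib.MP_fb520c_co
end
end

-- part Pool.Agent.Lib.MP_fb520c_co.Latt
section

/-! Lattice arrangements. -/

set_option autoImplicit false

open MeasureTheory Set Real Filter Topology Metric
open scoped ENNReal

noncomputable section

namespace Pool.Agent.Lib.MP_fb520c_co

/-- a lattice point -/
def lp (p q : Plane) (k : ℤ × ℤ) : Plane := (k.1 : ℝ) • p + (k.2 : ℝ) • q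

/-- a lattice translate -/
def tr (p q : Plane) (C : Set Plane) (k : ℤ × ℤ) : Set Plane := (fun z => lp p q k + z) '' C

/-- the family of lattice translates -/
def lat (p q : Plane) (C : Set Plane) : Set (Set Plane) :=
  {A | ∃ m n : ℤ, A = (fun z => (m : ℝ) • p + (n : ℝ) • q + z) '' C}

/-- coordinates with respect to a basis -/
def co (p q : Plane) : Plane → ℝ × ℝ :=
  lin (q 1 / dt p q) (-q 0 / dt p q) (-p 1 / dt p q) (p 0 / dt p q)

/-- a cell of the lattice -/
def cell (p q : Plane) (k : ℤ × ℤ) : Set Plane :=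
  co p q ⁻¹' (Ico (k.1 : ℝ) (k.1 + 1) ×ˢ Ico (k.2 : ℝ) (k.2 + 1))

lemma mem_lat {p q : Plane} {C A : Set Plane} : A ∈ lat p q C ↔ ∃ k, A = tr p q C k :=
  ⟨fun ⟨m, n, h⟩ => ⟨(m, n), h⟩, fun ⟨k, h⟩ => ⟨k.1, k.2, h⟩⟩

lemma eq_co {p q : Plane} (h : dt p q ≠ 0) (z : Plane) :
    z = (co p q z).1 • p + (co p q z).2 • q := by
  refine plane_ext ?_ ?_ <;> simp only [co, lin, PiLp.add_apply, PiLp.smul_apply, smul_eq_mul] <;>
    field_simp <;> simp only [dt] <;> ring

lemma measurableSet_cell (p q : Plane) (k : ℤ × ℤ) : MeasurableSet (cell p q k) :=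
  (continuous_lin _ _ _ _).measurable (measurableSet_Ico.prod measurableSet_Ico)

lemma volume_cell {p q : Plane} (h : 0 < dt p q) (k : ℤ × ℤ) :
    volume (cell p q k) = ENNReal.ofReal (dt p q) := by
  have e : q 1 / dt p q * (p 0 / dt p q) - -q 0 / dt p q * (-p 1 / dt p q) = (dt p q)⁻¹ := by
    field_simp
    simp only [dt]; ring
  rw [cell, co, volume_lin (by rw [e]; positivity) (measurableSet_Ico.prod measurableSet_Ico), e,
    Measure.volume_eq_prod, Measure.prod_prod, Real.volume_Ico, Real.volume_Ico, inv_inv,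
    abs_of_pos h]
  simp

lemma mem_cell {p q z : Plane} {k : ℤ × ℤ} :
    z ∈ cell p q k ↔ (⌊(co p q z).1⌋, ⌊(co p q z).2⌋) = k := by
  simp only [cell, mem_preimage, mem_prod, mem_Ico, Prod.ext_iff, Int.floor_eq_iff]

lemma near_of_mem_cell {p q z : Plane} (h : dt p q ≠ 0) {k : ℤ × ℤ} (hz : z ∈ cell p q k) :
    ‖z - lp p q k‖ ≤ ‖p‖ + ‖q‖ := by
  have e : z - lp p q k = ((co p q z).1 - k.1) • p + ((co p q z).2 - k.2) • q := by
    conv_lhs => rw [eq_co h z]
    simp only [lp, sub_smul]; abel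
  obtain ⟨⟨h1, h2⟩, h3, h4⟩ := hz
  rw [e]
  refine (norm_add_le _ _).trans (add_le_add ?_ ?_) <;> rw [norm_smul] <;>
    refine mul_le_of_le_one_left (norm_nonneg _) (abs_le.2 ⟨by linarith, by linarith⟩)

lemma tr_eq (p q : Plane) (C : Set Plane) (k : ℤ × ℤ) :
    tr p q C k = IsometryEquiv.addLeft (lp p q k) '' C := rfl

lemma lat_congr (p q : Plane) (C : Set Plane) : IsCongruentFamily C (lat p q C) := by
  intro A hA
  obtain ⟨k, rfl⟩ := mem_lat.1 hA
  exact ⟨_, tr_eq p q C k⟩

lemma lat_lattice {p q : Plane} (h : dt p q ≠ 0) (C : Set Plane) :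
    IsLatticeFamily C (lat p q C) := by
  refine ⟨p, q, LinearIndependent.pair_iff.2 fun s t hst => ?_, rfl⟩
  have h0 := congrArg (fun z : Plane => z 0) hst
  have h1 := congrArg (fun z : Plane => z 1) hst
  simp only [PiLp.add_apply, PiLp.smul_apply, smul_eq_mul, PiLp.zero_apply] at h0 h1
  refine ⟨mul_right_cancel₀ h ?_, mul_right_cancel₀ h ?_⟩ <;> simp only [dt]
  · linear_combination q 1 * h0 - q 0 * h1
  · linear_combination p 0 * h1 - p 1 * h0

lemma tsum_cell {p q : Plane} (h : 0 < dt p q) (T : Set (ℤ × ℤ)) {C : Set Plane}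
    (hC : IsCompact C) : ∑' k : T, volume (tr p q C k) =
      ENNReal.ofReal ((volume C).toReal / dt p q) * volume (⋃ k : T, cell p q k) := by
  rw [measure_iUnion (fun i j hij => Set.disjoint_left.2 fun z h1 h2 =>
    hij (Subtype.ext ((mem_cell.1 h1).symm.trans (mem_cell.1 h2))))
    fun k => measurableSet_cell _ _ _, ← ENNReal.tsum_mul_left]
  refine tsum_congr fun k => ?_
  rw [tr_eq, volume_isometry_image _ hC.measurableSet, volume_cell h,
    ← ENNReal.ofReal_mul (by positivity), div_mul_cancel₀ _ h.ne',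
    ENNReal.ofReal_toReal hC.measure_ne_top]

lemma lat_upper {p q : Plane} (h : 0 < dt p q) {C : Set Plane} (hC : IsCompact C)
    (hne : C.Nonempty) : upperDensity (lat p q C) ≤ ENNReal.ofReal ((volume C).toReal / dt p q) := by
  obtain ⟨y, hy⟩ := hne
  refine upper_le ENNReal.ofReal_ne_top (‖y‖ + (‖p‖ + ‖q‖)) fun r _ => ?_
  let T : Set (ℤ × ℤ) := {k | tr p q C k ⊆ closedBall 0 r}
  let F : T → {A : Set Plane // A ∈ lat p q C ∧ A ⊆ closedBall 0 r} :=
    fun k => ⟨tr p q C k, mem_lat.2 ⟨k, rfl⟩, k.2⟩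
  have hF : Function.Surjective F := by
    rintro ⟨A, hA, hA'⟩
    obtain ⟨k, rfl⟩ := mem_lat.1 hA
    exact ⟨⟨k, hA'⟩, rfl⟩
  refine (ENNReal.tsum_le_tsum_comp_of_surjective hF _).trans ?_
  refine (tsum_cell h T hC).trans_le (mul_le_mul_right (measure_mono (iUnion_subset ?_)) _)
  intro k z hz
  have k1 := near_of_mem_cell h.ne' hz
  have k2 := k.2 ⟨y, hy, rfl⟩
  rw [mem_closedBall_zero_iff] at k2 ⊢
  have k3 := norm_add_le (z - lp p q k) (lp p q k + y - y)
  have k4 := norm_sub_le (lp p q k + y) y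
  rw [show z - lp p q k + (lp p q k + y - y) = z by abel] at k3
  linarith

lemma lat_lower {p q : Plane} (h : 0 < dt p q) {C : Set Plane} (hC : IsCompact C)
    (hinj : Function.Injective (tr p q C)) :
    ENNReal.ofReal ((volume C).toReal / dt p q) ≤ lowerDensity (lat p q C) := by
  obtain ⟨M, -, hM⟩ := hC.isBounded.exists_pos_norm_le
  refine le_lower (M + (‖p‖ + ‖q‖)) fun r _ => ?_
  let T : Set (ℤ × ℤ) := {k | tr p q C k ⊆ closedBall 0 r}
  let F : T → {A : Set Plane // A ∈ lat p q C ∧ A ⊆ closedBall 0 r} :=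
    fun k => ⟨tr p q C k, mem_lat.2 ⟨k, rfl⟩, k.2⟩
  have hF : Function.Injective F := fun k k' e => Subtype.ext (hinj (congrArg Subtype.val e))
  refine le_trans ?_ (ENNReal.tsum_comp_le_tsum_of_injective hF _)
  refine (mul_le_mul_right (measure_mono fun z hz => ?_) _).trans_eq (tsum_cell h T hC).symm
  have k0 : z ∈ cell p q (⌊(co p q z).1⌋, ⌊(co p q z).2⌋) := mem_cell.2 rfl
  refine mem_iUnion.2 ⟨⟨_, ?_⟩, k0⟩
  rintro _ ⟨y, hy, rfl⟩
  have k1 := near_of_mem_cell h.ne' k0
  generalize lp p q (⌊(co p q z).1⌋, ⌊(co p q z).2⌋) = v at k1 ⊢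
  rw [mem_closedBall_zero_iff] at hz ⊢
  have k3 := norm_add_le v y
  have k4 := norm_sub_le z (z - v)
  rw [sub_sub_cancel] at k4
  linarith [hM y hy]

lemma Sym0.combo {C : Set Plane} (hC : Sym0 C) {u v t : Plane} (hu : u ∈ C) (hv : v ∈ C)
    (ht : t ∈ C) {x y z : ℝ} (h : |x| + |y| + |z| ≤ 1) : x • u + y • v + z • t ∈ C := by
  have h0 : (0 : Plane) ∈ C := by
    obtain ⟨ε, h, h'⟩ := hC.int
    exact h' (mem_closedBall_self h.le)
  have sg : ∀ (a : ℝ) (w : Plane), w ∈ C → ∃ w' ∈ C, a • w = |a| • w' := fun a w hw => by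
    rcases abs_cases a with k | k
    · exact ⟨w, hw, by rw [k.1]⟩
    · exact ⟨-w, hC.sym w hw, by rw [k.1]; simp⟩
  obtain ⟨u', hu', e1⟩ := sg x u hu
  obtain ⟨v', hv', e2⟩ := sg y v hv
  obtain ⟨t', ht', e3⟩ := sg z t ht
  have := hC.cvx.sum_mem (t := Finset.univ) (w := ![|x|, |y|, |z|, 1 - (|x| + |y| + |z|)])
    (z := ![u', v', t', 0]) (fun i _ => by fin_cases i <;> simp; linarith)
    (by simp [Fin.sum_univ_four]) (fun i _ => by fin_cases i <;> simp [*])
  rw [e1, e2, e3]
  simpa [Fin.sum_univ_four] using this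

lemma Sym0.tri {C : Set Plane} (hC : Sym0 C) {u v t : Plane} (hu : u ∈ C) (hv : v ∈ C)
    (ht : t ∈ C) (ha : 0 ≤ dt u v) (hb : 0 ≤ dt v t) (hc : 0 ≤ dt u t) (hd : 0 < hform u v t)
    {x y : ℝ} (hx : 0 ≤ x) (hy : 0 ≤ y) (hxy : x + y ≤ 1) :
    ∃ k, x • (u + v) + y • (v + t) - lp (u + v) (v + t) k ∈ C := by
  set d := hform u v t with hdd
  obtain ⟨a, b, c, a0, b0, c0, habc, hv'⟩ : ∃ a b c : ℝ, 0 ≤ a ∧ 0 ≤ b ∧ 0 ≤ c ∧ a + b + c = 1 ∧
      v = b • (u + v) + a • (v + t) := by
    refine ⟨dt u v / d, dt v t / d, dt u t / d, by positivity, by positivity, by positivity,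
      by field_simp; rfl, plane_ext ?_ ?_⟩ <;>
    simp only [PiLp.add_apply, PiLp.smul_apply, smul_eq_mul] <;> field_simp <;>
    simp only [hdd, hform, dt] <;> ring
  obtain ⟨μ, ⟨μ0, μ1⟩, hμ⟩ : ∃ μ ∈ Icc (0 : ℝ) 1,
      min (1 - x - y - μ * c) (min (x - μ * b) (y - μ * a)) = 0 := by
    refine intermediate_value_Icc' zero_le_one (f := fun μ : ℝ =>
      min (1 - x - y - μ * c) (min (x - μ * b) (y - μ * a))) (by fun_prop) ⟨?_, ?_⟩
    · by_contra hlt
      simp only [not_le, lt_min_iff] at hlt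
      linarith [hlt.1, hlt.2.1, hlt.2.2]
    · simp only [le_min_iff]
      exact ⟨by linarith, by linarith, by linarith⟩
  obtain ⟨r0, s0, t0⟩ : 0 ≤ 1 - x - y - μ * c ∧ 0 ≤ x - μ * b ∧ 0 ≤ y - μ * a := by
    simpa only [le_min_iff] using hμ.ge
  have hz : 1 - x - y - μ * c = 0 ∨ x - μ * b = 0 ∨ y - μ * a = 0 := by
    simp only [min_eq_iff] at hμ
    tauto
  generalize hr : 1 - x - y - μ * c = r at r0 hz
  generalize hs : x - μ * b = s at s0 hz
  generalize ht' : y - μ * a = w at t0 hz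
  have hsum : μ + r + s + w = 1 := by rw [← hr, ← hs, ← ht']; linear_combination -μ * habc
  have e : x • (u + v) + y • (v + t) = μ • v + s • (u + v) + w • (v + t) := by
    have : μ • v = μ • (b • (u + v) + a • (v + t)) := by rw [← hv']
    rw [this, ← hs, ← ht']
    module
  rw [e]
  have : s + w ≤ r ∨ r + w ≤ s ∨ r + s ≤ w := by
    by_contra hn
    push Not at hn
    rcases hz with k | k | k <;> linarith [hn.1, hn.2.1, hn.2.2]
  obtain rfl : μ = 1 - r - s - w := by linarith
  rcases this with k | k | k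
  · refine ⟨(0, 0), ?_⟩
    convert hC.combo hu hv ht (x := s) (y := 1 - r) (z := w) (by
      rw [abs_of_nonneg s0, abs_of_nonneg t0, abs_of_nonneg (by linarith)]; linarith) using 1
    simp only [lp]; push_cast; module
  · refine ⟨(1, 0), ?_⟩
    convert hC.combo hu hv ht (x := s - 1) (y := -r) (z := w) (by
      rw [abs_neg, abs_of_nonneg r0, abs_of_nonneg t0, abs_of_nonpos (by linarith)]; linarith)
      using 1
    simp only [lp]; push_cast; module
  · refine ⟨(0, 1), ?_⟩
    convert hC.combo hu hv ht (x := s) (y := -r) (z := w - 1) (by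
      rw [abs_neg, abs_of_nonneg r0, abs_of_nonneg s0, abs_of_nonpos (by linarith)]; linarith)
      using 1
    simp only [lp]; push_cast; module

lemma dt_hform (u v t : Plane) : dt (u + v) (v + t) = hform u v t := by
  simp only [dt, hform, PiLp.add_apply]; ring

lemma Sym0.cover {C : Set Plane} (hC : Sym0 C) {u v t : Plane} (hu : u ∈ C) (hv : v ∈ C)
    (ht : t ∈ C) (ha : 0 ≤ dt u v) (hb : 0 ≤ dt v t) (hc : 0 ≤ dt u t) (hd : 0 < hform u v t)
    (z : Plane) : ∃ k, z - lp (u + v) (v + t) k ∈ C := by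
  have e := eq_co (p := u + v) (q := v + t) (by rw [dt_hform]; exact hd.ne') z
  generalize (co (u + v) (v + t) z).1 = x at e
  generalize (co (u + v) (v + t) z).2 = y at e
  have x0 := Int.fract_nonneg x
  have x1 := Int.fract_lt_one x
  have y0 := Int.fract_nonneg y
  have y1 := Int.fract_lt_one y
  rcases le_total (Int.fract x + Int.fract y) 1 with k | k
  · obtain ⟨j, hj⟩ := hC.tri hu hv ht ha hb hc hd x0 y0 k
    refine ⟨(⌊x⌋ + j.1, ⌊y⌋ + j.2), ?_⟩
    convert hj using 1
    rw [e]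
    simp only [lp, Int.fract]; push_cast; module
  · obtain ⟨j, hj⟩ := hC.tri hu hv ht ha hb hc hd (x := 1 - Int.fract x) (y := 1 - Int.fract y)
      (by linarith) (by linarith) (by linarith)
    refine ⟨(⌊x⌋ + 1 - j.1, ⌊y⌋ + 1 - j.2), ?_⟩
    convert hC.sym _ hj using 1
    rw [e]
    simp only [lp, Int.fract]; push_cast; module

lemma Sym0.exists_max {C : Set Plane} (hC : Sym0 C) : ∃ u ∈ C, ∃ v ∈ C, ∃ t ∈ C,
    0 ≤ dt u v ∧ 0 ≤ dt v t ∧ 0 ≤ dt u t ∧ 0 < hform u v t ∧
      ∀ u' ∈ C, ∀ v' ∈ C, ∀ t' ∈ C, hform u' v' t' ≤ hform u v t := by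
  obtain ⟨⟨u, v, t⟩, ⟨hu, hv, ht⟩, h⟩ := (hC.cpt.prod (hC.cpt.prod hC.cpt)).exists_isMaxOn
    (hC.ne.prod (hC.ne.prod hC.ne)) (f := fun x => hform x.1 x.2.1 x.2.2)
    (by unfold hform dt; fun_prop)
  have h' : ∀ u' ∈ C, ∀ v' ∈ C, ∀ t' ∈ C, hform u' v' t' ≤ hform u v t :=
    fun u' hu' v' hv' t' ht' => h (a := (u', v', t')) ⟨hu', hv', ht'⟩
  have k1 := h' u hu v hv v hv
  have k2 := h' v hv v hv t ht
  have k3 := h' u hu t ht t ht
  obtain ⟨ε, h, hε⟩ := hC.int
  have m : ∀ θ, pol ε θ ∈ C := fun θ => hε (by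
    rw [mem_closedBall_zero_iff, norm_pol, abs_of_pos h])
  have k4 := h' _ (m 0) _ (m (π / 2)) _ (m (π / 2))
  refine ⟨u, hu, v, hv, t, ht, ?_, ?_, ?_, lt_of_lt_of_le ?_ k4, h'⟩
  · simp only [hform, dt] at k1 k2 k3 ⊢; linarith
  · simp only [hform, dt] at k1 k2 k3 ⊢; linarith
  · simp only [hform, dt] at k1 k2 k3 ⊢; linarith
  · simp [hform, dt, pol, h]

end Pool.Agent.Lib.MP_fb520c_co
end
end
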