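import Pool.Agent.Lib.MP_fb520c_co.Defs
import Mathlib
import Pool.Agent.Lib.MP_fb520c_co.Adj

-- part Pool.Agent.Lib.MP_fb520c_co.Basic
section

/-! Coordinates and measure in the plane. -/

set_option autoImplicit false

open MeasureTheory Filter Metric Set
open scoped ENNReal

noncomputable section

namespace Pool.Agent.Lib.MP_fb520c_co

/-- the point with given coordinates -/
def pt (x y : ℝ) : Plane := !₂[x, y]

@[simp] lemma pt_zero (x y : ℝ) : pt x y 0 = x := rfl
@[simp] lemma pt_one (x y : ℝ) : pt x y 1 = y := rfl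

lemma plane_ext {z w : Plane} (h0 : z 0 = w 0) (h1 : z 1 = w 1) : z = w := by
  ext i
  fin_cases i
  · exact h0
  · exact h1

lemma norm_sq_eq (z : Plane) : ‖z‖ ^ 2 = z 0 ^ 2 + z 1 ^ 2 := by
  rw [EuclideanSpace.norm_sq_eq, Fin.sum_univ_two]
  simp [sq_abs]

lemma inner_eq (z w : Plane) : inner ℝ z w = z 0 * w 0 + z 1 * w 1 := by
  rw [PiLp.inner_apply, Fin.sum_univ_two]
  simp [mul_comm]

lemma continuous_coord (i : Fin 2) : Continuous fun z : Plane => z i := by fun_prop

/-- the determinant of two vectors -/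
def dt (u v : Plane) : ℝ := u 0 * v 1 - u 1 * v 0

/-- the component of `z` in the direction of angle `θ` -/
def ip (z : Plane) (θ : ℝ) : ℝ := z 0 * Real.cos θ + z 1 * Real.sin θ

lemma continuous_ip (θ : ℝ) : Continuous fun z : Plane => ip z θ := by
  unfold ip; fun_prop

lemma ip_neg (z : Plane) (θ : ℝ) : ip (-z) θ = -ip z θ := by
  simp [ip]; ring

lemma ip_add_pi (z : Plane) (θ : ℝ) : ip z (θ + Real.pi) = -ip z θ := by
  simp [ip]; ring

lemma ip_sub_pi (z : Plane) (θ : ℝ) : ip z (θ - Real.pi) = -ip z θ := by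
  simp [ip]; ring

lemma abs_ip_le (z : Plane) (θ : ℝ) : |ip z θ| ≤ ‖z‖ := by
  refine abs_le_of_sq_le_sq' ?_ (norm_nonneg z) |> abs_le.2
  rw [norm_sq_eq, ip]
  nlinarith [Real.sin_sq_add_cos_sq θ, sq_nonneg (z 0 * Real.sin θ - z 1 * Real.cos θ)]

/-- linear coordinates -/
def lin (a b c d : ℝ) (z : Plane) : ℝ × ℝ := (a * z 0 + b * z 1, c * z 0 + d * z 1)

lemma continuous_lin (a b c d : ℝ) : Continuous (lin a b c d) := by
  unfold lin; fun_prop

lemma volume_lin {a b c d : ℝ} (h : a * d - b * c ≠ 0) {S : Set (ℝ × ℝ)} (hS : MeasurableSet S) :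
    volume (lin a b c d ⁻¹' S) = ENNReal.ofReal |(a * d - b * c)⁻¹| * volume S := by
  let M : Matrix (Fin 2) (Fin 2) ℝ := !![a, b; c, d]
  have hM : M.det = a * d - b * c := by simp [M, Matrix.det_fin_two]
  have h1 := Real.map_matrix_volume_pi_eq_smul_volume_pi (M := M) (by rw [hM]; exact h)
  have h2 := volume_preserving_finTwoArrow ℝ
  have h3 := PiLp.volume_preserving_ofLp (Fin 2)
  have hm : Measurable (Matrix.toLin' M) := (Matrix.toLin' M).continuous_of_finiteDimensional.measurable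
  have e : lin a b c d ⁻¹' S = (@WithLp.ofLp 2 (Fin 2 → ℝ)) ⁻¹' (Matrix.toLin' M ⁻¹'
      (MeasurableEquiv.finTwoArrow ⁻¹' S)) := by
    ext z
    simp [lin, M, MeasurableEquiv.finTwoArrow, Matrix.toLin'_apply, Matrix.mulVec, dotProduct,
      Fin.sum_univ_two]
  have hS2 : MeasurableSet (MeasurableEquiv.finTwoArrow ⁻¹' S : Set (Fin 2 → ℝ)) :=
    MeasurableEquiv.finTwoArrow.measurable hS
  rw [e, h3.measure_preimage (hm hS2).nullMeasurableSet, ← Measure.map_apply hm hS2, h1,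
    Measure.smul_apply, h2.measure_preimage hS.nullMeasurableSet, hM, smul_eq_mul]

lemma volume_lin_one {a b c d : ℝ} (h : a * d - b * c = 1) {S : Set (ℝ × ℝ)}
    (hS : MeasurableSet S) : volume (lin a b c d ⁻¹' S) = volume S := by
  rw [volume_lin (by rw [h]; exact one_ne_zero) hS, h]
  simp

lemma isometry_apply (g : Plane ≃ᵢ Plane) (z : Plane) :
    g z = g.toRealLinearIsometryEquiv z + g 0 := by
  simp [IsometryEquiv.toRealLinearIsometryEquiv_apply]

lemma measurePreserving_isometry (g : Plane ≃ᵢ Plane) : MeasurePreserving g := by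
  have h : (g : Plane → Plane) = (fun z => z + g 0) ∘ g.toRealLinearIsometryEquiv := by
    ext1 z
    exact isometry_apply g z
  rw [h]
  exact (measurePreserving_add_right volume (g 0)).comp
    g.toRealLinearIsometryEquiv.measurePreserving

lemma volume_isometry_preimage (g : Plane ≃ᵢ Plane) {S : Set Plane} (hS : MeasurableSet S) :
    volume (g ⁻¹' S) = volume S :=
  (measurePreserving_isometry g).measure_preimage hS.nullMeasurableSet

lemma volume_isometry_image (g : Plane ≃ᵢ Plane) {S : Set Plane} (hS : MeasurableSet S) :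
    volume (g '' S) = volume S := by
  have : g '' S = g.symm ⁻¹' S := g.toEquiv.image_eq_preimage_symm S
  rw [this, volume_isometry_preimage g.symm hS]

lemma convex_isometry_image (g : Plane ≃ᵢ Plane) {S : Set Plane} (hS : Convex ℝ S) :
    Convex ℝ (g '' S) := by
  have := hS.affine_image g.toRealAffineIsometryEquiv.toAffineEquiv.toAffineMap
  simpa using this

lemma volume_closedBall_eq (x : Plane) (r : ℝ) (hr : 0 ≤ r) :
    volume (closedBall x r) = ENNReal.ofReal (Real.pi * r ^ 2) := by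
  rw [EuclideanSpace.volume_closedBall_fin_two, ← ENNReal.ofReal_pow hr,
    ← ENNReal.ofReal_mul (by positivity), mul_comm]

/-- every nonzero vector is a positive multiple of a direction -/
lemma exists_angle (a b : ℝ) (h : a ≠ 0 ∨ b ≠ 0) :
    ∃ ρ θ : ℝ, 0 < ρ ∧ -Real.pi < θ ∧ θ ≤ Real.pi ∧ a = ρ * Real.cos θ ∧ b = ρ * Real.sin θ := by
  have hz : (⟨a, b⟩ : ℂ) ≠ 0 := by
    intro h0
    rw [Complex.ext_iff] at h0
    rcases h with h | h
    · exact h h0.1
    · exact h h0.2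
  refine ⟨‖(⟨a, b⟩ : ℂ)‖, Complex.arg ⟨a, b⟩, norm_pos_iff.2 hz, Complex.neg_pi_lt_arg _,
    Complex.arg_le_pi _, ?_, ?_⟩
  · rw [Complex.norm_mul_cos_arg]
  · rw [Complex.norm_mul_sin_arg]

end Pool.Agent.Lib.MP_fb520c_co
end
end

-- part Pool.Agent.Lib.MP_fb520c_co.Dowker
section

/-! Dowker's exchange argument: circumscribed polygons with at most six sides on average are
replaced by centrally symmetric hexagons. -/

set_option autoImplicit false

open MeasureTheory Filter Metric Set Topology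
open scoped ENNReal

noncomputable section

namespace Pool.Agent.Lib.MP_fb520c_co

/-- the properties of the support function of a symmetric convex body that are used -/
structure IsSupp (p : ℝ → ℝ) : Prop where
  pos : ∀ θ, 0 < p θ
  per : ∀ θ, p (θ + Real.pi) = p θ
  conv : ∀ (z : Plane) (s t u : ℝ), s ≤ t → t ≤ u → u - s < Real.pi → p s ≤ ip z s →
    p u ≤ ip z u → p t ≤ ip z t

/-- the intersection of three open strips -/
def hexS (p : ℝ → ℝ) (a b c : ℝ) : Set Plane :=
  {z | |ip z a| < p a ∧ |ip z b| < p b ∧ |ip z c| < p c}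

lemma isOpen_hexS (p : ℝ → ℝ) (a b c : ℝ) : IsOpen (hexS p a b c) :=
  (isOpen_lt (continuous_ip a).abs continuous_const).inter
    ((isOpen_lt (continuous_ip b).abs continuous_const).inter
      (isOpen_lt (continuous_ip c).abs continuous_const))

lemma IsSupp.opp {p : ℝ → ℝ} (hp : IsSupp p) {z : Plane} {a b t : ℝ} (hab : a ≤ b)
    (hb : b < Real.pi) (ha0 : 0 ≤ a) (h1 : p a ≤ ip z a) (h2 : p b ≤ -ip z b) (ht0 : 0 ≤ t)
    (ht : t < Real.pi) (h : t ≤ a ∨ b ≤ t) : p t ≤ |ip z t| := by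
  have hlt : a < b := lt_of_le_of_ne hab fun e => by
    rw [e] at h1; linarith [hp.pos b]
  rcases h with h | h
  · refine (hp.conv z (b - Real.pi) t a (by linarith) h (by linarith) ?_ h1).trans (le_abs_self _)
    rw [ip_sub_pi, ← hp.per, sub_add_cancel]
    exact h2
  · refine (hp.conv (-z) b t (a + Real.pi) h (by linarith) (by linarith) (by rwa [ip_neg])
      ?_).trans (by rw [ip_neg]; exact neg_le_abs _)
    rw [ip_add_pi, ip_neg, neg_neg, hp.per]
    exact h1

lemma IsSupp.cyc {p : ℝ → ℝ} (hp : IsSupp p) {z : Plane} {a b : ℝ} (hab : a ≤ b)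
    (hb : b < Real.pi) (ha0 : 0 ≤ a) (h1 : p a ≤ |ip z a|) (h2 : p b ≤ |ip z b|) :
    (∀ t, a ≤ t → t ≤ b → p t ≤ |ip z t|) ∨
      ∀ t, 0 ≤ t → t < Real.pi → t ≤ a ∨ b ≤ t → p t ≤ |ip z t| := by
  rcases le_abs.1 h1 with h1 | h1 <;> rcases le_abs.1 h2 with h2 | h2
  · exact Or.inl fun t k1 k2 =>
      (hp.conv z a t b k1 k2 (by linarith) h1 h2).trans (le_abs_self _)
  · exact Or.inr fun t k1 k2 k3 => hp.opp hab hb ha0 h1 h2 k1 k2 k3
  · refine Or.inr fun t k1 k2 k3 => ?_
    have := hp.opp (z := -z) hab hb ha0 (by rwa [ip_neg]) (by rwa [ip_neg, neg_neg]) k1 k2 k3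
    rwa [ip_neg, abs_neg] at this
  · refine Or.inl fun t k1 k2 => ?_
    have := hp.conv (-z) a t b k1 k2 (by linarith) (by rwa [ip_neg]) (by rwa [ip_neg])
    rw [ip_neg] at this
    exact this.trans (neg_le_abs _)

theorem dowker {p : ℝ → ℝ} (hp : IsSupp p) {ι Y : Type} [Fintype ι] [Fintype Y] (lab : Y → ι)
    (u : Y → ℝ) (hY : Fintype.card Y ≤ 6 * Fintype.card ι) :
    ∃ a b c : Fin (2 * Fintype.card ι) → ℝ, ∑ g, volume (hexS p (a g) (b g) (c g)) ≤
      2 * ∑ i, volume {z : Plane | ∀ y, lab y = i → ip z (u y) < p (u y)} := by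
  classical
  set N := Fintype.card ι with hN
  obtain ⟨e⟩ : Nonempty (Y ↪ Fin (6 * N)) := Function.Embedding.nonempty_of_card_le (by simpa)
  let α : Fin (6 * N) → ℝ := Function.extend e (fun y => toIcoMod Real.pi_pos 0 (u y)) 0
  have hαe : ∀ y, α (e y) = toIcoMod Real.pi_pos 0 (u y) := fun y => e.injective.extend_apply _ _ y
  have hα : ∀ j, 0 ≤ α j ∧ α j < Real.pi := by
    intro j
    by_cases h : ∃ y, e y = j
    · obtain ⟨y, rfl⟩ := h
      rw [hαe]
      simpa using toIcoMod_mem_Ico Real.pi_pos 0 (u y)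
    · simp [α, Function.extend_apply' _ _ _ h, Real.pi_pos]
  let σ := Tuple.sort α
  let θ : Fin (6 * N) → ℝ := α ∘ σ
  have hmono : Monotone θ := Tuple.monotone_sort α
  let P : ι → Set Plane := fun i => {z : Plane | ∀ y, lab y = i → ip z (u y) < p (u y)}
  have hPo : ∀ i, IsOpen (P i) := by
    intro i
    have : P i = ⋂ y, {z | lab y = i → ip z (u y) < p (u y)} := by ext z; simp [P]
    rw [this]
    refine isOpen_iInter_of_finite fun y => ?_
    by_cases h : lab y = i
    · simpa [h] using isOpen_lt (continuous_ip _) continuous_const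
    · simp [h]
  let i0 : Fin (2 * N) → Fin (6 * N) := fun g => ⟨g, by omega⟩
  let i1 : Fin (2 * N) → Fin (6 * N) := fun g => ⟨g + 2 * N, by omega⟩
  let i2 : Fin (2 * N) → Fin (6 * N) := fun g => ⟨g + 4 * N, by omega⟩
  let H : Fin (2 * N) → Set Plane := fun g => hexS p (θ (i0 g)) (θ (i1 g)) (θ (i2 g))
  refine ⟨fun g => θ (i0 g), fun g => θ (i1 g), fun g => θ (i2 g), ?_⟩
  have hpt : ∀ z : Plane, (Finset.univ.filter fun g => z ∈ H g).card ≤
      (Finset.univ.filter fun x : ι × Bool => (if x.2 then z else -z) ∈ P x.1).card := by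
    intro z
    let V : Finset (Fin (6 * N)) := Finset.univ.filter fun j => p (θ j) ≤ |ip z (θ j)|
    let W : Finset (ι × Bool) := Finset.univ.filter fun x => (if x.2 then z else -z) ∉ P x.1
    let G : Finset (Fin (2 * N)) := Finset.univ.filter fun g => z ∉ H g
    have hW : ∀ x : ι × Bool, ∃ j : Fin (6 * N), x ∈ W → ∃ y, j = σ.symm (e y) ∧ lab y = x.1 ∧
        p (u y) ≤ ip (if x.2 then z else -z) (u y) := by
      intro x
      by_cases h : x ∈ W
      · have := (Finset.mem_filter.1 h).2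
        simp only [P, mem_ofPred_eq, not_forall, not_lt] at this
        obtain ⟨y, h1, h2⟩ := this
        exact ⟨_, fun _ => ⟨y, rfl, h1, h2⟩⟩
      · have : 0 < N := Fintype.card_pos_iff.2 ⟨x.1⟩
        exact ⟨⟨0, by omega⟩, fun h' => absurd h' h⟩
    choose φ hφ using hW
    have hWV : W.card ≤ V.card := by
      refine Finset.card_le_card_of_injOn φ (fun x hx => ?_) (fun x hx x' hx' hxx => ?_)
      · obtain ⟨y, h1, -, h3⟩ := hφ x hx
        have e1 : θ (φ x) = u y - toIcoDiv Real.pi_pos 0 (u y) • Real.pi := by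
          rw [h1]; simp only [θ, Function.comp, Equiv.apply_symm_apply, hαe]; rfl
        have per1 : Function.Periodic p Real.pi := hp.per
        have per2 : Function.Periodic (fun t => |ip z t|) Real.pi := fun t => by
          simp only [ip_add_pi, abs_neg]
        simp only [V, Finset.coe_filter, Finset.mem_univ, true_and, mem_ofPred_eq]
        rw [e1, per1.sub_zsmul_eq, show |ip z (u y - toIcoDiv Real.pi_pos 0 (u y) • Real.pi)| =
          |ip z (u y)| from per2.sub_zsmul_eq _]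
        refine h3.trans ?_
        split_ifs
        · exact le_abs_self _
        · rw [ip_neg]; exact neg_le_abs _
      · obtain ⟨y, h1, h2, h3⟩ := hφ x hx
        obtain ⟨y', h1', h2', h3'⟩ := hφ x' hx'
        have : y = y' := e.injective (σ.symm.injective (h1.symm.trans (hxx.trans h1')))
        subst this
        refine Prod.ext (h2.symm.trans h2') ?_
        have := hp.pos (u y)
        rcases x with ⟨i, _ | _⟩ <;> rcases x' with ⟨i', _ | _⟩ <;>
          simp only [Bool.false_eq_true, if_false, if_true, ip_neg] at h3 h3' <;>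
          first | rfl | linarith
    have hcW : W.card ≤ 2 * N := by
      refine (Finset.card_le_univ _).trans (le_of_eq ?_)
      simp [hN, mul_comm]
    have hWG : W.card ≤ G.card := by
      by_cases hall : ∀ g, z ∉ H g
      · have : G = Finset.univ := Finset.filter_true_of_mem fun g _ => hall g
        rw [this]
        simpa using hcW
      · push Not at hall
        obtain ⟨g, hg0, hg1, hg2⟩ := hall
        have hN0 : 0 < 2 * N := lt_of_le_of_lt (Nat.zero_le _) g.2
        refine hWV.trans (Finset.card_le_card_of_injOn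
          (fun j => (⟨j % (2 * N), Nat.mod_lt _ hN0⟩ : Fin (2 * N))) (fun j hj => ?_) ?_)
        · have hj := (Finset.mem_filter.1 hj).2
          simp only [G, Finset.coe_filter, Finset.mem_univ, true_and, mem_ofPred_eq]
          rintro ⟨k0, k1, k2⟩
          have hdm := Nat.div_add_mod j (2 * N)
          have hq : (j : ℕ) / (2 * N) < 3 := Nat.div_lt_of_lt_mul (by omega)
          have : j = i0 ⟨j % (2 * N), Nat.mod_lt _ hN0⟩ ∨ j = i1 ⟨j % (2 * N), Nat.mod_lt _ hN0⟩ ∨
              j = i2 ⟨j % (2 * N), Nat.mod_lt _ hN0⟩ := by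
            simp only [i0, i1, i2, Fin.ext_iff]
            interval_cases (j : ℕ) / (2 * N) <;> omega
          rcases this with h | h | h
          · rw [← h] at k0; linarith
          · rw [← h] at k1; linarith
          · rw [← h] at k2; linarith
        · have main : ∀ j ∈ V, ∀ j' ∈ V, j < j' → (j : ℕ) % (2 * N) = j' % (2 * N) → False := by
            intro j hj j' hj' hlt hmod
            have hj := (Finset.mem_filter.1 hj).2
            have hj' := (Finset.mem_filter.1 hj').2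
            have hlt' : (j : ℕ) < j' := hlt
            have hdm := Nat.div_add_mod j (2 * N)
            have hq : (j : ℕ) / (2 * N) < 3 := Nat.div_lt_of_lt_mul (by omega)
            have hdm' := Nat.div_add_mod j' (2 * N)
            have hq' : (j' : ℕ) / (2 * N) < 3 := Nat.div_lt_of_lt_mul (by omega)
            have hm := Nat.mod_lt j hN0
            have hg := g.2
            have hdiff : (j' : ℕ) = j + 2 * N ∨ (j' : ℕ) = j + 4 * N := by
              interval_cases (j : ℕ) / (2 * N) <;> interval_cases (j' : ℕ) / (2 * N) <;> omega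
            have hj'2 := j'.2
            rcases hp.cyc (hmono hlt.le) (hα _).2 (hα _).1 hj hj' with h | h
            · have : (j ≤ i0 g ∧ i0 g ≤ j') ∨ (j ≤ i1 g ∧ i1 g ≤ j') ∨ (j ≤ i2 g ∧ i2 g ≤ j') := by
                simp only [i0, i1, i2, Fin.le_def]
                omega
              rcases this with k | k | k <;> linarith [h _ (hmono k.1) (hmono k.2)]
            · have : i0 g ≤ j ∨ j' ≤ i2 g := by
                simp only [i0, i2, Fin.le_def]
                omega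
              rcases this with k | k
              · linarith [h (θ (i0 g)) (hα _).1 (hα _).2 (Or.inl (hmono k))]
              · linarith [h (θ (i2 g)) (hα _).1 (hα _).2 (Or.inr (hmono k))]
          intro j hj j' hj' hjj
          have hmod : (j : ℕ) % (2 * N) = j' % (2 * N) := congrArg Fin.val hjj
          rcases lt_trichotomy j j' with h | h | h
          · exact (main j hj j' hj' h hmod).elim
          · exact h
          · exact (main j' hj' j hj h hmod.symm).elim
    have e1 := Finset.card_filter_add_card_filter_not (s := Finset.univ) (fun g => z ∈ H g)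
    have e2 := Finset.card_filter_add_card_filter_not (s := Finset.univ)
      (fun x : ι × Bool => (if x.2 then z else -z) ∈ P x.1)
    have e3 : (Finset.univ : Finset (ι × Bool)).card = 2 * N := by simp [hN, mul_comm]
    have e4 : (Finset.univ : Finset (Fin (2 * N))).card = 2 * N := by simp
    simp only [G, W] at hWG
    omega
  let P' : ι × Bool → Set Plane := fun x => {z | (if x.2 then z else -z) ∈ P x.1}
  have hP'o : ∀ x, IsOpen (P' x) := by
    rintro ⟨i, _ | _⟩
    · exact (hPo i).preimage continuous_neg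
    · exact hPo i
  have hvol : ∀ x, volume (P' x) = volume (P x.1) := by
    rintro ⟨i, _ | _⟩
    · exact Measure.measure_neg volume (P i)
    · rfl
  have hsum : ∀ {κ : Type} [Fintype κ] (T : κ → Set Plane), (∀ k, IsOpen (T k)) →
      ∑ k, volume (T k) = ∫⁻ z, ((Finset.univ.filter fun k => z ∈ T k).card : ℝ≥0∞) := by
    intro κ _ T hT
    simp_rw [Finset.card_filter, Nat.cast_sum]
    rw [lintegral_finsetSum]
    · refine Finset.sum_congr rfl fun k _ => ?_
      rw [← lintegral_indicator_one (hT k).measurableSet]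
      refine lintegral_congr fun z => ?_
      by_cases h : z ∈ T k <;> simp [h]
    · intro k _
      refine Measurable.comp (g := fun n : ℕ => (n : ℝ≥0∞)) measurable_from_top ?_
      exact Measurable.ite (hT k).measurableSet measurable_const measurable_const
  calc ∑ g, volume (H g) = _ := hsum H fun g => isOpen_hexS _ _ _ _
    _ ≤ ∫⁻ z, ((Finset.univ.filter fun x => z ∈ P' x).card : ℝ≥0∞) :=
      lintegral_mono fun z => Nat.cast_le.2 (by convert hpt z using 3; rfl)
    _ = ∑ x, volume (P' x) := by convert (hsum P' hP'o).symm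
    _ = _ := by
      simp_rw [hvol]
      rw [Fintype.sum_prod_type, Finset.mul_sum]
      simp [P, two_mul]

end Pool.Agent.Lib.MP_fb520c_co
end
end

-- part Pool.Agent.Lib.MP_fb520c_co.SasCore
section

/-! The one-dimensional core of the area inequality. -/

set_option autoImplicit false

open MeasureTheory Set Real

noncomputable section

namespace Pool.Agent.Lib.MP_fb520c_co

/-- twice the area of half of the hexagon with vertices `± (x i, y i)` -/
def form (x0 y0 x1 y1 x2 y2 : ℝ) : ℝ :=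
  (x0 * y1 - x1 * y0) + (x1 * y2 - x2 * y1) + (x0 * y2 - x2 * y0)

lemma int_le_line {f : ℝ → ℝ} (hf : Continuous f) {a b x y : ℝ} (hxy : x ≤ y)
    (h : ∀ t ∈ Icc x y, f t ≤ a + b * t) :
    ∫ t in x..y, f t ≤ (y - x) * (a + b * ((x + y) / 2)) := by
  have h1 : ∫ t in x..y, f t ≤ ∫ t in x..y, (a + b * t) :=
    intervalIntegral.integral_mono_on hxy (hf.intervalIntegrable _ _)
      ((by fun_prop : Continuous fun t : ℝ => a + b * t).intervalIntegrable _ _) h
  refine h1.trans (le_of_eq ?_)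
  rw [intervalIntegral.integral_add (by simp) (by
    exact (by fun_prop : Continuous fun t : ℝ => b * t).intervalIntegrable _ _),
    intervalIntegral.integral_const_mul, integral_id]
  simp
  ring

lemma le_of_deriv {G G' : ℝ → ℝ} (hG : ∀ t, HasDerivAt G (G' t) t) {a b : ℝ} (hab : a ≤ b)
    (h : ∀ t ∈ Icc a b, 0 ≤ G' t) : G a ≤ G b := by
  have : MonotoneOn G (Icc a b) := monotoneOn_of_deriv_nonneg (convex_Icc a b)
    (fun t _ => (hG t).continuousAt.continuousWithinAt)
    (fun t _ => (hG t).differentiableAt.differentiableWithinAt)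
    (fun t ht => by rw [(hG t).deriv]; exact h t (interior_subset ht))
  exact this (left_mem_Icc.2 hab) (right_mem_Icc.2 hab) hab

lemma cos_third (u : ℝ) : cos (π / 3 + u) = 1 / 2 * cos u - √3 / 2 * sin u := by
  rw [cos_add, cos_pi_div_three, sin_pi_div_three]

lemma cos_two_third (u : ℝ) : cos (2 * π / 3 + u) = -(1 / 2) * cos u - √3 / 2 * sin u := by
  rw [show 2 * π / 3 + u = π - (π / 3 + -u) by ring, cos_pi_sub, cos_third, cos_neg, sin_neg]
  ring

lemma cos_sixth (u : ℝ) : cos (π / 6 + u) = √3 / 2 * cos u - 1 / 2 * sin u := by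
  rw [cos_add, cos_pi_div_six, sin_pi_div_six]

lemma sin_sixth (u : ℝ) : sin (π / 6 + u) = 1 / 2 * cos u + √3 / 2 * sin u := by
  rw [sin_add, cos_pi_div_six, sin_pi_div_six]

lemma cos_five (u : ℝ) : cos (5 * π / 6 + u) = -(√3 / 2) * cos u - 1 / 2 * sin u := by
  rw [show 5 * π / 6 + u = π - (π / 6 + -u) by ring, cos_pi_sub, cos_sixth, cos_neg, sin_neg]
  ring

lemma sin_five (u : ℝ) : sin (5 * π / 6 + u) = 1 / 2 * cos u - √3 / 2 * sin u := by
  rw [show 5 * π / 6 + u = π - (π / 6 + -u) by ring, sin_pi_sub, sin_sixth, cos_neg, sin_neg]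
  ring

lemma cos_half (u : ℝ) : cos (π / 2 + u) = -sin u := by
  rw [add_comm, cos_add_pi_div_two]

lemma sin_half (u : ℝ) : sin (π / 2 + u) = cos u := by
  rw [add_comm, sin_add_pi_div_two]

lemma form_eq (R c u y0 y1 y2 : ℝ) :
    form (R * cos (π / 6 + u) + c) y0 (R * cos (π / 2 + u) - c) y1 (R * cos (5 * π / 6 + u) + c) y2 =
      √3 * (y0 * (R * sin (π / 6 + u)) + y1 * (R * sin (π / 2 + u)) +
        y2 * (R * sin (5 * π / 6 + u))) := by
  have h3 : √3 * √3 = 3 := Real.mul_self_sqrt (by norm_num)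
  rw [form, cos_sixth, sin_sixth, cos_five, sin_five, cos_half, sin_half]
  linear_combination (R * sin u / 2 * (y2 - y0)) * h3

theorem sas_core {f : ℝ → ℝ} (hf : Continuous f) {w h a1 b1 a2 b2 σ ψ : ℝ} (hw : 0 < w)
    (hψ0 : 0 ≤ ψ) (hψ : ψ ≤ π / 6) (hσ0 : 0 ≤ σ) (hσ : σ ≤ π / 6)
    (hform : ∀ x0 ∈ Icc (-w) w, ∀ x1 ∈ Icc (-w) w, ∀ x2 ∈ Icc (-w) w,
      form x0 (f x0) x1 (f x1) x2 (f x2) ≤ h ∧ form x0 (f x0) x1 (f x1) x2 (-f (-x2)) ≤ h)
    (h1 : ∀ x ∈ Icc (-w) w, f x ≤ a1 + b1 * x) (h2 : ∀ x ∈ Icc (-w) w, f x ≤ a2 + b2 * x)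
    (hb : b1 ≤ b2) (hw0 : 0 ≤ f w + f (-w)) {ξ : ℝ} (hξ : ξ * cos σ = -(√3 * w * sin σ))
    (hξw : -w ≤ ξ) (hξ0 : ξ ≤ 0) (hap : a1 + b1 * ξ = a2 + b2 * ξ) :
    ∫ x in (-w)..w, f x ≤ 2 * (π / 6 - ψ) / √3 * h + √3 * tan ψ *
      ((w - ξ) * (a1 + b1 * ((w + ξ) / 2)) + (w + ξ) * (a2 + b2 * ((ξ - w) / 2))) := by
  have hpi := pi_pos
  have h3 : √3 * √3 = 3 := Real.mul_self_sqrt (by norm_num)
  have h3p : 0 < √3 := by positivity
  have cψ : 0 < cos ψ := cos_pos_of_mem_Ioo ⟨by linarith, by linarith⟩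
  have cσ : 0 < cos σ := cos_pos_of_mem_Ioo ⟨by linarith, by linarith⟩
  have sψ : 0 ≤ sin ψ := sin_nonneg_of_nonneg_of_le_pi hψ0 (by linarith)
  have sσ : 0 ≤ sin σ := sin_nonneg_of_nonneg_of_le_pi hσ0 (by linarith)
  have hβ : 0 ≤ √3 * tan ψ := by rw [tan_eq_sin_div_cos]; positivity
  set φ := π / 6 - ψ with hφ
  have hφ0 : 0 ≤ φ := by linarith
  obtain ⟨ρ, hρ0, hρ1, hρ2, hρ3⟩ : ∃ ρ : ℝ, 0 ≤ ρ ∧ ψ - σ ≤ ρ ∧ (ρ = 0 ∨ ρ = ψ - σ) ∧
      cos (ψ - σ) ≤ cos ρ := by
    rcases le_total ψ σ with k | k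
    · exact ⟨0, le_rfl, by linarith, Or.inl rfl, by rw [cos_zero]; exact cos_le_one _⟩
    · exact ⟨ψ - σ, by linarith, le_rfl, Or.inr rfl, le_rfl⟩
  have hρ4 : σ - φ ≤ π / 6 - ρ := by rcases hρ2 with k | k <;> linarith
  rw [cos_sub] at hρ3
  have hden : 0 < cos ρ - sin ψ * sin σ := by nlinarith [mul_pos cψ cσ]
  obtain ⟨R, hR0, hR⟩ : ∃ R : ℝ, 0 < R ∧ R * (cos ρ - sin ψ * sin σ) = w :=
    ⟨w / (cos ρ - sin ψ * sin σ), div_pos hw hden, div_mul_cancel₀ _ hden.ne'⟩
  obtain ⟨κ, hκ0, hκ1, hκ⟩ : ∃ κ : ℝ, 0 ≤ κ ∧ κ ≤ 1 ∧ κ * w = R * (cos ψ * cos σ) :=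
    ⟨R * (cos ψ * cos σ) / w, by positivity, (div_le_one hw).2 (by
      rw [← hR]; exact mul_le_mul_of_nonneg_left (by linarith) hR0.le), div_mul_cancel₀ _ hw.ne'⟩
  have hκξ : κ * ξ = -(√3 * R * cos ψ * sin σ) := by
    refine mul_right_cancel₀ (mul_pos hw cσ).ne' ?_
    linear_combination (κ * w) * hξ - (√3 * w * sin σ) * hκ
  set c := R * (sin ψ * sin σ) with hc
  let X0 : ℝ → ℝ := fun u => R * cos (π / 6 + u) + c
  let X1 : ℝ → ℝ := fun u => R * cos (π / 2 + u) - c
  let X2 : ℝ → ℝ := fun u => R * cos (5 * π / 6 + u) + c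
  have e0 : X0 (σ - φ) = κ * w := by
    simp only [X0]
    rw [show π / 6 + (σ - φ) = ψ + σ by rw [hφ]; ring, cos_add, hκ, hc]; ring
  have e2 : X2 (σ + φ) = -(κ * w) := by
    simp only [X2]
    rw [show 5 * π / 6 + (σ + φ) = π - (ψ - σ) by rw [hφ]; ring, cos_pi_sub, cos_sub, hκ, hc]; ring
  have e3 : X2 (π / 6 - ρ) = -w := by
    simp only [X2]
    rw [show 5 * π / 6 + (π / 6 - ρ) = π - ρ by ring, cos_pi_sub, ← hR, hc]; ring
  have htan : tan ψ * cos ψ = sin ψ := tan_mul_cos cψ.ne'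
  have v0 : X0 (σ + φ) = R * cos (π / 3 + (σ - ψ)) + c := by
    simp only [X0]; rw [show π / 6 + (σ + φ) = π / 3 + (σ - ψ) by rw [hφ]; ring]
  have v1 : X1 (σ - φ) = R * cos (π / 3 + (σ + ψ)) - c := by
    simp only [X1]; rw [show π / 2 + (σ - φ) = π / 3 + (σ + ψ) by rw [hφ]; ring]
  have v2 : X1 (σ + φ) = R * cos (2 * π / 3 + (σ - ψ)) - c := by
    simp only [X1]; rw [show π / 2 + (σ + φ) = 2 * π / 3 + (σ - ψ) by rw [hφ]; ring]
  have v3 : X2 (σ - φ) = R * cos (2 * π / 3 + (σ + ψ)) + c := by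
    simp only [X2]; rw [show 5 * π / 6 + (σ - φ) = 2 * π / 3 + (σ + ψ) by rw [hφ]; ring]
  have g1 : X0 (σ + φ) - X1 (σ - φ) = κ * (√3 * tan ψ) * (w - ξ) := by
    rw [v0, v1, cos_third, cos_third, cos_sub, cos_add, sin_sub, sin_add, hc]
    linear_combination (-(√3 * tan ψ)) * hκ + (√3 * tan ψ) * hκξ -
      (√3 * R * cos σ + √3 * √3 * R * sin σ) * htan - (R * sin σ * sin ψ) * h3
  have m1 : X1 (σ - φ) + X0 (σ + φ) = κ * (w + ξ) := by
    rw [v0, v1, cos_third, cos_third, cos_sub, cos_add, sin_sub, sin_add]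
    linear_combination -hκ - hκξ
  have g2 : X1 (σ + φ) - X2 (σ - φ) = κ * (√3 * tan ψ) * (w + ξ) := by
    rw [v2, v3, cos_two_third, cos_two_third, cos_sub, cos_add, sin_sub, sin_add, hc]
    linear_combination (-(√3 * tan ψ)) * hκ - (√3 * tan ψ) * hκξ -
      (√3 * R * cos σ - √3 * √3 * R * sin σ) * htan + (R * sin σ * sin ψ) * h3
  have m2 : X2 (σ - φ) + X1 (σ + φ) = κ * (ξ - w) := by
    rw [v2, v3, cos_two_third, cos_two_third, cos_sub, cos_add, sin_sub, sin_add]
    linear_combination hκ - hκξ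
  have hmon : ∀ a s t : ℝ, 0 ≤ a + s → s ≤ t → a + t ≤ π → R * cos (a + t) ≤ R * cos (a + s) :=
    fun a s t k1 k2 k3 => mul_le_mul_of_nonneg_left
      (cos_le_cos_of_nonneg_of_le_pi k1 k3 (by linarith)) hR0.le
  have G1 : 0 ≤ κ * (√3 * tan ψ) * (w - ξ) := mul_nonneg (mul_nonneg hκ0 hβ) (by linarith)
  have G2 : 0 ≤ κ * (√3 * tan ψ) * (w + ξ) := mul_nonneg (mul_nonneg hκ0 hβ) (by linarith)
  have hκw : κ * w ≤ w := by nlinarith
  have b0 : ∀ u ∈ Icc (σ - φ) (σ + φ), X0 (σ + φ) ≤ X0 u ∧ X0 u ≤ X0 (σ - φ) := fun u hu =>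
    ⟨by simp only [X0]; linarith [hmon (π / 6) u (σ + φ) (by linarith [hu.1]) hu.2 (by linarith)],
     by simp only [X0]; linarith [hmon (π / 6) (σ - φ) u (by linarith) hu.1 (by linarith [hu.2])]⟩
  have b1' : ∀ u ∈ Icc (σ - φ) (σ + φ), X1 (σ + φ) ≤ X1 u ∧ X1 u ≤ X1 (σ - φ) := fun u hu =>
    ⟨by simp only [X1]; linarith [hmon (π / 2) u (σ + φ) (by linarith [hu.1]) hu.2 (by linarith)],
     by simp only [X1]; linarith [hmon (π / 2) (σ - φ) u (by linarith) hu.1 (by linarith [hu.2])]⟩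
  have b2' : ∀ u ∈ Icc (σ - φ) (π / 6 - ρ), X2 (π / 6 - ρ) ≤ X2 u ∧ X2 u ≤ X2 (σ - φ) :=
    fun u hu =>
    ⟨by simp only [X2]
        linarith [hmon (5 * π / 6) u (π / 6 - ρ) (by linarith [hu.1]) hu.2 (by linarith)],
     by simp only [X2]
        linarith [hmon (5 * π / 6) (σ - φ) u (by linarith) hu.1 (by linarith [hu.2])]⟩
  have k0 := b0 (σ + φ) ⟨by linarith, le_rfl⟩
  have k1 := b1' (σ + φ) ⟨by linarith, le_rfl⟩
  have k2 := b2' (σ - φ) ⟨le_rfl, hρ4⟩
  have i0 : ∀ u ∈ Icc (σ - φ) (σ + φ), X0 u ∈ Icc (-w) w := fun u hu =>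
    ⟨by linarith [(b0 u hu).1, k1.2, k2.1], by linarith [(b0 u hu).2]⟩
  have i1 : ∀ u ∈ Icc (σ - φ) (σ + φ), X1 u ∈ Icc (-w) w := fun u hu =>
    ⟨by linarith [(b1' u hu).1, k2.1], by linarith [(b1' u hu).2, k0.2]⟩
  have i2 : ∀ u ∈ Icc (σ - φ) (π / 6 - ρ), X2 u ∈ Icc (-w) w := fun u hu =>
    ⟨by linarith [(b2' u hu).1], by linarith [(b2' u hu).2, k0.2, k1.2]⟩
  let F : ℝ → ℝ := fun x => ∫ t in (0 : ℝ)..x, f t
  have hF : ∀ x, HasDerivAt F (f x) x := fun x => (hf.integral_hasStrictDerivAt 0 x).hasDerivAt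
  have hFs : ∀ x y, ∫ t in x..y, f t = F y - F x := fun x y =>
    (intervalIntegral.integral_interval_sub_left (hf.intervalIntegrable _ _)
      (hf.intervalIntegrable _ _)).symm
  have hd : ∀ a c' u : ℝ, HasDerivAt (fun u => R * cos (a + u) + c') (-(R * sin (a + u))) u := by
    intro a c' u
    exact ((((hasDerivAt_id' u).const_add a).cos.const_mul R).add_const c').congr_deriv (by ring)
  have d0 : ∀ u, HasDerivAt X0 (-(R * sin (π / 6 + u))) u := fun u => hd _ _ u
  have d1 : ∀ u, HasDerivAt X1 (-(R * sin (π / 2 + u))) u := fun u => hd _ (-c) u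
  have d2 : ∀ u, HasDerivAt X2 (-(R * sin (5 * π / 6 + u))) u := fun u => hd _ _ u
  have A1 := le_of_deriv (G := fun u => √3 * (F (X0 u) + F (X1 u) + F (X2 u)) + h * u)
    (fun u => (((((hF _).comp u (d0 u)).add ((hF _).comp u (d1 u))).add
      ((hF _).comp u (d2 u))).const_mul √3).add ((hasDerivAt_id u).const_mul h)) hρ4
    (fun u hu => by
      have hu' : u ∈ Icc (σ - φ) (σ + φ) := ⟨hu.1, by linarith [hu.2]⟩
      have := (hform _ (i0 u hu') _ (i1 u hu') _ (i2 u hu)).1
      simp only [X0, X1, X2] at this ⊢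
      rw [form_eq] at this
      linarith)
  have A2 : √3 * (F (X0 (π / 6 - ρ)) + F (X1 (π / 6 - ρ)) + F (-X2 (π / 6 - ρ))) + h * (π / 6 - ρ) ≤
      √3 * (F (X0 (σ + φ)) + F (X1 (σ + φ)) + F (-X2 (σ + φ))) + h * (σ + φ) := by
    rcases hρ2 with k | k
    · refine le_of_deriv (G := fun u => √3 * (F (X0 u) + F (X1 u) + F (-X2 u)) + h * u)
        (fun u => (((((hF _).comp u (d0 u)).add ((hF _).comp u (d1 u))).add
          ((hF _).comp u (d2 u).neg)).const_mul √3).add ((hasDerivAt_id u).const_mul h))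
        (by linarith) (fun u hu => ?_)
      have hu' : u ∈ Icc (σ - φ) (σ + φ) := ⟨by linarith [hu.1], hu.2⟩
      have hX : X2 u ∈ Icc (-w) w := by
        simp only [X2]
        have c1 := neg_one_le_cos (5 * π / 6 + u)
        have c2 : cos (5 * π / 6 + u) ≤ 0 :=
          cos_nonpos_of_pi_div_two_le_of_le (by linarith [hu'.1]) (by linarith [hu'.2])
        have c3 : 0 ≤ cos (ψ + σ) := cos_nonneg_of_mem_Icc ⟨by linarith, by linarith⟩
        rw [cos_add] at c3
        rw [k, cos_zero] at hR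
        have q1 := mul_le_mul_of_nonneg_left c1 hR0.le
        have q2 := mul_le_mul_of_nonneg_left c2 hR0.le
        have q3 := mul_nonneg hR0.le c3
        constructor <;> linarith
      have := (hform _ (i0 u hu') _ (i1 u hu') _ hX).2
      simp only [X0, X1, X2, Pi.neg_apply] at this ⊢
      rw [form_eq] at this
      linarith
    · rw [show π / 6 - ρ = σ + φ by rw [k, hφ]; ring]
  have I1 := int_le_line hf (a := a1) (b := b1) (x := X1 (σ - φ)) (y := X0 (σ + φ)) (by linarith)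
    fun t ht => h1 t ⟨by linarith [ht.1, k1.2, k2.1], by linarith [ht.2, k0.2]⟩
  have I2 := int_le_line hf (a := a2) (b := b2) (x := X2 (σ - φ)) (y := X1 (σ + φ)) (by linarith)
    fun t ht => h2 t ⟨by linarith [ht.1, k2.1], by linarith [ht.2, k0.2, k1.2]⟩
  rw [hFs, g1, m1] at I1
  rw [hFs, g2, m2] at I2
  simp only [e0, e2, e3, neg_neg] at A1 A2
  rw [hFs]
  have p1 := h1 w ⟨by linarith, le_rfl⟩
  have p2 := h2 (-w) ⟨le_rfl, by linarith⟩
  have hS : 0 ≤ (w - ξ) * (w + ξ) * (b2 - b1) :=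
    mul_nonneg (mul_nonneg (by linarith) (by linarith)) (by linarith)
  have hP : 0 ≤ a1 * (w - ξ) + a2 * (w + ξ) - (w - ξ) * (w + ξ) * (b2 - b1) := by
    have : a1 * (w - ξ) + a2 * (w + ξ) - (w - ξ) * (w + ξ) * (b2 - b1) =
        w * ((a1 + b1 * w) + (a2 + b2 * -w)) := by linear_combination (-ξ) * hap
    rw [this]
    exact mul_nonneg hw.le (by linarith)
  have hmain : κ * ((w - ξ) * (a1 + b1 * (κ * (w + ξ) / 2)) + (w + ξ) * (a2 + b2 * (κ * (ξ - w) / 2)))
      ≤ (w - ξ) * (a1 + b1 * ((w + ξ) / 2)) + (w + ξ) * (a2 + b2 * ((ξ - w) / 2)) := by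
    have q1 := mul_nonneg (sub_nonneg.2 hκ1) hP
    have q2 := mul_nonneg (sq_nonneg (1 - κ)) hS
    linear_combination q1 + q2 / 2
  have hfin := mul_le_mul_of_nonneg_left hmain hβ
  have hA : F w - F (X0 (σ + φ)) + F (X1 (σ - φ)) - F (X1 (σ + φ)) + F (X2 (σ - φ)) - F (-w) ≤
      2 * φ / √3 * h := by
    rw [div_mul_eq_mul_div, le_div_iff₀ h3p]
    linarith
  linarith

end Pool.Agent.Lib.MP_fb520c_co
end
end

-- part Pool.Agent.Lib.MP_fb520c_co.Sas
section

/-! The area inequality for symmetric convex sets in coordinates. -/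

set_option autoImplicit false

open MeasureTheory Set Real Filter Topology

noncomputable section

namespace Pool.Agent.Lib.MP_fb520c_co

lemma int_line (a b x y : ℝ) : ∫ t in x..y, (a + b * t) = (y - x) * (a + b * ((x + y) / 2)) := by
  rw [intervalIntegral.integral_add (by simp) (by
    exact (by fun_prop : Continuous fun t : ℝ => b * t).intervalIntegrable _ _),
    intervalIntegral.integral_const_mul, integral_id]
  simp
  ring

lemma exists_sigma {w ξ : ℝ} (hw : 0 < w) (h1 : -w ≤ ξ) (h2 : ξ ≤ 0) :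
    ∃ σ : ℝ, 0 ≤ σ ∧ σ ≤ π / 6 ∧ ξ * cos σ = -(√3 * w * sin σ) := by
  have h3p : 0 < √3 := by positivity
  refine ⟨arctan (-ξ / (√3 * w)), arctan_nonneg.2 (div_nonneg (by linarith) (by positivity)), ?_, ?_⟩
  · rw [← arctan_inv_sqrt_three]
    refine arctan_mono ?_
    rw [div_le_iff₀ (by positivity), ← mul_assoc, inv_mul_cancel₀ h3p.ne']
    linarith
  · have := tan_mul_cos (cos_arctan_pos (-ξ / (√3 * w))).ne'
    rw [← this, tan_arctan]
    field_simp

theorem sas_cross {K : Set (ℝ × ℝ)} (hs : ∀ z ∈ K, -z ∈ K) {f : ℝ → ℝ} (hf : Continuous f)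
    {w h a1 b1 a2 b2 ψ ξ : ℝ} (hw : 0 < w) (hψ0 : 0 ≤ ψ) (hψ : ψ ≤ π / 6)
    (hfK : ∀ x ∈ Icc (-w) w, (x, f x) ∈ K)
    (hform : ∀ u ∈ K, ∀ v ∈ K, ∀ t ∈ K, form u.1 u.2 v.1 v.2 t.1 t.2 ≤ h)
    (h1 : ∀ x ∈ Icc (-w) w, f x ≤ a1 + b1 * x) (h2 : ∀ x ∈ Icc (-w) w, f x ≤ a2 + b2 * x)
    (hb : b1 ≤ b2) (hw0 : 0 ≤ f w + f (-w)) (hξ : ξ ∈ Icc (-w) w)
    (hap : a1 + b1 * ξ = a2 + b2 * ξ) :
    ∫ x in (-w)..w, f x ≤ 2 * (π / 6 - ψ) / √3 * h + √3 * tan ψ *
      ((w - ξ) * (a1 + b1 * ((w + ξ) / 2)) + (w + ξ) * (a2 + b2 * ((ξ - w) / 2))) := by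
  have hneg : ∀ x ∈ Icc (-w) w, -x ∈ Icc (-w) w := fun x hx =>
    ⟨by linarith [hx.2], by linarith [hx.1]⟩
  rcases le_total ξ 0 with k | k
  · obtain ⟨σ, s0, s1, s2⟩ := exists_sigma hw hξ.1 k
    refine sas_core hf hw hψ0 hψ s0 s1 (fun x0 k0 x1 k1 x2 k2 =>
      ⟨hform _ (hfK _ k0) _ (hfK _ k1) _ (hfK _ k2), ?_⟩) h1 h2 hb hw0 s2 hξ.1 k hap
    simpa using hform _ (hfK _ k0) _ (hfK _ k1) _ (hs _ (hfK _ (hneg _ k2)))
  · obtain ⟨σ, s0, s1, s2⟩ := exists_sigma (ξ := -ξ) hw (by linarith [hξ.2]) (by linarith)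
    have := sas_core (f := fun x => f (-x)) (h := h) (a1 := a2) (b1 := -b2) (a2 := a1) (b2 := -b1)
      (by fun_prop) hw hψ0 hψ s0 s1 (fun x0 k0 x1 k1 x2 k2 => ⟨?_, ?_⟩)
      (fun x hx => by linarith [h2 _ (hneg x hx)]) (fun x hx => by linarith [h1 _ (hneg x hx)])
      (by linarith) (by rw [neg_neg]; linarith) s2 (by linarith [hξ.2]) (by linarith) (by linarith)
    · rw [intervalIntegral.integral_comp_neg, neg_neg] at this
      refine this.trans (le_of_eq ?_)
      ring
    · have := hform _ (hfK _ (hneg _ k2)) _ (hfK _ (hneg _ k1)) _ (hfK _ (hneg _ k0))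
      simp only [form] at this ⊢
      linarith
    · have := hform _ (hs _ (hfK _ k2)) _ (hfK _ (hneg _ k1)) _ (hfK _ (hneg _ k0))
      simp only [form, Prod.fst_neg, Prod.snd_neg, neg_neg] at this ⊢
      linarith

theorem sas_min {K : Set (ℝ × ℝ)} (hs : ∀ z ∈ K, -z ∈ K) {f : ℝ → ℝ} (hf : Continuous f)
    {w h a1 b1 a2 b2 ψ : ℝ} (hw : 0 < w) (hψ0 : 0 ≤ ψ) (hψ : ψ ≤ π / 6)
    (hfK : ∀ x ∈ Icc (-w) w, (x, f x) ∈ K)
    (hform : ∀ u ∈ K, ∀ v ∈ K, ∀ t ∈ K, form u.1 u.2 v.1 v.2 t.1 t.2 ≤ h)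
    (h1 : ∀ x ∈ Icc (-w) w, f x ≤ a1 + b1 * x) (h2 : ∀ x ∈ Icc (-w) w, f x ≤ a2 + b2 * x)
    (hw0 : 0 ≤ f w + f (-w)) :
    ∫ x in (-w)..w, f x ≤ 2 * (π / 6 - ψ) / √3 * h + √3 * tan ψ *
      ∫ x in (-w)..w, min (a1 + b1 * x) (a2 + b2 * x) := by
  wlog hb : b1 ≤ b2 generalizing a1 b1 a2 b2
  · have := this h2 h1 (le_of_not_ge hb)
    simpa only [min_comm] using this
  have hww : -w ≤ w := by linarith
  have one : ∀ a b : ℝ, (∀ x ∈ Icc (-w) w, f x ≤ a + b * x) →
      (∀ x ∈ Icc (-w) w, min (a1 + b1 * x) (a2 + b2 * x) = a + b * x) →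
      ∫ x in (-w)..w, f x ≤ 2 * (π / 6 - ψ) / √3 * h + √3 * tan ψ *
        ∫ x in (-w)..w, min (a1 + b1 * x) (a2 + b2 * x) := by
    intro a b k1 k2
    refine (sas_cross hs hf hw hψ0 hψ hfK hform k1 k1 le_rfl hw0 (ξ := 0)
      ⟨by linarith, hw.le⟩ rfl).trans (le_of_eq ?_)
    rw [intervalIntegral.integral_congr (g := fun x => a + b * x)
      (fun x hx => k2 x (by rwa [uIcc_of_le hww] at hx)), int_line]
    ring
  by_cases c1 : a1 + b1 * -w ≤ a2 + b2 * -w
  · exact one a1 b1 h1 fun x hx => min_eq_left (by nlinarith [hx.1])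
  by_cases c2 : a2 + b2 * w ≤ a1 + b1 * w
  · exact one a2 b2 h2 fun x hx => min_eq_right (by nlinarith [hx.2])
  push Not at c1 c2
  have hlt : 0 < b2 - b1 := by nlinarith
  obtain ⟨ξ, hξ⟩ : ∃ ξ, a1 + b1 * ξ = a2 + b2 * ξ :=
    ⟨(a1 - a2) / (b2 - b1), by field_simp; ring⟩
  have hξ1 : -w ≤ ξ := by nlinarith
  have hξ2 : ξ ≤ w := by nlinarith
  refine (sas_cross hs hf hw hψ0 hψ hfK hform h1 h2 hb hw0 ⟨hξ1, hξ2⟩ hξ).trans (le_of_eq ?_)
  have hc : Continuous fun x : ℝ => min (a1 + b1 * x) (a2 + b2 * x) := by fun_prop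
  rw [← intervalIntegral.integral_add_adjacent_intervals (b := ξ) (hc.intervalIntegrable _ _)
    (hc.intervalIntegrable _ _), intervalIntegral.integral_congr (g := fun x => a2 + b2 * x)
      (fun x hx => min_eq_right (by rw [uIcc_of_le hξ1] at hx; nlinarith [hx.2])),
    intervalIntegral.integral_congr (a := ξ) (g := fun x => a1 + b1 * x)
      (fun x hx => min_eq_left (by rw [uIcc_of_le hξ2] at hx; nlinarith [hx.1])),
    int_line, int_line]
  ring

lemma exists_upper {K : Set (ℝ × ℝ)} (hK : IsCompact K) (hc : Convex ℝ K) (hs : ∀ z ∈ K, -z ∈ K)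
    {w : ℝ} (hw : 0 < w) (hle : ∀ z ∈ K, z.1 ≤ w) (ht : ∃ z ∈ K, z.1 = w) :
    ∃ f : ℝ → ℝ, Continuous f ∧ (∀ x ∈ Icc (-w) w, (x, f x) ∈ K) ∧ ∀ z ∈ K, z.2 ≤ f z.1 := by
  have hww : -w ≤ w := by linarith
  have hge : ∀ z ∈ K, -w ≤ z.1 := fun z hz => by
    have := hle _ (hs z hz); simp only [Prod.fst_neg] at this; linarith
  have hex : ∀ x, ∃ y, x ∈ Icc (-w) w → (x, y) ∈ K ∧ ∀ y', (x, y') ∈ K → y' ≤ y := by
    intro x
    by_cases hx : x ∈ Icc (-w) w
    · obtain ⟨z, hz, hzw⟩ := ht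
      have hne : (K ∩ {z | z.1 = x}).Nonempty := by
        refine ⟨_, hc hz (hs z hz) (a := (w + x) / (2 * w)) (b := (w - x) / (2 * w))
          (div_nonneg (by linarith [hx.1]) (by linarith)) (div_nonneg (by linarith [hx.2])
          (by linarith)) (by field_simp; ring), ?_⟩
        simp only [mem_ofPred_eq, Prod.fst_add, Prod.smul_fst, Prod.fst_neg, hzw, smul_eq_mul]
        field_simp; ring
      obtain ⟨m, ⟨hm1, hm2⟩, hm⟩ := (hK.inter_right (isClosed_eq continuous_fst
        continuous_const)).exists_isMaxOn hne continuous_snd.continuousOn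
      refine ⟨m.2, fun _ => ⟨?_, fun y' hy' => hm (a := (x, y')) ⟨hy', rfl⟩⟩⟩
      rw [← show m.1 = x from hm2]; exact hm1
    · exact ⟨0, fun h => absurd h hx⟩
  choose g hg using hex
  obtain ⟨M, hM⟩ := (hK.image continuous_snd).isBounded.exists_norm_le
  have hM' : ∀ x ∈ Icc (-w) w, |g x| ≤ M := fun x hx => hM _ ⟨_, (hg x hx).1, rfl⟩
  have hcont : ContinuousOn g (Icc (-w) w) := by
    intro x0 hx0
    rw [ContinuousWithinAt, tendsto_order]
    constructor
    · intro a ha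
      have hM0 : 0 ≤ M := (abs_nonneg _).trans (hM' x0 hx0)
      obtain ⟨l, l0, l1, l2⟩ : ∃ l : ℝ, 0 < l ∧ l ≤ 1 ∧ l * (2 * M) < g x0 - a := by
        refine ⟨min 1 ((g x0 - a) / (2 * M + 1)), lt_min one_pos (div_pos (by linarith)
          (by linarith)), min_le_left _ _, ?_⟩
        have : (g x0 - a) / (2 * M + 1) * (2 * M + 1) = g x0 - a := div_mul_cancel₀ _ (by linarith)
        have := div_pos (sub_pos.2 ha) (show 0 < 2 * M + 1 by linarith)
        nlinarith [min_le_right 1 ((g x0 - a) / (2 * M + 1))]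
      have hc1 : Tendsto (fun x => x0 + (x - x0) / l) (𝓝[Icc (-w) w] x0) (𝓝 x0) := by
        have : Continuous fun x => x0 + (x - x0) / l := by fun_prop
        simpa using (this.tendsto x0).mono_left nhdsWithin_le_nhds
      have e1 : ∀ᶠ x in 𝓝[Icc (-w) w] x0, x0 + (x - x0) / l ≤ w := by
        rcases hx0.2.eq_or_lt with h | h
        · filter_upwards [self_mem_nhdsWithin] with x hx
          have : (x - x0) / l ≤ 0 := div_nonpos_of_nonpos_of_nonneg (by linarith [hx.2]) l0.le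
          linarith
        · exact hc1.eventually (Iic_mem_nhds h)
      have e2 : ∀ᶠ x in 𝓝[Icc (-w) w] x0, -w ≤ x0 + (x - x0) / l := by
        rcases hx0.1.eq_or_lt with h | h
        · filter_upwards [self_mem_nhdsWithin] with x hx
          have : 0 ≤ (x - x0) / l := div_nonneg (by linarith [hx.1]) l0.le
          linarith
        · exact hc1.eventually (Ici_mem_nhds h)
      filter_upwards [self_mem_nhdsWithin, e1, e2] with x hx k1 k2
      have hmem := hc (hg x0 hx0).1 (hg _ ⟨k2, k1⟩).1 (a := 1 - l) (b := l) (by linarith) l0.le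
        (by ring)
      have e : (1 - l) • (x0, g x0) + l • (x0 + (x - x0) / l, g (x0 + (x - x0) / l)) =
          (x, (1 - l) * g x0 + l * g (x0 + (x - x0) / l)) := by
        ext
        · simp only [Prod.fst_add, Prod.smul_fst, smul_eq_mul]; field_simp; ring
        · simp
      rw [e] at hmem
      have := (hg x hx).2 _ hmem
      have q1 := (abs_le.1 (hM' _ ⟨k2, k1⟩)).1
      have q2 := (abs_le.1 (hM' _ hx0)).2
      nlinarith
    · intro a ha
      have hcl : IsClosed (Prod.fst '' (K ∩ {z | a ≤ z.2})) :=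
        ((hK.inter_right (isClosed_le continuous_const continuous_snd)).image
          continuous_fst).isClosed
      have hn : x0 ∉ Prod.fst '' (K ∩ {z | a ≤ z.2}) := by
        rintro ⟨z, ⟨hz1, hz2⟩, rfl⟩
        exact absurd ((hg _ hx0).2 z.2 hz1) (not_le.2 (ha.trans_le hz2))
      filter_upwards [self_mem_nhdsWithin,
        mem_nhdsWithin_of_mem_nhds (hcl.isOpen_compl.mem_nhds hn)] with x hx k
      by_contra hlt
      exact k ⟨(x, g x), ⟨(hg x hx).1, not_lt.1 hlt⟩, rfl⟩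
  refine ⟨fun x => g (projIcc (-w) w hww x), ?_, fun x hx => ?_, fun z hz => ?_⟩
  · exact hcont.comp_continuous (continuous_subtype_val.comp continuous_projIcc)
      fun x => (projIcc (-w) w hww x).2
  · simp only [projIcc_of_mem hww hx]; exact (hg x hx).1
  · have hz' : z.1 ∈ Icc (-w) w := ⟨hge z hz, hle z hz⟩
    simp only [projIcc_of_mem hww hz']; exact (hg _ hz').2 z.2 hz

lemma volume_strip {f : ℝ → ℝ} (hf : Continuous f) {w : ℝ} (hw : 0 ≤ w)
    (h : ∀ x ∈ Icc (-w) w, 0 ≤ f x + f (-x)) :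
    ∫⁻ x in Ioo (-w) w, ENNReal.ofReal (f x + f (-x)) =
      ENNReal.ofReal (2 * ∫ x in (-w)..w, f x) := by
  have hc : Continuous fun x => f x + f (-x) := by fun_prop
  have hww : -w ≤ w := by linarith
  rw [← ofReal_integral_eq_lintegral_ofReal
    (hc.continuousOn.integrableOn_Icc.mono_set Ioo_subset_Icc_self)
    ((ae_restrict_iff' measurableSet_Ioo).2 (ae_of_all _ fun x hx => h x (Ioo_subset_Icc_self hx))),
    ← integral_Ioc_eq_integral_Ioo, ← intervalIntegral.integral_of_le hww,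
    intervalIntegral.integral_add (hf.intervalIntegrable _ _)
      ((by fun_prop : Continuous fun x => f (-x)).intervalIntegrable _ _),
    intervalIntegral.integral_comp_neg, neg_neg, two_mul]

theorem sas_prod {K : Set (ℝ × ℝ)} (hK : IsCompact K) (hc : Convex ℝ K) (hs : ∀ z ∈ K, -z ∈ K)
    {w h a1 b1 a2 b2 ψ : ℝ} (hw : 0 < w) (hle : ∀ z ∈ K, z.1 ≤ w) (ht : ∃ z ∈ K, z.1 = w)
    (hψ0 : 0 ≤ ψ) (hψ : ψ ≤ π / 6)
    (hform : ∀ u ∈ K, ∀ v ∈ K, ∀ t ∈ K, form u.1 u.2 v.1 v.2 t.1 t.2 ≤ h)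
    (h1 : ∀ z ∈ K, z.2 ≤ a1 + b1 * z.1) (h2 : ∀ z ∈ K, z.2 ≤ a2 + b2 * z.1) :
    ∃ H : ℝ, 0 ≤ H ∧ ENNReal.ofReal H ≤
      volume {z : ℝ × ℝ | |z.1| < w ∧ |z.2 - b1 * z.1| < a1 ∧ |z.2 - b2 * z.1| < a2} ∧
      volume K ≤ ENNReal.ofReal (4 * (π / 6 - ψ) / √3 * h + √3 * tan ψ * H) := by
  obtain ⟨f, hf, hfK, hKf⟩ := exists_upper hK hc hs hw hle ht
  have hneg : ∀ x ∈ Icc (-w) w, -x ∈ Icc (-w) w := fun x hx =>
    ⟨by linarith [hx.2], by linarith [hx.1]⟩
  have hf0 : ∀ x ∈ Icc (-w) w, 0 ≤ f x + f (-x) := fun x hx => by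
    have := hKf _ (hs _ (hfK x hx))
    simp only [Prod.snd_neg, Prod.fst_neg] at this
    linarith
  let m : ℝ → ℝ := fun x => min (a1 + b1 * x) (a2 + b2 * x)
  have hm : Continuous m := by fun_prop
  have hfm : ∀ x ∈ Icc (-w) w, f x ≤ m x := fun x hx => le_min (h1 _ (hfK x hx)) (h2 _ (hfK x hx))
  have hm0 : ∀ x ∈ Icc (-w) w, 0 ≤ m x + m (-x) := fun x hx => by
    linarith [hf0 x hx, hfm x hx, hfm _ (hneg x hx)]
  have key := sas_min hs hf hw hψ0 hψ hfK hform (fun x hx => h1 _ (hfK x hx))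
    (fun x hx => h2 _ (hfK x hx)) (hf0 w ⟨by linarith, le_rfl⟩)
  refine ⟨2 * ∫ x in (-w)..w, m x, ?_, ?_, ?_⟩
  · have := intervalIntegral.integral_nonneg (μ := volume) (f := fun x => m x + m (-x))
      (show -w ≤ w by linarith) hm0
    rwa [intervalIntegral.integral_add (hm.intervalIntegrable _ _)
      ((by fun_prop : Continuous fun x => m (-x)).intervalIntegrable _ _),
      intervalIntegral.integral_comp_neg, neg_neg, ← two_mul] at this
  · rw [← volume_strip hm hw.le hm0]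
    have := volume_regionBetween_eq_lintegral' (μ := volume) (f := fun x => -m (-x)) (g := m)
      (by fun_prop) hm.measurable (measurableSet_Ioo (a := -w) (b := w))
    simp only [Pi.sub_apply, sub_neg_eq_add] at this
    rw [← this]
    refine measure_mono fun z hz => ?_
    obtain ⟨k1, k2, k3⟩ := hz
    have q1 := min_le_left (a1 + b1 * z.1) (a2 + b2 * z.1)
    have q2 := min_le_right (a1 + b1 * z.1) (a2 + b2 * z.1)
    have q3 := min_le_left (a1 + b1 * -z.1) (a2 + b2 * -z.1)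
    have q4 := min_le_right (a1 + b1 * -z.1) (a2 + b2 * -z.1)
    simp only [m] at k2 k3
    exact ⟨abs_lt.2 k1, abs_lt.2 ⟨by linarith, by linarith⟩, abs_lt.2 ⟨by linarith, by linarith⟩⟩
  · refine le_trans ?_ (ENNReal.ofReal_le_ofReal (show 2 * ∫ x in (-w)..w, f x ≤ _ by
      simp only [m]; linarith [key, show 4 * (π / 6 - ψ) / √3 * h = 2 * (2 * (π / 6 - ψ) / √3 * h)
        by ring]))
    rw [← volume_strip hf hw.le hf0, Measure.volume_eq_prod, Measure.prod_apply hK.measurableSet,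
      Measure.restrict_congr_set Ioo_ae_eq_Icc, ← lintegral_indicator measurableSet_Icc]
    refine lintegral_mono fun x => ?_
    by_cases hx : x ∈ Icc (-w) w
    · rw [indicator_of_mem hx, ← sub_neg_eq_add, ← Real.volume_Icc]
      refine measure_mono fun y hy => ⟨?_, hKf _ hy⟩
      have := hKf _ (hs _ hy)
      simp only [Prod.snd_neg, Prod.fst_neg] at this
      linarith
    · have : Prod.mk x ⁻¹' K = ∅ := by
        refine eq_empty_of_forall_notMem fun y hy => hx ⟨?_, hle _ hy⟩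
        have := hle _ (hs _ hy)
        simp only [Prod.fst_neg] at this
        linarith
      simp [this]

end Pool.Agent.Lib.MP_fb520c_co
end
end

-- part Pool.Agent.Lib.MP_fb520c_co.Supp
section

/-! Support functions, and the area inequality in the plane. -/

set_option autoImplicit false

open MeasureTheory Set Real Filter Topology Metric

noncomputable section

namespace Pool.Agent.Lib.MP_fb520c_co

/-- a convex body symmetric about the origin -/
structure Sym0 (C : Set Plane) : Prop where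
  cpt : IsCompact C
  cvx : Convex ℝ C
  sym : ∀ z ∈ C, -z ∈ C
  int : ∃ ε : ℝ, 0 < ε ∧ closedBall (0 : Plane) ε ⊆ C

/-- the support function -/
def supp (C : Set Plane) (θ : ℝ) : ℝ := sSup ((fun z => ip z θ) '' C)

/-- the unit vector of angle `θ`, scaled -/
def pol (r θ : ℝ) : Plane := pt (r * cos θ) (r * sin θ)

lemma norm_pol (r θ : ℝ) : ‖pol r θ‖ = |r| := by
  refine (sq_eq_sq₀ (norm_nonneg _) (abs_nonneg _)).1 ?_
  rw [norm_sq_eq, sq_abs]
  simp only [pol, pt_zero, pt_one]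
  linear_combination r ^ 2 * sin_sq_add_cos_sq θ

lemma ip_pol (r θ t : ℝ) : ip (pol r θ) t = r * cos (t - θ) := by
  simp only [ip, pol, pt_zero, pt_one, cos_sub]; ring

lemma ip_rot (z : Plane) (a b : ℝ) :
    ip z b = ip z a * cos (b - a) + ip z (a + π / 2) * sin (b - a) := by
  simp only [ip, cos_add_pi_div_two, sin_add_pi_div_two, cos_sub, sin_sub]
  linear_combination (-(z 0 * cos b + z 1 * sin b)) * sin_sq_add_cos_sq a

lemma Sym0.ne {C : Set Plane} (hC : Sym0 C) : C.Nonempty := by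
  obtain ⟨ε, h, h'⟩ := hC.int
  exact ⟨0, h' (mem_closedBall_self h.le)⟩

lemma le_supp {C : Set Plane} (hC : IsCompact C) {z : Plane} (hz : z ∈ C) (θ : ℝ) :
    ip z θ ≤ supp C θ :=
  le_csSup (hC.image (continuous_ip θ)).bddAbove ⟨z, hz, rfl⟩

lemma exists_supp {C : Set Plane} (hC : IsCompact C) (hne : C.Nonempty) (θ : ℝ) :
    ∃ z ∈ C, ip z θ = supp C θ :=
  (hC.image (continuous_ip θ)).sSup_mem (hne.image _)

lemma Sym0.isSupp {C : Set Plane} (hC : Sym0 C) : IsSupp (supp C) where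
  pos θ := by
    obtain ⟨ε, h, h'⟩ := hC.int
    have := le_supp hC.cpt (h' (show pol ε θ ∈ closedBall 0 ε by
      rw [mem_closedBall_zero_iff, norm_pol, abs_of_pos h])) θ
    rw [ip_pol, sub_self, cos_zero] at this
    linarith
  per θ := by
    apply le_antisymm
    · obtain ⟨z, hz, e⟩ := exists_supp hC.cpt hC.ne (θ + π)
      rw [← e, ip_add_pi, ← ip_neg]
      exact le_supp hC.cpt (hC.sym z hz) θ
    · obtain ⟨z, hz, e⟩ := exists_supp hC.cpt hC.ne θ
      have := le_supp hC.cpt (hC.sym z hz) (θ + π)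
      rwa [ip_add_pi, ip_neg, neg_neg, e] at this
  conv z s t u hst htu hus h1 h2 := by
    rcases (hst.trans htu).eq_or_lt with h | h
    · rwa [show t = s by linarith]
    obtain ⟨y, hy, e⟩ := exists_supp hC.cpt hC.ne t
    have k : ∀ v : Plane, sin (u - s) * ip v t = sin (u - t) * ip v s + sin (t - s) * ip v u := by
      intro v
      simp only [ip, sin_sub]
      ring
    have p1 : 0 < sin (u - s) := sin_pos_of_pos_of_lt_pi (by linarith) hus
    have p2 : 0 ≤ sin (u - t) := sin_nonneg_of_nonneg_of_le_pi (by linarith) (by linarith)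
    have p3 : 0 ≤ sin (t - s) := sin_nonneg_of_nonneg_of_le_pi (by linarith) (by linarith)
    refine le_of_mul_le_mul_left ?_ p1
    rw [← e, k, k]
    exact add_le_add (mul_le_mul_of_nonneg_left ((le_supp hC.cpt hy s).trans h1) p2)
      (mul_le_mul_of_nonneg_left ((le_supp hC.cpt hy u).trans h2) p3)

lemma Sym0.strip {C : Set Plane} (hC : Sym0 C) (a b : ℝ) : ∃ a1 b1 : ℝ,
    (∀ z ∈ C, ip z (a + π / 2) ≤ a1 + b1 * ip z a) ∧ ∀ z : Plane, |ip z a| < supp C a →
      |ip z (a + π / 2) - b1 * ip z a| < a1 → |ip z b| < supp C b := by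
  by_cases hs : sin (b - a) = 0
  · refine ⟨supp C (a + π / 2), 0, fun z hz => by simpa using le_supp hC.cpt hz _,
      fun z h1 _ => ?_⟩
    have hc : |cos (b - a)| = 1 := by
      have := sin_sq_add_cos_sq (b - a)
      rw [hs] at this
      exact (sq_eq_sq₀ (abs_nonneg _) zero_le_one).1 (by rw [sq_abs]; linarith)
    have e : ∀ v : Plane, |ip v b| = |ip v a| := fun v => by
      rw [ip_rot v a b, hs, mul_zero, add_zero, abs_mul, hc, mul_one]
    obtain ⟨y, hy, e'⟩ := exists_supp hC.cpt hC.ne a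
    rw [e]
    refine h1.trans_le ?_
    rw [← e']
    refine (le_abs_self _).trans ?_
    rw [← e, abs_le]
    have := le_supp hC.cpt (hC.sym y hy) b
    rw [ip_neg] at this
    exact ⟨by linarith, le_supp hC.cpt hy b⟩
  · have hp : 0 < |sin (b - a)| := abs_pos.2 hs
    have e : ∀ v : Plane, |ip v (a + π / 2) - -(cos (b - a) / sin (b - a)) * ip v a| =
        |ip v b| / |sin (b - a)| := fun v => by
      rw [← abs_div, ip_rot v a b]
      congr 1
      field_simp
      ring
    refine ⟨supp C b / |sin (b - a)|, -(cos (b - a) / sin (b - a)), fun z hz => ?_,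
      fun z _ h2 => ?_⟩
    · have h1 : |ip z b| ≤ supp C b := by
        have := le_supp hC.cpt (hC.sym z hz) b
        rw [ip_neg] at this
        exact abs_le.2 ⟨by linarith, le_supp hC.cpt hz b⟩
      have := le_abs_self (ip z (a + π / 2) - -(cos (b - a) / sin (b - a)) * ip z a)
      rw [e] at this
      linarith [div_le_div_of_nonneg_right h1 hp.le]
    · rwa [e, div_lt_div_iff_of_pos_right hp] at h2

/-- the area of the hexagon with vertices `± u, ± v, ± t` -/
def hform (u v t : Plane) : ℝ := dt u v + dt v t + dt u t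

theorem Sym0.sas {C : Set Plane} (hC : Sym0 C) {h ψ : ℝ} (hψ0 : 0 ≤ ψ) (hψ : ψ ≤ π / 6)
    (hh : ∀ u ∈ C, ∀ v ∈ C, ∀ t ∈ C, hform u v t ≤ h) (a b c : ℝ) :
    ∃ H : ℝ, 0 ≤ H ∧ ENNReal.ofReal H ≤ volume (hexS (supp C) a b c) ∧
      volume C ≤ ENNReal.ofReal (4 * (π / 6 - ψ) / √3 * h + √3 * tan ψ * H) := by
  let T := lin (cos a) (sin a) (-sin a) (cos a)
  have hT : ∀ z, T z = (ip z a, ip z (a + π / 2)) := fun z => by
    simp only [T, lin, ip, cos_add_pi_div_two, sin_add_pi_div_two, Prod.mk.injEq]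
    constructor <;> ring
  have hdet : cos a * cos a - sin a * -sin a = 1 := by linear_combination sin_sq_add_cos_sq a
  have hlin : IsLinearMap ℝ T := ⟨fun x y => by simp [T, lin]; constructor <;> ring,
    fun r x => by simp [T, lin]; constructor <;> ring⟩
  have hK : IsCompact (T '' C) := hC.cpt.image (continuous_lin _ _ _ _)
  obtain ⟨a1, b1, k1, k1'⟩ := hC.strip a b
  obtain ⟨a2, b2, k2, k2'⟩ := hC.strip a c
  obtain ⟨H, H0, H1, H2⟩ := sas_prod (K := T '' C) (w := supp C a) (h := h) (a1 := a1) (b1 := b1)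
    (a2 := a2) (b2 := b2) hK (hC.cvx.is_linear_image hlin)
    (by rintro _ ⟨z, hz, rfl⟩; exact ⟨-z, hC.sym z hz, hlin.map_neg z⟩) (hC.isSupp.pos a)
    (by rintro _ ⟨z, hz, rfl⟩; rw [hT]; exact le_supp hC.cpt hz a)
    (by obtain ⟨z, hz, e⟩ := exists_supp hC.cpt hC.ne a
        exact ⟨_, ⟨z, hz, rfl⟩, by rw [hT]; exact e⟩) hψ0 hψ
    (by rintro _ ⟨u, hu, rfl⟩ _ ⟨v, hv, rfl⟩ _ ⟨t, ht, rfl⟩
        refine le_trans (le_of_eq ?_) (hh u hu v hv t ht)
        simp only [T, lin, form, hform, dt]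
        linear_combination (u 0 * v 1 - u 1 * v 0 + (v 0 * t 1 - v 1 * t 0) +
          (u 0 * t 1 - u 1 * t 0)) * hdet)
    (by rintro _ ⟨z, hz, rfl⟩; rw [hT]; exact k1 z hz)
    (by rintro _ ⟨z, hz, rfl⟩; rw [hT]; exact k2 z hz)
  refine ⟨H, H0, H1.trans ?_, le_trans ?_ H2⟩
  · have ho : IsOpen {z : ℝ × ℝ | |z.1| < supp C a ∧ |z.2 - b1 * z.1| < a1 ∧
        |z.2 - b2 * z.1| < a2} := by
      refine IsOpen.and ?_ (IsOpen.and ?_ ?_) <;> exact isOpen_lt (by fun_prop) (by fun_prop)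
    rw [← volume_lin_one hdet ho.measurableSet]
    refine measure_mono fun z hz => ?_
    have hz' : |(T z).1| < supp C a ∧ |(T z).2 - b1 * (T z).1| < a1 ∧
      |(T z).2 - b2 * (T z).1| < a2 := hz
    rw [hT] at hz'
    exact ⟨hz'.1, k1' z hz'.1 hz'.2.1, k2' z hz'.1 hz'.2.2⟩
  · rw [← volume_lin_one hdet hK.measurableSet]
    exact measure_mono (subset_preimage_image _ _)

end Pool.Agent.Lib.MP_fb520c_co
end
end

-- part Pool.Agent.Lib.MP_fb520c_co.Poly
section

/-! Disjoint open convex sets in a square grow to disjoint polygons with at most six sides on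
average. -/

set_option autoImplicit false

open MeasureTheory Filter Metric Set Topology

noncomputable section

namespace Pool.Agent.Lib.MP_fb520c_co

/-- the scalar product in coordinates -/
def fv (v z : Plane) : ℝ := v 0 * z 0 + v 1 * z 1

lemma fv_add_smul (v z w : Plane) (s : ℝ) : fv v (z + s • w) = fv v z + s * fv v w := by
  simp [fv]; ring

lemma continuous_fv (v : Plane) : Continuous (fv v) := by unfold fv; fun_prop

/-- the open polygon cut out by finitely many half-planes -/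
def poly (S : Finset (Plane × ℝ)) : Set Plane := {z | ∀ h ∈ S, fv h.1 z < h.2}

lemma isOpen_poly (S : Finset (Plane × ℝ)) : IsOpen (poly S) := by
  have : poly S = ⋂ h ∈ S, {z | fv h.1 z < h.2} := by ext z; simp [poly]
  rw [this]
  exact isOpen_biInter_finset fun h _ => isOpen_lt (continuous_fv _) continuous_const

lemma convex_half (v : Plane) (c : ℝ) : Convex ℝ {z | fv v z < c} := by
  refine convex_halfSpace_lt ⟨fun x y => ?_, fun a x => ?_⟩ c
  · simp [fv]; ring
  · simp [fv]; ring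

lemma convex_poly (S : Finset (Plane × ℝ)) : Convex ℝ (poly S) := by
  have : poly S = ⋂ h ∈ S, {z | fv h.1 z < h.2} := by ext z; simp [poly]
  rw [this]
  exact convex_iInter₂ fun h _ => convex_half _ _

/-- the open square with centre `o` and side `2 L` -/
def sq (o : Plane) (L : ℝ) : Set Plane := {z | |z 0 - o 0| < L ∧ |z 1 - o 1| < L}

/-- the upper constraints of the square -/
def sqUp (o : Plane) (L : ℝ) : Finset (Plane × ℝ) := by
  classical exact {(pt 1 0, o 0 + L), (pt 0 1, o 1 + L)}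

/-- the lower constraints of the square -/
def sqDown (o : Plane) (L : ℝ) : Finset (Plane × ℝ) := by
  classical exact {(pt (-1) 0, L - o 0), (pt 0 (-1), L - o 1)}

lemma mem_poly_sqUp {o z : Plane} {L : ℝ} :
    z ∈ poly (sqUp o L) ↔ z 0 < o 0 + L ∧ z 1 < o 1 + L := by
  simp [poly, sqUp, fv]

lemma mem_poly_sqDown {o z : Plane} {L : ℝ} :
    z ∈ poly (sqDown o L) ↔ o 0 - L < z 0 ∧ o 1 - L < z 1 := by
  simp only [poly, sqDown, fv, Finset.mem_insert, Finset.mem_singleton, forall_eq_or_imp,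
    forall_eq, mem_ofPred_eq, pt_zero, pt_one]
  constructor <;> rintro ⟨h1, h2⟩ <;> constructor <;> linarith

lemma mem_sq {o z : Plane} {L : ℝ} :
    z ∈ sq o L ↔ (z 0 < o 0 + L ∧ z 1 < o 1 + L) ∧ o 0 - L < z 0 ∧ o 1 - L < z 1 := by
  simp only [sq, mem_ofPred_eq, abs_lt]
  constructor
  · rintro ⟨⟨h1, h2⟩, h3, h4⟩
    exact ⟨⟨by linarith, by linarith⟩, by linarith, by linarith⟩
  · rintro ⟨⟨h1, h2⟩, h3, h4⟩
    exact ⟨⟨by linarith, by linarith⟩, by linarith, by linarith⟩

lemma sq_eq (o : Plane) (L : ℝ) : sq o L = poly (sqUp o L) ∩ poly (sqDown o L) := by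
  ext z
  rw [mem_inter_iff, mem_poly_sqUp, mem_poly_sqDown, mem_sq]

lemma isOpen_sq (o : Plane) (L : ℝ) : IsOpen (sq o L) := by
  rw [sq_eq]; exact (isOpen_poly _).inter (isOpen_poly _)

lemma convex_sq (o : Plane) (L : ℝ) : Convex ℝ (sq o L) := by
  rw [sq_eq]; exact (convex_poly _).inter (convex_poly _)

lemma card_sqUp (o : Plane) (L : ℝ) : (sqUp o L).card ≤ 2 := by
  unfold sqUp; exact Finset.card_le_two

lemma card_sqDown (o : Plane) (L : ℝ) : (sqDown o L).card ≤ 2 := by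
  unfold sqDown; exact Finset.card_le_two

lemma exists_sep {A B : Set Plane} (hA : Convex ℝ A) (hA' : IsOpen A) (hB : Convex ℝ B)
    (hB' : IsOpen B) (h : Disjoint A B) :
    ∃ (v : Plane) (c : ℝ), (∀ a ∈ A, fv v a < c) ∧ ∀ b ∈ B, c < fv v b := by
  obtain ⟨f, u, h1, h2⟩ := geometric_hahn_banach_open_open hA hA' hB hB' h
  have e : ∀ z, fv (pt (f (pt 1 0)) (f (pt 0 1))) z = f z := by
    intro z
    have : z = z 0 • pt 1 0 + z 1 • pt 0 1 := plane_ext (by simp) (by simp)
    conv_rhs => rw [this]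
    simp [fv]; ring
  exact ⟨_, u, fun a ha => by rw [e]; exact h1 a ha, fun b hb => by rw [e]; exact h2 b hb⟩

variable {ι : Type} [Fintype ι]

/-- admissible systems -/
def Sys (Q : Set Plane) (R : ι → Set Plane) : Prop :=
  (∀ i, IsOpen (R i) ∧ Convex ℝ (R i) ∧ R i ⊆ Q) ∧ ∀ i j, i ≠ j → Disjoint (R i) (R j)

omit [Fintype ι] in
lemma exists_maximal_sys {Q : Set Plane} {C : ι → Set Plane} (hC : Sys Q C) :
    ∃ R, (∀ i, C i ⊆ R i) ∧ Sys Q R ∧ ∀ i W, IsOpen W → Convex ℝ W → W ⊆ Q → R i ⊆ W →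
      (∀ j, j ≠ i → Disjoint W (R j)) → W ⊆ R i := by
  classical
  obtain ⟨R, hCR, hR, hmax⟩ := zorn_le_nonempty₀ {R | Sys Q R} (fun c hc hch y hy => by
    refine ⟨fun i => ⋃ R ∈ c, R i, ⟨fun i => ⟨isOpen_biUnion fun R hR => ((hc hR).1 i).1, ?_,
      iUnion₂_subset fun R hR => ((hc hR).1 i).2.2⟩, fun i j hij => ?_⟩,
      fun R hR i => subset_biUnion_of_mem (u := fun R : ι → Set Plane => R i) hR⟩
    · intro x hx y hy a b ha hb hab
      obtain ⟨R, hR, hx⟩ := mem_iUnion₂.1 hx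
      obtain ⟨R', hR', hy⟩ := mem_iUnion₂.1 hy
      rcases hch.total hR hR' with h | h
      · exact mem_iUnion₂.2 ⟨R', hR', ((hc hR').1 i).2.1 (h i hx) hy ha hb hab⟩
      · exact mem_iUnion₂.2 ⟨R, hR, ((hc hR).1 i).2.1 hx (h i hy) ha hb hab⟩
    · rw [Set.disjoint_left]
      intro x hx hy
      obtain ⟨R, hR, hx⟩ := mem_iUnion₂.1 hx
      obtain ⟨R', hR', hy⟩ := mem_iUnion₂.1 hy
      rcases hch.total hR hR' with h | h
      · exact Set.disjoint_left.1 ((hc hR').2 i j hij) (h i hx) hy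
      · exact Set.disjoint_left.1 ((hc hR).2 i j hij) hx (h j hy)) C hC
  refine ⟨R, hCR, hR, fun i W h1 h2 h3 h4 h5 => ?_⟩
  have hs : Sys Q (Function.update R i W) := by
    refine ⟨fun j => ?_, fun j k hjk => ?_⟩
    · by_cases h : j = i
      · subst h; simpa using ⟨h1, h2, h3⟩
      · rw [Function.update_of_ne h]; exact hR.1 j
    · by_cases h : j = i
      · subst h
        rw [Function.update_self, Function.update_of_ne hjk.symm]
        exact h5 k hjk.symm
      · rw [Function.update_of_ne h]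
        by_cases h' : k = i
        · subst h'
          rw [Function.update_self]
          exact (h5 j h).symm
        · rw [Function.update_of_ne h']
          exact hR.2 j k hjk
  have hle : R ≤ Function.update R i W := by
    intro j
    by_cases h : j = i
    · subst h; simpa using h4
    · rw [Function.update_of_ne h]
  simpa using hmax hs hle i

/-- vertical order between disjoint convex sets, the vertical direction being `(1, s)` -/
def Below {κ : Type} (s : ℝ) (B : κ → Set Plane) (a b : κ) : Prop :=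
  a ≠ b ∧ ∃ z ∈ B a, ∃ r > (0 : ℝ), z + r • pt 1 s ∈ B b

/-- the set meets the vertical line with parameter `t` -/
def Act {κ : Type} (s : ℝ) (B : κ → Set Plane) (a : κ) (t : ℝ) : Prop :=
  ∃ z ∈ B a, z 1 - s * z 0 = t

lemma eq_add_vert {s : ℝ} {z z' : Plane} (h : z 1 - s * z 0 = z' 1 - s * z' 0) :
    z' = z + (z' 0 - z 0) • pt 1 s :=
  plane_ext (by simp) (by simp; linarith)

section Order

variable {κ : Type} {s : ℝ} {B : κ → Set Plane} (hc : ∀ k, Convex ℝ (B k))
  (hd : ∀ a b, a ≠ b → Disjoint (B a) (B b))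

include hc hd

lemma below_asymm (a b : κ) (h : Below s B a b) : ¬ Below s B b a := by
  rintro ⟨-, z', hz', r', hr', h'⟩
  obtain ⟨hab, z, hz, r, hr, h⟩ := h
  have hp : 0 < r + r' := by linarith
  have e1 := hc a hz h' (a := r' / (r + r')) (b := r / (r + r')) (by positivity) (by positivity)
    (by field_simp; ring)
  have e2 := hc b h hz' (a := r' / (r + r')) (b := r / (r + r')) (by positivity) (by positivity)
    (by field_simp; ring)
  refine Set.disjoint_left.1 (hd a b hab) e1 ?_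
  convert e2 using 1
  refine plane_ext ?_ ?_ <;> simp <;> field_simp <;> ring

lemma below_iff {a b : κ} (hab : a ≠ b) {z z' : Plane} (hz : z ∈ B a) (hz' : z' ∈ B b)
    (h : z 1 - s * z 0 = z' 1 - s * z' 0) : Below s B a b ↔ z 0 < z' 0 := by
  constructor
  · intro hb
    by_contra hn
    rcases (not_lt.1 hn).lt_or_eq with h1 | h1
    · exact below_asymm hc hd a b hb ⟨hab.symm, z', hz', z 0 - z' 0, by linarith,
        by rw [← eq_add_vert h.symm]; exact hz⟩
    · have : z' = z := plane_ext h1 (by rw [h1] at h; linarith)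
      exact Set.disjoint_left.1 (hd a b hab) hz (this ▸ hz')
  · intro h1
    exact ⟨hab, z, hz, z' 0 - z 0, by linarith, by rw [← eq_add_vert h]; exact hz'⟩

lemma below_total (t : ℝ) (a b : κ) (ha : Act s B a t) (hb : Act s B b t) (hab : a ≠ b) :
    Below s B a b ∨ Below s B b a := by
  obtain ⟨z, hz, e⟩ := ha
  obtain ⟨z', hz', e'⟩ := hb
  rw [below_iff hc hd hab hz hz' (e.trans e'.symm), below_iff hc hd hab.symm hz' hz
    (e'.trans e.symm)]
  rcases lt_trichotomy (z 0) (z' 0) with h | h | h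
  · exact Or.inl h
  · have : z = z' := plane_ext h (by rw [h] at e; linarith)
    exact absurd (this ▸ hz' : z ∈ B b) (Set.disjoint_left.1 (hd a b hab) hz)
  · exact Or.inr h

lemma below_trans (t : ℝ) (a b c : κ) (ha : Act s B a t) (hb : Act s B b t) (hc' : Act s B c t)
    (h1 : Below s B a b) (h2 : Below s B b c) : Below s B a c := by
  have hac : a ≠ c := fun e => below_asymm hc hd a b h1 (e ▸ h2)
  obtain ⟨z, hz, e⟩ := ha
  obtain ⟨z', hz', e'⟩ := hb
  obtain ⟨z'', hz'', e''⟩ := hc'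
  rw [below_iff hc hd h1.1 hz hz' (e.trans e'.symm)] at h1
  rw [below_iff hc hd h2.1 hz' hz'' (e'.trans e''.symm)] at h2
  exact (below_iff hc hd hac hz hz'' (e.trans e''.symm)).2 (h1.trans h2)

omit hd in
lemma act_conn (m : κ) (a b t : ℝ) (ha : Act s B m a) (hb : Act s B m b) (h1 : a ≤ t)
    (h2 : t ≤ b) : Act s B m t := by
  obtain ⟨z, hz, e⟩ := ha
  obtain ⟨z', hz', e'⟩ := hb
  rcases h1.lt_or_eq with h1 | h1
  · have hp : 0 < b - a := by linarith
    refine ⟨_, hc m hz hz' (a := (b - t) / (b - a)) (b := (t - a) / (b - a))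
      (div_nonneg (by linarith) hp.le) (div_nonneg (by linarith) hp.le) (by field_simp; ring), ?_⟩
    simp only [PiLp.add_apply, PiLp.smul_apply, smul_eq_mul]
    have e3 : z 1 = a + s * z 0 := by linarith
    have e4 : z' 1 = b + s * z' 0 := by linarith
    rw [e3, e4]
    field_simp
    ring
  · exact ⟨z, hz, e.trans h1⟩

end Order

end Pool.Agent.Lib.MP_fb520c_co
end
end
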