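import Pool.Agent.Lib.MP_fb520c_co.Cap

/-! The square-root form of the bound. -/

set_option autoImplicit false

open Set Real Filter Topology

noncomputable section

namespace Pool.Agent.Lib.MP_fb520c_co

lemma beta_le {s : ℝ} (h0 : 0 ≤ s) (h1 : √3 / 2 * s ≤ π / 6) :
    √3 * tan (π / 6 - √3 / 2 * s) ≤ (1 - s) ^ 2 := by
  have hpi := pi_pos
  have h3 : √3 * √3 = 3 := Real.mul_self_sqrt (by norm_num)
  have h3p : 0 < √3 := by positivity
  set φ := √3 / 2 * s with hφ
  have φ0 : 0 ≤ φ := by positivity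
  obtain ⟨c1, s1, -⟩ := trig_pos (ψ := φ) ⟨φ0, h1⟩
  obtain ⟨c2, -, -⟩ := trig_pos (ψ := π / 6 - φ) ⟨by linarith, by linarith⟩
  have k : φ * cos φ ≤ sin φ := by
    have := mul_le_mul_of_nonneg_right (le_tan φ0 (by linarith)) c1.le
    rwa [tan_mul_cos c1.ne'] at this
  rw [tan_eq_sin_div_cos, ← mul_div_assoc, div_le_iff₀ c2, sin_sub, cos_sub, sin_pi_div_six,
    cos_pi_div_six]
  have e : (1 - s) ^ 2 * (√3 / 2 * cos φ + 1 / 2 * sin φ) -
      √3 * (1 / 2 * cos φ - √3 / 2 * sin φ) =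
      (3 / 2 + (1 - s) ^ 2 / 2) * (sin φ - φ * cos φ) + √3 / 4 * s ^ 3 * cos φ := by
    rw [hφ]; linear_combination (sin (√3 / 2 * s) / 2) * h3
  have : 0 ≤ (3 / 2 + (1 - s) ^ 2 / 2) * (sin φ - φ * cos φ) + √3 / 4 * s ^ 3 * cos φ :=
    add_nonneg (mul_nonneg (by positivity) (by linarith)) (by positivity)
  linarith

theorem sqrt_bound {C : Set Plane} (h1 : IsConvexBody C) (h2 : IsCentrallySymmetric C) :
    latticeCoveringDensity C - 1 ≤ √(1 - packingDensity C) := by
  have hpi := pi_pos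
  have h3p : 0 < √3 := by positivity
  have q1 : 1.73 < √3 := Real.lt_sqrt_of_sq_lt (by norm_num)
  have q2 : √3 < 1.74 := (sqrt_lt' (by norm_num)).2 (by norm_num)
  have q3 := pi_lt_d2
  have q4 := pi_gt_d2
  obtain ⟨p1, p2, p3, -⟩ := main_bound h1 h2 le_rfl (show 0 ≤ π / 6 by linarith)
  have p4 := p2.trans_le p3
  have hb := bound_box (p := (packingDensity C, latticeCoveringDensity C))
    fun ψ hψ => (main_bound h1 h2 hψ.1 hψ.2).2.2.2
  simp only at hb
  set x := packingDensity C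
  set y := latticeCoveringDensity C
  have key : ∀ s, √(1 - x) < s → y - 1 ≤ s := by
    intro s hs
    have s0 : 0 < s := (sqrt_nonneg _).trans_lt hs
    rcases le_total s (1 / 2) with k | k
    · have hx : 1 - s ^ 2 < x := by linarith [(sqrt_lt' s0).1 hs]
      have hφ : √3 / 2 * s ≤ π / 6 := by nlinarith
      have k1 := (main_bound h1 h2 (ψ := π / 6 - √3 / 2 * s) (by linarith)
        (by linarith [mul_pos h3p s0])).2.2.2
      have e : 4 * (π / 6 - (π / 6 - √3 / 2 * s)) / √3 = 2 * s := by field_simp; ring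
      have k2 : √3 * tan (π / 6 - √3 / 2 * s) / x ≤ (1 - s) / (1 + s) := by
        rw [div_le_div_iff₀ p1 (by linarith)]
        have := mul_le_mul_of_nonneg_right (beta_le s0.le hφ) (show 0 ≤ 1 + s by linarith)
        nlinarith
      have k3 : 2 * s / (1 + s) ≤ 2 * s / y := by
        have : 2 * s / (1 + s) = 1 - (1 - s) / (1 + s) := by field_simp; ring
        rw [e] at k1
        linarith
      rw [div_le_div_iff_of_pos_left (by linarith) (by linarith) p4] at k3
      linarith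
    · have : 4 / √3 * (π / 6) ≤ 3 / 2 := by
        rw [div_mul_eq_mul_div, div_le_iff₀ h3p]; linarith
      linarith [hb.2]
  exact le_of_forall_gt_imp_ge_of_dense key

lemma arc_est {ψ : ℝ} (h : ψ ∈ Icc 0 (π / 6)) :
    √3 / 4 + 2 * sin ψ ^ 2 * (π / 6 - ψ) ≤ top ψ ∧
      1 - √3 * (top ψ / cos ψ ^ 2) ≤ (2 / √3 * (π / 6 - ψ)) ^ 2 := by
  have hpi := pi_pos
  have h3 : √3 * √3 = 3 := Real.mul_self_sqrt (by norm_num)
  have h3p : 0 < √3 := by positivity
  have hsin : ∀ t ∈ Icc ψ (π / 6), sin ψ ≤ sin t := fun t ht =>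
    sin_le_sin_of_le_of_le_pi_div_two (by linarith [h.1]) (by linarith [ht.2]) ht.1
  have d0 : ∀ t, HasDerivAt top (-(2 * sin t ^ 2)) t := fun t =>
    (((hasDerivAt_sin t).mul (hasDerivAt_cos t)).add
      ((hasDerivAt_id' t).const_sub (π / 6))).congr_deriv (by
        linear_combination sin_sq_add_cos_sq t)
  have t0 : top (π / 6) = √3 / 4 := by
    rw [top, sin_pi_div_six, cos_pi_div_six]; ring
  constructor
  · have := le_of_deriv (G := fun t => -top t - 2 * sin ψ ^ 2 * t)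
      (G' := fun t => 2 * sin t ^ 2 - 2 * sin ψ ^ 2)
      (fun t => ((d0 t).neg.sub ((hasDerivAt_id' t).const_mul _)).congr_deriv (by ring)) h.2
      fun t ht => by linarith [pow_le_pow_left₀ (trig_pos h).2.1 (hsin t ht) 2]
    rw [t0] at this
    linarith
  · have := le_of_deriv' (G := fun t => -(√3 * (top t / cos t ^ 2)) - (2 / √3 * (π / 6 - t)) ^ 2)
      (G' := fun t => 2 * (π / 6 - t) * (4 / 3 - √3 * (sin t / cos t ^ 3))) h.2
      (fun t ht => by
        have hc := (trig_pos (ψ := t) ⟨h.1.trans ht.1, ht.2⟩).1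
        refine ((((d0 t).div ((hasDerivAt_cos t).pow 2) (pow_pos hc 2).ne').const_mul √3).neg.sub
          ((((hasDerivAt_id' t).const_sub (π / 6)).const_mul (2 / √3)).pow 2)).congr_deriv ?_
        simp only [Pi.pow_apply, top]
        generalize π / 6 - t = φ
        have e : 4 / 3 = 2 / √3 * (2 / √3) := by field_simp; linarith
        rw [e]
        push_cast
        simp only [pow_one]
        field_simp
        ring)
      fun t ht => by
        obtain ⟨c, s, s'⟩ := trig_pos (ψ := t) ⟨h.1.trans ht.1, ht.2⟩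
        refine mul_nonneg (by linarith [ht.2]) (sub_nonneg.2 ?_)
        have c1 : √3 / 2 ≤ cos t := by
          rw [← cos_pi_div_six]
          exact cos_le_cos_of_nonneg_of_le_pi (h.1.trans ht.1) (by linarith) ht.2
        have c2 := pow_le_pow_left₀ (by positivity) c1 3
        have e : (√3 / 2) ^ 3 = 3 * √3 / 8 := by linear_combination (√3 / 8) * h3
        rw [← mul_div_assoc, div_le_iff₀ (pow_pos c 3)]
        nlinarith
    have e : √3 * (√3 / 4 / (3 / 4)) = 1 := by linarith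
    simp only [t0, sq_cos_pi_div_six, sub_self, mul_zero, e] at this
    linarith

theorem sqrt_sharp {c : ℝ} (hc : ∀ C : Set Plane, IsConvexBody C → IsCentrallySymmetric C →
    latticeCoveringDensity C - 1 ≤ c * √(1 - packingDensity C)) : 1 ≤ c := by
  have hpi := pi_pos
  have h3 : √3 * √3 = 3 := Real.mul_self_sqrt (by norm_num)
  have h3p : 0 < √3 := by positivity
  have key : ∀ ψ ∈ Ioo 0 (π / 6), 4 * sin ψ ^ 2 ≤ max c 0 := by
    intro ψ hψ
    obtain ⟨h1, h2, e1, -, e2⟩ := body_dens (s := 0) hψ.1.le le_rfl (by linarith [hψ.2])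
    obtain ⟨k1, k2⟩ := arc_est (Ioo_subset_Icc_self hψ)
    have cψ := (trig_pos (Ioo_subset_Icc_self hψ)).1
    have := hc _ h1 h2
    rw [e1, e2, mul_zero, zero_add, sub_zero, ← top] at this
    have e3 : 6 * top ψ / (2 * √3 * cos ψ ^ 2) = √3 * (top ψ / cos ψ ^ 2) := by
      field_simp; linear_combination (-2 * top ψ) * h3
    have e4 : 6 * top ψ / (3 * √3 / 2) = 4 / √3 * top ψ := by field_simp; ring
    have hφ : 0 < 2 / √3 * (π / 6 - ψ) := mul_pos (by positivity) (by linarith [hψ.2])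
    have k3 : √(1 - √3 * (top ψ / cos ψ ^ 2)) ≤ 2 / √3 * (π / 6 - ψ) := sqrt_le_iff.2 ⟨hφ.le, k2⟩
    have k4 := mul_le_mul (le_max_left c 0) k3 (sqrt_nonneg _) (le_max_right c 0)
    have k5 := mul_le_mul_of_nonneg_left k1 (show 0 ≤ 4 / √3 by positivity)
    have e5 : 4 / √3 * (√3 / 4 + 2 * sin ψ ^ 2 * (π / 6 - ψ)) =
        1 + 4 * sin ψ ^ 2 * (2 / √3 * (π / 6 - ψ)) := by field_simp
    rw [e3, e4] at this
    exact le_of_mul_le_mul_right (by linarith) hφ
  have hl : Tendsto (fun ψ : ℝ => 4 * sin ψ ^ 2) (𝓝[<] (π / 6)) (𝓝 1) := by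
    have : Continuous fun ψ : ℝ => 4 * sin ψ ^ 2 := by fun_prop
    have := (this.tendsto (π / 6)).mono_left (nhdsWithin_le_nhds (s := Iio (π / 6)))
    rwa [sin_pi_div_six, show 4 * (1 / 2 : ℝ) ^ 2 = 1 by norm_num] at this
  have : 1 ≤ max c 0 := le_of_tendsto hl (by
    filter_upwards [Ioo_mem_nhdsLT (show (0 : ℝ) < π / 6 by linarith)] with ψ hψ using key ψ hψ)
  rcases le_max_iff.1 this with k | k
  · exact k
  · linarith

end Pool.Agent.Lib.MP_fb520c_co
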